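import Pool.Agent.Lib.MP_e5111b_co.Ke.Defs

set_option autoImplicit false

namespace Pool.Agent.Lib.MP_e5111b_co.Ke

open Filter MvPolynomial Finset Pc

/-- the next abscissa determines `s` up to four values -/
theorem quartic {K : Type} [Field K] [CharZero K] (a d e s₀ w₀ z : K) (hw : w₀ ≠ 0)
    (hd : d * e * (a ^ 2 - 4 * d * e) ≠ 0) : ∃ p : Polynomial K, p ≠ 0 ∧ p.natDegree ≤ 4 ∧
      ∀ (Ω : Type) [Field Ω] [Algebra K Ω] (u : Fin 7 → Ω), u 0 = algebraMap K Ω a →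
        u 1 = algebraMap K Ω d → u 2 = algebraMap K Ω e → u 3 = algebraMap K Ω s₀ →
        u 4 = algebraMap K Ω w₀ → u 6 ^ 2 = u 1 * u 5 ^ 4 + u 0 * u 5 ^ 2 + u 2 →
        algebraMap K Ω z * (u 5 - u 3) ^ 2 = nG u → Polynomial.aeval (u 5) p = 0 := by
  obtain ⟨A, hA⟩ : ∃ A, A = z - 2 * d * s₀ ^ 2 - a := ⟨_, rfl⟩
  obtain ⟨B, hB⟩ : ∃ B, B = -2 * z * s₀ := ⟨_, rfl⟩
  obtain ⟨G, hG⟩ : ∃ G, G = z * s₀ ^ 2 - a * s₀ ^ 2 - 2 * e := ⟨_, rfl⟩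
  refine ⟨Polynomial.C (A ^ 2 - 4 * w₀ ^ 2 * d) * Polynomial.X ^ 4 +
    Polynomial.C (2 * A * B) * Polynomial.X ^ 3 +
    Polynomial.C (B ^ 2 + 2 * A * G - 4 * w₀ ^ 2 * a) * Polynomial.X ^ 2 +
    Polynomial.C (2 * B * G) * Polynomial.X ^ 1 +
    Polynomial.C (G ^ 2 - 4 * w₀ ^ 2 * e) * Polynomial.X ^ 0, fun h0 => ?_, ?_, ?_⟩
  · have c := fun i => congrArg (Polynomial.coeff · i) h0
    have c4 := c 4
    have c3 := c 3
    have c2 := c 2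
    have c0 := c 0
    simp only [Polynomial.coeff_add, Polynomial.coeff_C_mul_X_pow,
      Polynomial.coeff_zero] at c4 c3 c2 c0
    norm_num at c4 c3 c2 c0
    have d0 : d ≠ 0 := fun k => hd (by rw [k]; ring)
    have A0 : A ≠ 0 := by
      rintro rfl
      refine mul_ne_zero (mul_ne_zero (by norm_num : (4 : K) ≠ 0) (pow_ne_zero 2 hw)) d0 ?_
      linear_combination -c4
    have B0 : B = 0 := c3.resolve_left A0
    rw [B0] at c2
    have : (4 * w₀ ^ 2) ^ 2 * (a ^ 2 - 4 * d * e) = 0 := by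
      linear_combination (-(2 * A * G + 4 * w₀ ^ 2 * a)) * c2 + 4 * G ^ 2 * c4 +
        16 * w₀ ^ 2 * d * c0
    exact mul_ne_zero (pow_ne_zero 2 (mul_ne_zero (by norm_num : (4 : K) ≠ 0) (pow_ne_zero 2 hw)))
      (right_ne_zero_of_mul hd) this
  · compute_degree
  · intro Ω _ _ u h0 h1 h2 h3 h4 h5 h6
    have k : algebraMap K Ω A * u 5 ^ 2 + algebraMap K Ω B * u 5 + algebraMap K Ω G =
        2 * u 6 * u 4 := by
      rw [nG] at h6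
      simp only [hA, hB, hG, map_sub, map_mul, map_pow, map_neg, map_ofNat, ← h0, ← h1, ← h2, ← h3]
      linear_combination h6
    simp only [map_add, map_mul, map_sub, map_pow, map_ofNat, Polynomial.aeval_C,
      Polynomial.aeval_X, ← h0, ← h1, ← h2, ← h4]
    linear_combination (algebraMap K Ω A * u 5 ^ 2 + algebraMap K Ω B * u 5 + algebraMap K Ω G +
      2 * u 6 * u 4) * k + 4 * u 4 ^ 2 * h5

variable {K : Type} [Field K] {u v : Fin 7 → K}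

/-- the isogenous curve -/
theorem Lev.next (h : Lev u) :
    nY u ^ 2 = nX u * (nX u ^ 2 + -2 * u 0 * nX u + (u 0 ^ 2 - 4 * u 1 * u 2)) := by
  obtain ⟨h1, h2, h3⟩ := h
  have n0 : u 5 ^ 2 - u 3 ^ 2 ≠ 0 := right_ne_zero_of_mul h3
  have n1 : u 5 - u 3 ≠ 0 := fun k => n0 (by linear_combination (u 5 + u 3) * k)
  have n2 : u 5 + u 3 ≠ 0 := fun k => n0 (by linear_combination (u 5 - u 3) * k)
  have e0 : u 0 = (u 6 ^ 2 - u 4 ^ 2) / ((u 5 - u 3) * (u 5 + u 3)) -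
      u 1 * (u 5 ^ 2 + u 3 ^ 2) := by
    field_simp
    linear_combination h2 - h1
  have e2 : u 2 = u 6 ^ 2 - u 1 * u 5 ^ 4 - u 0 * u 5 ^ 2 := by linear_combination -h1
  have k : (2 * (u 6 * u 3 + u 4 * u 5) / (u 5 ^ 2 - u 3 ^ 2)) ^ 2 * nX u =
      nX u ^ 2 + -2 * u 0 * nX u + (u 0 ^ 2 - 4 * u 1 * u 2) := by
    rw [nX, nG, e2, e0, (by ring : u 5 ^ 2 - u 3 ^ 2 = (u 5 - u 3) * (u 5 + u 3))]
    field_simp
    ring
  rw [nY, ← k]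
  ring

theorem Lev.lnk (h : Lev u) (h' : Lev v)
    (hb : Bas (-2 * u 0) (u 0 ^ 2 - 4 * u 1 * u 2) (nX u) (nY u) v) : Lnk u v := by
  obtain ⟨b1, b2, b3, b4⟩ := hb
  have n0 : u 5 ^ 2 - u 3 ^ 2 ≠ 0 := right_ne_zero_of_mul h.2.2
  have n1 : u 5 - u 3 ≠ 0 := fun k => n0 (by linear_combination (u 5 + u 3) * k)
  have m : v 1 * v 5 ≠ 0 := fun k => h'.2.2 (by
    linear_combination v 2 * (v 0 ^ 2 - 4 * v 1 * v 2) * v 3 * v 4 * (v 5 ^ 2 - v 3 ^ 2) * k)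
  refine ⟨b1, b2, ?_, mul_left_cancel₀ m ?_⟩
  · rw [← b3, nX, div_mul_cancel₀ _ (pow_ne_zero 2 n1)]
  · rw [← mul_assoc, ← b4, nY, b3]
    field_simp

end Pool.Agent.Lib.MP_e5111b_co.Ke
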