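import Pool.Agent.Lib.MP_e5111b_co.Ke.Ht
import Pool.Agent.Lib.MP_e5111b_co.Gp.GeoA

set_option autoImplicit false

namespace Pool.Agent.Lib.MP_e5111b_co.Ke

open Filter MvPolynomial Finset Pc

variable {ι : Type} {P P' : ι × ι → ℤ} {k : ℕ} {o : Fin 3 → ι} {S : Finset ι} {A B : ι}

theorem hb_al {M : ℕ} (hM : 2 ≤ M) (h : ∀ i, |P i| ≤ M) (i : ι) :
    Hb M 100 (al P o i) ∧ Hb M 100 (hh P o i) := by
  have h1 : ∀ x, Hb M 1 (P x : ℚ) := fun x => Hb.int hM (by rw [pow_one]; exact h x)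
  have h2 : ∀ i, Hb M 4 (r0 P o i) := fun i => (((h1 _).mul (h1 _)).div (h1 _)).div (h1 _)
  have h3 : ∀ i j, Hb M 6 (rr P o i j) := fun i j => ((h2 i).mul (h1 _)).div (h1 _)
  have h4 : ∀ i j, Hb M 12 (rr P o i j ^ 2) := fun i j => (h3 i j).pow 2
  have h5 : Hb M 27 (al P o i) :=
    (((h4 i _).add hM (Hb.one hM)).sub hM (h4 i _)).div (Hb.two hM)
  have h6 : Hb M 67 (hh P o i) := (h4 i _).sub hM (h5.pow 2)
  exact ⟨h5.mono hM (by norm_num), h6.mono hM (by norm_num)⟩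

theorem fib_hom4 {κ : ℚ} (hκ : κ ≠ 0) (a b c d : ℚ) :
    κ * a * (κ * b) / (κ * c) / (κ * d) = a * b / c / d := by
  rw [show κ * a * (κ * b) / (κ * c) / (κ * d) = κ * a / (κ * c) * (κ * b / (κ * d)) by ring,
    mul_div_mul_left _ _ hκ, mul_div_mul_left _ _ hκ]
  ring

theorem fib_hom2 {κ : ℚ} (hκ : κ ≠ 0) (r a b : ℚ) : r * (κ * a) / (κ * b) = r * a / b := by
  rw [mul_div_assoc, mul_div_mul_left _ _ hκ, mul_div_assoc]

theorem fib_kap {g g' : ℤ} (hg : 0 < g) {a b : ℤ} (e : g' * a = g * b) :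
    (b : ℚ) = (g' : ℚ) / g * a := by
  have h1 : (g : ℚ) ≠ 0 := by exact_mod_cast hg.ne'
  have h2 : (g' : ℚ) * a = g * b := by exact_mod_cast e
  field_simp
  linear_combination -h2

/-- the invariants depend on the shape only -/
theorem shape {g g' : ℤ} (hg : 0 < g) (hg' : 0 < g') (ho : ∀ r, o r ∈ S)
    (e : ∀ i ∈ S, ∀ j ∈ S, g' * P (i, j) = g * P' (i, j)) :
    al0 P o = al0 P' o ∧ hh0 P o = hh0 P' o ∧
      ∀ i ∈ S, al P o i = al P' o i ∧ hh P o i = hh P' o i := by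
  have hκ : (g' : ℚ) / g ≠ 0 := div_ne_zero (by exact_mod_cast hg'.ne') (by exact_mod_cast hg.ne')
  have e1 : ∀ i ∈ S, ∀ j ∈ S, (P' (i, j) : ℚ) = (g' : ℚ) / g * P (i, j) :=
    fun i hi j hj => fib_kap hg (e i hi j hj)
  have h0 : ∀ i ∈ S, r0 P o i = r0 P' o i := by
    intro i hi
    unfold r0
    rw [e1 _ (ho 0) _ (ho 1), e1 _ (ho 0) _ (ho 2), e1 _ (ho 1) _ (ho 2), e1 _ (ho 0) _ hi,
      fib_hom4 hκ]
  have h1 : ∀ i ∈ S, ∀ j ∈ S, rr P o i j = rr P' o i j := by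
    intro i hi j hj
    unfold rr
    rw [e1 _ hi _ hj, e1 _ (ho 0) _ hj, fib_hom2 hκ, h0 i hi]
  have h2 : al0 P o = al0 P' o := by
    unfold al0
    rw [h0 _ (ho 1), h0 _ (ho 2)]
  refine ⟨h2, ?_, fun i hi => ?_⟩
  · unfold hh0
    rw [h0 _ (ho 1), h2]
  · have h3 : al P o i = al P' o i := by
      unfold al
      rw [h1 _ hi _ (ho 1), h1 _ hi _ (ho 2)]
    refine ⟨h3, ?_⟩
    unfold hh
    rw [h1 _ hi _ (ho 1), h3]

theorem fib_symm (h : Gp.Good k P) (i j : ι) : P (i, j) = P (j, i) := by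
  obtain ⟨-, X, -, h3, -⟩ := h
  have := dist_comm (X i) (X j)
  rw [h3, h3] at this
  exact_mod_cast this

theorem fib_nonneg (h : Gp.Good k P) (i j : ι) : (0 : ℚ) ≤ P (i, j) := by
  obtain ⟨-, X, -, h3, -⟩ := h
  have : 0 ≤ dist (X i) (X j) := dist_nonneg
  rw [h3] at this
  exact_mod_cast this

theorem fib_pos (h : Gp.Good k P) {i j : ι} (hij : i ≠ j) : (0 : ℚ) < P (i, j) := by
  exact_mod_cast h.pos hij

theorem fib_r0_pos (h : Gp.Good k P) (ho : Function.Injective o) {i : ι} (hi : o 0 ≠ i) :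
    0 < r0 P o i :=
  div_pos (div_pos (mul_pos (fib_pos h (ho.ne (by decide))) (fib_pos h (ho.ne (by decide))))
    (fib_pos h (ho.ne (by decide)))) (fib_pos h hi)

theorem fib_rr_nonneg (h : Gp.Good k P) (ho : Function.Injective o) {i : ι} (hi : o 0 ≠ i)
    (j : ι) : 0 ≤ rr P o i j :=
  div_nonneg (mul_nonneg (fib_r0_pos h ho hi).le (fib_nonneg h _ _)) (fib_nonneg h _ _)

/-- the shape of `S` and the places of the other points determine the matrix -/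
theorem fib_eq (h : Gp.Good k P) (h' : Gp.Good k P') (s : Str P o S A B) (s' : Str P' o S A B)
    {g g' : ℤ} (hg : 0 < g) (hg' : 0 < g')
    (e : ∀ i ∈ S, ∀ j ∈ S, g' * P (i, j) = g * P' (i, j))
    (ha : ∀ i ∉ S, al P o i = al P' o i) : P = P' := by
  obtain ⟨s1, s2, s3⟩ := shape (P := P) (P' := P') hg hg' s.mem e
  have hκ : (g' : ℚ) / g ≠ 0 := div_ne_zero (by exact_mod_cast hg'.ne') (by exact_mod_cast hg.ne')
  have e1 : ∀ i ∈ S, ∀ j ∈ S, (P' (i, j) : ℚ) = (g' : ℚ) / g * P (i, j) :=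
    fun i hi j hj => fib_kap hg (e i hi j hj)
  generalize (g' : ℚ) / g = κ at hκ e1
  have ho := s.inj
  have hne : ∀ i ∉ S, o 0 ≠ i := fun i hi hh => hi (hh ▸ s.mem 0)
  have h0 : ∀ i ∉ S, r0 P o i = r0 P' o i := by
    intro i hi
    refine (sq_eq_sq₀ (fib_r0_pos h ho (hne i hi)).le (fib_r0_pos h' ho (hne i hi)).le).1 ?_
    rw [(s.out i hi).2.1, (s'.out i hi).2.1, ha i hi, s1, s2]
  have h1 : ∀ i, (P' (o 0, i) : ℚ) = κ * P (o 0, i) := by
    intro i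
    by_cases hi : i ∈ S
    · exact e1 _ (s.mem 0) _ hi
    have h2 := h0 i hi
    have p1 := (fib_pos h (ho.ne (show (0 : Fin 3) ≠ 1 by decide))).ne'
    have p2 := (fib_pos h (ho.ne (show (0 : Fin 3) ≠ 2 by decide))).ne'
    have p3 := (fib_pos h (ho.ne (show (1 : Fin 3) ≠ 2 by decide))).ne'
    have p4 := (fib_pos h (hne i hi)).ne'
    have p5 := (fib_pos h' (hne i hi)).ne'
    unfold r0 at h2
    rw [e1 _ (s.mem 0) _ (s.mem 1), e1 _ (s.mem 0) _ (s.mem 2), e1 _ (s.mem 1) _ (s.mem 2)] at h2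
    field_simp at h2
    linear_combination h2
  have h2 : ∀ i ∉ S, ∀ j, (P' (i, j) : ℚ) = κ * P (i, j) := by
    intro i hi j
    by_cases hj : j = o 0
    · rw [hj, fib_symm h i, fib_symm h' i]
      exact h1 i
    have h3 : al P o j = al P' o j ∧ hh P o j = hh P' o j := by
      by_cases hS : j ∈ S
      · exact s3 j hS
      · exact ⟨ha j hS, by rw [(s.out j hS).1, (s'.out j hS).1]⟩
    have h4 : rr P o i j = rr P' o i j := by
      refine (sq_eq_sq₀ (fib_rr_nonneg h ho (hne i hi) j) (fib_rr_nonneg h' ho (hne i hi) j)).1 ?_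
      rw [(s.out i hi).2.2 j hj, (s'.out i hi).2.2 j hj, ha i hi, h3.1, h3.2]
    have p1 := (fib_r0_pos h' ho (hne i hi)).ne'
    have p2 := (fib_pos h (Ne.symm hj)).ne'
    unfold rr at h4
    rw [h0 i hi, h1 j] at h4
    field_simp at h4
    linear_combination -h4
  have h3 : ∀ i j, (P' (i, j) : ℚ) = κ * P (i, j) := by
    intro i j
    by_cases hi : i ∈ S
    · by_cases hj : j ∈ S
      · exact e1 i hi j hj
      · rw [fib_symm h i, fib_symm h' i]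
        exact h2 j hj i
    · exact h2 i hi j
  refine h.eq h' (ho.ne (show (0 : Fin 3) ≠ 1 by decide)) fun x => ?_
  have : (P x : ℚ) * P' (o 0, o 1) = P' x * P (o 0, o 1) := by
    rw [h3 (o 0) (o 1), show (P' x : ℚ) = κ * P x from h3 x.1 x.2]
    ring
  exact_mod_cast this

end Pool.Agent.Lib.MP_e5111b_co.Ke
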