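import Pool.Agent.Lib.MP_e5111b_co.Ke.Two
import Pool.Agent.Lib.MP_e5111b_co.Ke.Fib

set_option autoImplicit false

namespace Pool.Agent.Lib.MP_e5111b_co.Ke

open Filter MvPolynomial Finset Pc

theorem cnt_pow {η C t M : ℝ} (hη : 0 < η) (hC : 0 ≤ C) (hM : 1 ≤ M) (ht : 0 ≤ t) (n : ℕ)
    (h : t ≤ C * M ^ (η / (n + 1))) : (t + 1) ^ n ≤ (C + 1) ^ n * M ^ η := by
  have hn : (0 : ℝ) < n + 1 := by positivity
  have h1 : 1 ≤ M ^ (η / (n + 1)) := Real.one_le_rpow hM (by positivity)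
  have h2 : t + 1 ≤ (C + 1) * M ^ (η / (n + 1)) := by linarith
  have h3 : (M ^ (η / (n + 1))) ^ n ≤ M ^ η := by
    rw [← Real.rpow_natCast, ← Real.rpow_mul (by linarith)]
    refine Real.rpow_le_rpow_of_exponent_le hM ?_
    rw [div_mul_eq_mul_div, div_le_iff₀ hn]
    nlinarith
  calc (t + 1) ^ n ≤ ((C + 1) * M ^ (η / (n + 1))) ^ n := pow_le_pow_left₀ (by linarith) h2 n
    _ = (C + 1) ^ n * (M ^ (η / (n + 1))) ^ n := mul_pow _ _ _
    _ ≤ (C + 1) ^ n * M ^ η := mul_le_mul_of_nonneg_left h3 (by positivity)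

/-- the matrices with a given shape on `S` -/
theorem fib_count {ι : Type} [Fintype ι] {η : ℝ} (hη : 0 < η) : ∃ C : ℝ, 0 ≤ C ∧
    ∀ (M k : ℕ) (o : Fin 3 → ι) (S : Finset ι) (A B : ι) (Q : ι × ι → ℤ) (G : Finset (ι × ι → ℤ)),
      2 ≤ M → (∀ P ∈ G, (∀ i, |P i| ≤ M) ∧ Gp.Good k P ∧ Str P o S A B ∧
        ∃ g : ℤ, 0 < g ∧ ∀ i ∈ S, ∀ j ∈ S, P (i, j) = g * Q (i, j)) →
      (#G : ℝ) ≤ C * (M : ℝ) ^ η := by
  classical
  obtain ⟨C, hC, H⟩ := two_conics (η := η / ((Fintype.card ι : ℕ) + 1)) (by positivity) 100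
  refine ⟨(C + 1) ^ Fintype.card ι, by positivity, fun M k o S A B Q G hM hG => ?_⟩
  rcases G.eq_empty_or_nonempty with rfl | ⟨P₀, h₀⟩
  · simp only [card_empty, Nat.cast_zero]
    positivity
  have key : ∀ P ∈ G, ∀ P' ∈ G, ∃ g g' : ℤ, 0 < g ∧ 0 < g' ∧
      ∀ i ∈ S, ∀ j ∈ S, g' * P (i, j) = g * P' (i, j) := by
    intro P hP P' hP'
    obtain ⟨-, -, -, g, hg, e⟩ := hG P hP
    obtain ⟨-, -, -, g', hg', e'⟩ := hG P' hP'
    refine ⟨g, g', hg, hg', fun i hi j hj => ?_⟩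
    rw [e i hi j hj, e' i hi j hj]
    ring
  obtain ⟨b₀, -, s₀, -⟩ := hG P₀ h₀
  let T : Finset ℚ := (G ×ˢ Sᶜ).image fun p => al p.1 o p.2
  have hT : (#T : ℝ) ≤ C * (M : ℝ) ^ (η / ((Fintype.card ι : ℕ) + 1)) := by
    refine H M (al P₀ o A) (hh P₀ o A) (al P₀ o B) (hh P₀ o B) T hM (hb_al hM b₀ A).1
      (hb_al hM b₀ A).2 (hb_al hM b₀ B).1 (hb_al hM b₀ B).2 s₀.posA s₀.posB s₀.ne fun z hz => ?_
    obtain ⟨⟨P, i⟩, hp, rfl⟩ := mem_image.1 hz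
    obtain ⟨hP, hi⟩ := mem_product.1 hp
    obtain ⟨b, -, s, -⟩ := hG P hP
    obtain ⟨g, g', hg, hg', e⟩ := key P hP P₀ h₀
    obtain ⟨-, -, sh⟩ := shape hg hg' s.mem e
    obtain ⟨-, -, out⟩ := s.out i (mem_compl.1 hi)
    refine ⟨(hb_al hM b i).1, ?_, ?_⟩
    · rw [← (sh A s.memA).1, ← (sh A s.memA).2, ← out A s.neA]
      exact IsSquare.sq _
    · rw [← (sh B s.memB).1, ← (sh B s.memB).2, ← out B s.neB]
      exact IsSquare.sq _
  have hc : #G ≤ #(Fintype.piFinset fun _ : ι => insert 0 T) := by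
    refine card_le_card_of_injOn (fun P i => if i ∈ S then 0 else al P o i) (fun P hP => ?_)
      fun P hP P' hP' e => ?_
    · refine mem_coe.2 (Fintype.mem_piFinset.2 fun i => ?_)
      by_cases hi : i ∈ S
      · simp [hi]
      · simp only [hi, if_false]
        exact mem_insert_of_mem
          (mem_image.2 ⟨(P, i), mem_product.2 ⟨hP, mem_compl.2 hi⟩, rfl⟩)
    · obtain ⟨g, g', hg, hg', e'⟩ := key P hP P' hP'
      refine fib_eq (hG P hP).2.1 (hG P' hP').2.1 (hG P hP).2.2.1 (hG P' hP').2.2.1 hg hg' e'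
        fun i hi => ?_
      simpa [hi] using congrFun e i
  rw [Fintype.card_piFinset, prod_const, card_univ] at hc
  have h1 : #G ≤ (#T + 1) ^ Fintype.card ι :=
    hc.trans (Nat.pow_le_pow_left (card_insert_le _ _) _)
  have hM' : (1 : ℝ) ≤ M := by exact_mod_cast (by omega : 1 ≤ M)
  refine le_trans ?_ (cnt_pow hη hC hM' (Nat.cast_nonneg #T) _ hT)
  exact_mod_cast h1

end Pool.Agent.Lib.MP_e5111b_co.Ke
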