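import Pool.Agent.Lib.MP_e5111b_co.Ke.Defs

set_option autoImplicit false

namespace Pool.Agent.Lib.MP_e5111b_co.Ke

open Filter MvPolynomial Finset Pc

lemma cone_ev (g : MvPolynomial (Fin 2) ℚ) (f : Fin 2 → Polynomial ℚ) (y : ℚ) :
    (aeval f g).eval y = eval (fun i => (f i).eval y) g := by
  induction g using MvPolynomial.induction_on with
  | C a => simp
  | add p q hp hq => simp [hp, hq]
  | mul_X p i hp => simp [hp]

lemma cone_roots {g : MvPolynomial (Fin 2) ℚ} {D : ℕ} (hD : g.totalDegree ≤ D)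
    {f : Fin 2 → Polynomial ℚ} (hf : ∀ i, (f i).natDegree ≤ 1) :
    #(aeval f g).roots.toFinset ≤ D :=
  (Multiset.toFinset_card_le _).trans ((Polynomial.card_roots' _).trans
    ((aeval_natDegree_le g hD f hf).trans_eq (mul_one D)))

lemma cone_pt {g : MvPolynomial (Fin 2) ℚ} (hg : g ≠ 0) :
    ∃ x q : ℚ, eval ![x * q, q] g ≠ 0 := by
  by_contra hn
  push Not at hn
  refine mul_ne_zero hg (X_ne_zero (1 : Fin 2)) (MvPolynomial.funext fun z => ?_)
  rw [map_mul, eval_X, map_zero]
  by_cases h1 : z 1 = 0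
  · rw [h1, mul_zero]
  · have e : z = ![z 0 / z 1 * z 1, z 1] := by
      funext i
      fin_cases i <;> simp [h1]
    rw [e, hn, zero_mul]

/-- points of a cone on a plane curve -/
theorem cone_count {W : Type} {g : MvPolynomial (Fin 2) ℚ} (hg : g ≠ 0) {D : ℕ}
    (hD : g.totalDegree ≤ D) (V : Finset ℚ) (M : ℕ) (U : Finset W) (t : W → Fin 2 → ℚ)
    (hi : Set.InjOn t U)
    (h : ∀ u ∈ U, eval (t u) g = 0 ∧ ∃ x ∈ V, ∃ l : ℕ, 1 ≤ l ∧ l ≤ M ∧
      t u 0 = l * x.num ∧ t u 1 = l * x.den) : #U ≤ D * #V + D * M := by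
  classical
  obtain ⟨x0, q, h0⟩ := cone_pt hg
  let ψ : Polynomial ℚ := aeval ![Polynomial.X * Polynomial.C q, Polynomial.C q] g
  have eψ : ∀ x, ψ.eval x = eval ![x * q, q] g := fun x => by
    rw [cone_ev]
    congr 2
    funext i
    fin_cases i
    · simp [mul_comm x q]
    · simp
  have ψ0 : ψ ≠ 0 := fun e => h0 (by rw [← eψ, e, Polynomial.eval_zero])
  have cψ : #ψ.roots.toFinset ≤ D := cone_roots hD fun i => by
    fin_cases i
    · exact (Polynomial.natDegree_mul_C_le _ _).trans Polynomial.natDegree_X_le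
    · simp
  let F : ℚ → Finset W := fun x => U.filter fun u => ∃ l : ℕ, 1 ≤ l ∧ l ≤ M ∧
    t u 0 = l * x.num ∧ t u 1 = l * x.den
  have hM : ∀ x, #(F x) ≤ M := fun x => by
    have : #(F x) ≤ #((Icc 1 M).image fun l : ℕ => (![(l : ℚ) * x.num, l * x.den] : Fin 2 → ℚ)) := by
      refine card_le_card_of_injOn t (fun u hu => ?_) (hi.mono fun u hu => (mem_filter.1 hu).1)
      obtain ⟨-, l, l1, l2, e0, e1⟩ := mem_filter.1 hu
      refine mem_coe.2 (mem_image.2 ⟨l, mem_Icc.2 ⟨l1, l2⟩, ?_⟩)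
      funext i
      fin_cases i
      · exact e0.symm
      · exact e1.symm
    exact this.trans (card_image_le.trans (by simp))
  have hF : ∀ x, x ∉ ψ.roots.toFinset → #(F x) ≤ D := fun x hx => by
    let ϕ : Polynomial ℚ := aeval ![Polynomial.C x * Polynomial.X, Polynomial.X] g
    have eϕ : ∀ y, ϕ.eval y = eval ![x * y, y] g := fun y => by
      rw [cone_ev]
      congr 2
      funext i
      fin_cases i <;> simp
    have ϕ0 : ϕ ≠ 0 := fun e => hx (by
      rw [Multiset.mem_toFinset, Polynomial.mem_roots ψ0, Polynomial.IsRoot, eψ, ← eϕ, e,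
        Polynomial.eval_zero])
    have cϕ : #ϕ.roots.toFinset ≤ D := cone_roots hD fun i => by
      fin_cases i
      · exact (Polynomial.natDegree_C_mul_le _ _).trans Polynomial.natDegree_X_le
      · exact Polynomial.natDegree_X_le
    have et : ∀ u ∈ F x, t u = ![x * t u 1, t u 1] := fun u hu => by
      obtain ⟨-, l, -, -, e0, e1⟩ := mem_filter.1 hu
      funext i
      fin_cases i
      · show t u 0 = x * t u 1
        rw [e0, e1, mul_left_comm, Rat.mul_den_eq_num]
      · rfl
    refine le_trans (card_le_card_of_injOn (fun u => t u 1) (fun u hu => ?_)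
      fun u hu v hv e => ?_) cϕ
    · rw [mem_coe, Multiset.mem_toFinset, Polynomial.mem_roots ϕ0, Polynomial.IsRoot, eϕ,
        ← et u hu]
      exact (h u (mem_filter.1 hu).1).1
    · refine hi (mem_filter.1 hu).1 (mem_filter.1 hv).1 ?_
      rw [et u hu, et v hv, show t u 1 = t v 1 from e]
  have hU : U ⊆ V.biUnion F := fun u hu => by
    obtain ⟨-, x, hx, hl⟩ := h u hu
    exact mem_biUnion.2 ⟨x, hx, mem_filter.2 ⟨hu, hl⟩⟩
  calc #U ≤ ∑ x ∈ V, #(F x) := (card_le_card hU).trans card_biUnion_le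
    _ ≤ ∑ x ∈ V, (D + if x ∈ ψ.roots.toFinset then M else 0) := sum_le_sum fun x _ => by
      split_ifs with hx
      · exact (hM x).trans (Nat.le_add_left _ _)
      · exact hF x hx
    _ ≤ _ := by
      rw [sum_add_distrib, sum_const, smul_eq_mul, mul_comm, ← sum_filter, sum_const, smul_eq_mul]
      exact Nat.add_le_add_left (Nat.mul_le_mul_right _ ((card_le_card fun x hx =>
        (mem_filter.1 hx).2).trans cψ)) _

/-- a chain of fields with a new element at each step -/
theorem chain_indep {Ω : Type} [Field Ω] (j : ℕ) : ∀ (E : ℕ → Subfield Ω) (s : ℕ → Ω),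
    (∀ i, i + 1 < j → E i ≤ E (i + 1) ∧ s i ∈ E (i + 1)) → (∀ i < j, s i ∉ E i) →
    ∀ a : (Fin j → Fin 2) → Ω, (∀ l, a l ∈ E 0) →
      ∑ l, a l * ∏ i : Fin j, s i ^ (l i : ℕ) = 0 → ∀ l, a l = 0 := by
  induction j with
  | zero =>
    intro E s _ _ a _ h l
    rw [Fintype.sum_subsingleton _ l] at h
    simpa using h
  | succ j ih =>
    intro E s h1 h2 a ha h
    have hs : ∑ l : Fin j → Fin 2, (a (Fin.cons 0 l) + a (Fin.cons 1 l) * s 0) *
        ∏ i : Fin j, s (i + 1) ^ (l i : ℕ) = 0 := by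
      rw [← h, ← (Fin.consEquiv fun _ : Fin (j + 1) => Fin 2).sum_comp, Fintype.sum_prod_type,
        Fin.sum_univ_two, ← sum_add_distrib]
      refine sum_congr rfl fun l _ => ?_
      have e : ∀ b : Fin 2, Fin.consEquiv (fun _ : Fin (j + 1) => Fin 2) (b, l) = Fin.cons b l :=
        fun _ => rfl
      simp only [e, Fin.prod_univ_succ, Fin.cons_zero, Fin.cons_succ,
        Fin.val_zero, Fin.val_one, Fin.val_succ, pow_zero, pow_one]
      ring
    have hb : ∀ l : Fin j → Fin 2, a (Fin.cons 0 l) + a (Fin.cons 1 l) * s 0 = 0 := by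
      rcases Nat.eq_zero_or_pos j with e | e
      · exact ih (fun _ => ⊤) (fun i => s (i + 1)) (fun i hi => by omega) (fun i hi => by omega) _
          (fun _ => Subfield.mem_top _) hs
      · obtain ⟨k1, k2⟩ := h1 0 (by omega)
        exact ih (fun i => E (i + 1)) (fun i => s (i + 1)) (fun i hi => h1 _ (by omega))
          (fun i hi => h2 _ (by omega)) _
          (fun l => add_mem (k1 (ha _)) (mul_mem (k1 (ha _)) k2)) hs
    have h1' : ∀ l : Fin j → Fin 2, a (Fin.cons 1 l) = 0 := fun l => by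
      by_contra hn
      refine h2 0 (by omega) ?_
      have : s 0 = -a (Fin.cons 0 l) / a (Fin.cons 1 l) := by
        rw [eq_div_iff hn]
        linear_combination hb l
      rw [this]
      exact div_mem (neg_mem (ha _)) (ha _)
    intro l
    rw [← Fin.cons_self_tail l]
    have e := hb (Fin.tail l)
    rw [h1', zero_mul, add_zero] at e
    generalize l 0 = b
    fin_cases b
    · exact e
    · exact h1' _

end Pool.Agent.Lib.MP_e5111b_co.Ke
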