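import Pool.Agent.Lib.MP_e5111b_co.Gp.Defs
import Pool.Agent.Lib.MP_e5111b_co.Pc.Defs

set_option autoImplicit false

/-! Paucity with a constant number of points off each line and circle: definitions. -/

namespace Pool.Agent.Lib.MP_e5111b_co.Ke

open Filter MvPolynomial Finset Pc

/-- the height of `x` is at most `M ^ n` -/
def Hb (M n : ℕ) (x : ℚ) : Prop := x.num.natAbs ≤ M ^ n ∧ x.den ≤ M ^ n

/-- one level of the tower; the entries are `a, d, e, s₀, w₀, s, w` -/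
def Lev {K : Type} [CommRing K] (u : Fin 7 → K) : Prop :=
  u 6 ^ 2 = u 1 * u 5 ^ 4 + u 0 * u 5 ^ 2 + u 2 ∧
    u 4 ^ 2 = u 1 * u 3 ^ 4 + u 0 * u 3 ^ 2 + u 2 ∧
    u 1 * u 2 * (u 0 ^ 2 - 4 * u 1 * u 2) * u 3 * u 4 * u 5 * (u 5 ^ 2 - u 3 ^ 2) ≠ 0

/-- the numerator of the next abscissa -/
def nG {K : Type} [CommRing K] (u : Fin 7 → K) : K :=
  2 * u 6 * u 4 + 2 * u 1 * u 5 ^ 2 * u 3 ^ 2 + u 0 * (u 5 ^ 2 + u 3 ^ 2) + 2 * u 2

/-- the level `v` lies above the level `u` -/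
def Lnk {K : Type} [CommRing K] (u v : Fin 7 → K) : Prop :=
  v 0 = -2 * u 0 ∧ v 1 * v 2 = u 0 ^ 2 - 4 * u 1 * u 2 ∧
    v 1 * v 5 ^ 2 * (u 5 - u 3) ^ 2 = nG u ∧
    v 6 * (u 5 ^ 2 - u 3 ^ 2) = 2 * (u 6 * u 3 + u 4 * u 5) * v 5

/-- the level `u` lies above the point `(X, Y)` of `Y ^ 2 = X (X ^ 2 + a X + b)` -/
def Bas {K : Type} [CommRing K] (a b X Y : K) (u : Fin 7 → K) : Prop :=
  u 0 = a ∧ u 1 * u 2 = b ∧ X = u 1 * u 5 ^ 2 ∧ Y = u 1 * u 5 * u 6

/-- the next abscissa -/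
def nX {K : Type} [Field K] (u : Fin 7 → K) : K := nG u / (u 5 - u 3) ^ 2

/-- the next ordinate -/
def nY {K : Type} [Field K] (u : Fin 7 → K) : K :=
  2 * (u 6 * u 3 + u 4 * u 5) / (u 5 ^ 2 - u 3 ^ 2) * nX u

/-- the rational value at level `k` -/
def lv (c : Ctx) (k : ℕ) : c.Bd →+* ℚ := (Int.castRingHom ℚ).comp (c.ev k)

/-- all points have height at most `N k` -/
def RBox (c : Ctx) {τ : Type} (T : ℕ → Finset (τ → ℚ)) : Prop :=
  ∀ k, ∀ r ∈ T k, ∀ i, Hb (c.N k) 1 (r i)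

/-- `x` is a generic point of a family of rational points, and no hypersurface that misses `x`
holds more than half of the points -/
structure RGen (c : Ctx) {τ Ω : Type} [Field Ω] [Algebra c.F Ω] (T : ℕ → Finset (τ → ℚ))
    (x : τ → Ω) : Prop where
  van : ∀ g : MvPolynomial τ c.Bd, aeval x (map c.pi g) = 0 ↔
    ∀ᶠ k in (c.U : Filter ℕ), ∀ r ∈ T k, eval₂ (lv c k) r g = 0
  half : ∀ g : MvPolynomial τ c.Bd, aeval x (map c.pi g) ≠ 0 →
    ∀ᶠ k in (c.U : Filter ℕ), #(T k) ≤ 2 * #((T k).filter fun r => eval₂ (lv c k) r g ≠ 0)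

variable {ι : Type} (P : ι × ι → ℤ) (o : Fin 3 → ι)

/-- distance to the image of infinity after the inversion at `o 0` -/
def r0 (i : ι) : ℚ := (P (o 0, o 1) : ℚ) * P (o 0, o 2) / P (o 1, o 2) / P (o 0, i)

/-- distances after the inversion at `o 0` that sends `o 1`, `o 2` to `0`, `1` -/
def rr (i j : ι) : ℚ := r0 P o i * P (i, j) / P (o 0, j)

/-- real part after the inversion -/
def al (i : ι) : ℚ := (rr P o i (o 1) ^ 2 + 1 - rr P o i (o 2) ^ 2) / 2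

/-- squared imaginary part after the inversion -/
def hh (i : ι) : ℚ := rr P o i (o 1) ^ 2 - al P o i ^ 2

/-- real part of the image of infinity -/
def al0 : ℚ := (r0 P o (o 1) ^ 2 + 1 - r0 P o (o 2) ^ 2) / 2

/-- squared imaginary part of the image of infinity -/
def hh0 : ℚ := r0 P o (o 1) ^ 2 - al0 P o ^ 2

/-- the points outside `S` lie on the line or circle through the points `o`; the points `A`, `B`
do not, and are not mirror images -/
structure Str (S : Finset ι) (A B : ι) : Prop where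
  inj : Function.Injective o
  mem : ∀ r, o r ∈ S
  memA : A ∈ S
  memB : B ∈ S
  neA : A ≠ o 0
  neB : B ≠ o 0
  posA : 0 < hh P o A
  posB : 0 < hh P o B
  ne : (al P o A, hh P o A) ≠ (al P o B, hh P o B)
  out : ∀ i ∉ S, hh P o i = 0 ∧ r0 P o i ^ 2 = (al P o i - al0 P o) ^ 2 + hh0 P o ∧
    ∀ j, j ≠ o 0 → rr P o i j ^ 2 = (al P o i - al P o j) ^ 2 + hh P o j

/-- the point `z` lies on `γ` -/
def Onc (γ : Fin 4 → ℂ) (z : ℂ) : Prop := Gp.bil γ z (starRingEnd ℂ z) = 0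

end Pool.Agent.Lib.MP_e5111b_co.Ke
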