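import Pool.Agent.Lib.MP_e5111b_co.Ke.Defs
import Pool.Agent.Lib.MP_e5111b_co.Pc.UltB

set_option autoImplicit false

namespace Pool.Agent.Lib.MP_e5111b_co.Ke

open Filter MvPolynomial Finset Pc

variable {c : Ctx} {τ : Type} {T : ℕ → Finset (τ → ℚ)}

/-- `g` vanishes on the family at almost every level -/
def RatV (c : Ctx) (T : ℕ → Finset (τ → ℚ)) (g : MvPolynomial τ c.Bd) : Prop :=
  ∀ᶠ k in (c.U : Filter ℕ), ∀ r ∈ T k, eval₂ (lv c k) r g = 0

theorem RatV.mul {g : MvPolynomial τ c.Bd} (h : RatV c T g) (a : MvPolynomial τ c.Bd) :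
    RatV c T (a * g) :=
  Eventually.mono h fun k hk r hr => by rw [eval₂_mul, hk r hr, mul_zero]

theorem RatV.add {g g' : MvPolynomial τ c.Bd} (h : RatV c T g) (h' : RatV c T g') :
    RatV c T (g + g') :=
  (Eventually.and h h').mono fun k hk r hr => by rw [eval₂_add, hk.1 r hr, hk.2 r hr, add_zero]

theorem RatV.of_eq {g g' : MvPolynomial τ c.Bd} {b : c.Bd} (h : RatV c T g') (hb : c.pi b ≠ 0)
    (e : map c.pi g' = C (c.pi b) * map c.pi g) : RatV c T g := by
  have h0 : MvPolynomial.map c.pi (C b * g - g') = 0 := by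
    rw [map_sub, map_mul, map_C, e, sub_self]
  filter_upwards [h, c.map_pi_eq_zero.1 h0, Ultrafilter.eventually_not.2 (mt c.pi_eq_zero.2 hb)]
    with k h1 h2 h3 r hr
  have h4 : eval₂ (lv c k) r (C b * g - g') = 0 := by
    rw [lv, ← eval₂_map, h2, eval₂_zero]
  rw [eval₂_sub, eval₂_mul, eval₂_C, h1 r hr, sub_zero] at h4
  refine (mul_eq_zero.1 h4).resolve_left fun h5 => h3 ?_
  simpa [lv] using h5

/-- the ideal of a family of rational points -/
def ratI (c : Ctx) (T : ℕ → Finset (τ → ℚ)) : Ideal (MvPolynomial τ c.F) where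
  carrier := {H | ∃ (b : c.Bd) (g : MvPolynomial τ c.Bd), c.pi b ≠ 0 ∧
    map c.pi g = C (c.pi b) * H ∧ RatV c T g}
  add_mem' := fun {A B} ⟨b, g, hb, e, h⟩ ⟨b', g', hb', e', h'⟩ =>
    ⟨b * b', C b' * g + C b * g', by rw [map_mul]; exact mul_ne_zero hb hb', by
      simp only [map_add, map_mul, map_C, e, e']; ring, (h.mul _).add (h'.mul _)⟩
  zero_mem' := ⟨1, 0, by simp, by simp, Eventually.of_forall fun k r _ => eval₂_zero _ _⟩
  smul_mem' := fun A B ⟨b, g, hb, e, h⟩ => by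
    obtain ⟨b', a, hb', e'⟩ := c.clear fun _ : Unit => A
    exact ⟨b * b', a () * g, by rw [map_mul]; exact mul_ne_zero hb hb', by
      simp only [map_mul, e, (e' ()).1, smul_eq_mul]; ring, h.mul _⟩

theorem rat_mem {g : MvPolynomial τ c.Bd} : map c.pi g ∈ ratI c T ↔ RatV c T g :=
  ⟨fun ⟨_, _, hb, e, h⟩ => h.of_eq hb e, fun h => ⟨1, g, by simp, by simp, h⟩⟩

theorem rat_mono {T' : ℕ → Finset (τ → ℚ)} (s : ∀ k, T' k ⊆ T k) : ratI c T ≤ ratI c T' :=
  fun _ ⟨b, g, hb, e, h⟩ => ⟨b, g, hb, e, Eventually.mono h fun k hk r hr => hk r (s k hr)⟩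

theorem rat_prime (hne : ∀ᶠ k in (c.U : Filter ℕ), (T k).Nonempty)
    (hm : ∀ g : MvPolynomial τ c.Bd, (∀ᶠ k in (c.U : Filter ℕ),
      #(T k) ≤ 2 * #((T k).filter fun r => eval₂ (lv c k) r g = 0)) → RatV c T g) :
    (ratI c T).IsPrime := by
  classical
  refine ⟨fun h => ?_, fun {A B} h => ?_⟩
  · have h1 : RatV c T 1 := rat_mem.1 (h ▸ Submodule.mem_top)
    obtain ⟨k, ⟨r, hr⟩, hk⟩ := (hne.and h1).exists
    simpa using hk r hr
  · obtain ⟨b, g, hb, hg⟩ := c.clear (fun l : Bool => if l then A else B)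
    have h1 : RatV c T (g true * g false) := by
      rw [← rat_mem, map_mul, (hg true).1, (hg false).1, mul_mul_mul_comm]
      exact Ideal.mul_mem_left _ _ h
    have h2 : ∀ᶠ k in (c.U : Filter ℕ),
        #(T k) ≤ 2 * #((T k).filter fun r => eval₂ (lv c k) r (g true) = 0) ∨
        #(T k) ≤ 2 * #((T k).filter fun r => eval₂ (lv c k) r (g false) = 0) := by
      filter_upwards [h1] with k hk
      have s : T k ⊆ ((T k).filter fun r => eval₂ (lv c k) r (g true) = 0) ∪
          ((T k).filter fun r => eval₂ (lv c k) r (g false) = 0) := fun r hr => by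
        have := hk r hr
        rw [eval₂_mul, mul_eq_zero] at this
        simp only [mem_union, mem_filter]
        tauto
      have := (card_le_card s).trans (card_union_le _ _)
      omega
    exact (Ultrafilter.eventually_or.1 h2).imp (fun h => ⟨b, _, hb, (hg true).1, hm _ h⟩)
      fun h => ⟨b, _, hb, (hg false).1, hm _ h⟩

/-- a generic point for a subfamily of bounded index -/
theorem rrefine [Finite τ] (hT : RBox c T) (hne : ∀ᶠ k in (c.U : Filter ℕ), (T k).Nonempty) :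
    ∃ (T' : ℕ → Finset (τ → ℚ)) (K : ℕ) (Ω : Type) (_ : Field Ω) (_ : Algebra c.F Ω) (x : τ → Ω),
      (∀ k, T' k ⊆ T k) ∧ RGen c T' x ∧ ∀ᶠ k in (c.U : Filter ℕ), #(T k) ≤ K * #(T' k) := by
  have _ := hT
  obtain ⟨_, ⟨T', s, ⟨K, hK⟩, rfl⟩, hm⟩ := set_has_maximal_iff_noetherian.2
    (inferInstanceAs (IsNoetherian (MvPolynomial τ c.F) (MvPolynomial τ c.F)))
    {I | ∃ T' : ℕ → Finset (τ → ℚ), (∀ k, T' k ⊆ T k) ∧
      (∃ K : ℕ, ∀ᶠ k in (c.U : Filter ℕ), #(T k) ≤ K * #(T' k)) ∧ I = ratI c T'}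
    ⟨_, T, fun _ => Subset.rfl, ⟨1, Eventually.of_forall fun k => by omega⟩, rfl⟩
  have mx : ∀ g : MvPolynomial τ c.Bd, (∀ᶠ k in (c.U : Filter ℕ),
      #(T' k) ≤ 2 * #((T' k).filter fun r => eval₂ (lv c k) r g = 0)) → RatV c T' g := by
    intro g h
    have s' : ∀ k, ((T' k).filter fun r => eval₂ (lv c k) r g = 0) ⊆ T' k :=
      fun k => filter_subset _ _
    have := hm (ratI c _) ⟨_, fun k => (s' k).trans (s k), ⟨K * 2, by
      filter_upwards [hK, h] with k a b
      rw [mul_assoc]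
      exact a.trans (Nat.mul_le_mul_left K b)⟩, rfl⟩
    rw [← rat_mem, (rat_mono s').eq_of_not_lt this, rat_mem]
    exact Eventually.of_forall fun k r hr => (mem_filter.1 hr).2
  have hp : (ratI c T').IsPrime := by
    refine rat_prime ?_ mx
    filter_upwards [hne, hK] with k a b
    rw [← card_pos] at a ⊢
    by_contra h
    rw [Nat.eq_zero_of_not_pos h, mul_zero] at b
    omega
  let φ : MvPolynomial τ c.F →ₐ[c.F] FractionRing (MvPolynomial τ c.F ⧸ ratI c T') :=
    (IsScalarTower.toAlgHom c.F (MvPolynomial τ c.F ⧸ ratI c T') _).comp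
      (Ideal.Quotient.mkₐ c.F (ratI c T'))
  have e : aeval (fun i => φ (X i)) = φ := (aeval_unique φ).symm
  have v : ∀ g : MvPolynomial τ c.Bd,
      aeval (fun i => φ (X i)) (map c.pi g) = 0 ↔ RatV c T' g := fun g => by
    rw [e, ← rat_mem]
    exact (map_eq_zero_iff _ (IsFractionRing.injective (MvPolynomial τ c.F ⧸ ratI c T')
      (FractionRing (MvPolynomial τ c.F ⧸ ratI c T')))).trans
        (Ideal.Quotient.eq_zero_iff_mem (I := ratI c T') (a := map c.pi g))
  refine ⟨T', K, FractionRing (MvPolynomial τ c.F ⧸ ratI c T'), inferInstance, inferInstance,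
    fun i => φ (X i), s, ⟨v, fun g hg => ?_⟩, hK⟩
  have h2 : ∀ᶠ k in (c.U : Filter ℕ),
      #(T' k) ≤ 2 * #((T' k).filter fun r => eval₂ (lv c k) r g = 0) ∨
      #(T' k) ≤ 2 * #((T' k).filter fun r => eval₂ (lv c k) r g ≠ 0) :=
    Eventually.of_forall fun k => by
      have := card_filter_add_card_filter_not (s := T' k) fun r => eval₂ (lv c k) r g = 0
      simp only [ne_eq]
      omega
  exact (Ultrafilter.eventually_or.1 h2).resolve_left fun h => hg ((v g).2 (mx g h))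

variable {Ω : Type} [Field Ω] [Algebra c.F Ω] {x : τ → Ω}

theorem RGen.nonempty (hx : RGen c T x) : ∀ᶠ k in (c.U : Filter ℕ), (T k).Nonempty := by
  by_contra hn
  have h := (hx.van 1).2 ((Ultrafilter.eventually_not.2 hn).mono
    fun k hk r hr => absurd ⟨r, hr⟩ hk)
  simp at h

theorem rat_int (k : ℕ) (r : τ → ℚ) (g : MvPolynomial τ ℤ) :
    eval₂ (lv c k) r (map (Int.castRingHom c.Bd) g) = aeval r g := by
  rw [eval₂_map, Subsingleton.elim ((lv c k).comp (Int.castRingHom c.Bd)) (algebraMap ℤ ℚ),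
    aeval_def]

theorem RGen.zero (hx : RGen c T x) (g : MvPolynomial τ ℤ) (h : ∀ k, ∀ r ∈ T k, aeval r g = 0) :
    aeval x g = 0 := by
  rw [← (c.int_u x g).1, hx.van]
  exact Eventually.of_forall fun k r hr => by rw [rat_int, h k r hr]

theorem RGen.ne_zero (hx : RGen c T x) (g : MvPolynomial τ ℤ)
    (h : ∀ k, ∀ r ∈ T k, aeval r g ≠ 0) : aeval x g ≠ 0 := by
  intro h0
  rw [← (c.int_u x g).1, hx.van] at h0
  obtain ⟨k, ⟨r, hr⟩, hk⟩ := (hx.nonempty.and h0).exists
  exact h k r hr (by rw [← rat_int (c := c) k, hk r hr])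

/-- a coordinate that is constant at each level lies in the ground field -/
theorem RGen.const (hx : RGen c T x) (hT : RBox c T) {i : τ}
    (h : ∀ k, ∀ r ∈ T k, ∀ r' ∈ T k, r i = r' i) : x i ∈ Set.range (algebraMap c.F Ω) := by
  have h1 : ∀ k, ∃ q : ℚ, (q.num.natAbs ≤ c.N k + 2 ∧ q.den ≤ c.N k + 2) ∧
      ∀ r ∈ T k, r i = q := fun k => by
    rcases (T k).eq_empty_or_nonempty with h0 | ⟨r, hr⟩
    · exact ⟨0, by simp, by simp [h0]⟩
    · have := hT k r hr i
      simp only [Hb, pow_one] at this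
      exact ⟨r i, by omega, fun r' hr' => h k r' hr' r hr⟩
  choose q hq he using h1
  let a : c.Bd := ⟨fun k => (q k).num, 1, fun k => by
    have := (hq k).1
    simp only [pow_one, Int.abs_eq_natAbs]
    omega⟩
  let b : c.Bd := ⟨fun k => (q k).den, 1, fun k => by
    have := (hq k).2
    simp only [pow_one, Nat.abs_cast]
    omega⟩
  have hb : c.pi b ≠ 0 := fun h0 => by
    obtain ⟨k, hk⟩ := (c.pi_eq_zero.1 h0).exists
    exact (q k).den_ne_zero (Nat.cast_eq_zero.1 (show ((q k).den : ℤ) = 0 from hk))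
  have h2 := (hx.van (C b * X i - C a)).2 (Eventually.of_forall fun k r hr => by
    rw [eval₂_sub, eval₂_mul, eval₂_C, eval₂_C, eval₂_X, he k r hr, sub_eq_zero]
    exact Rat.den_mul_eq_num (q k))
  rw [map_sub, map_mul, map_C, map_C, map_X, map_sub, map_mul, aeval_C, aeval_C, aeval_X,
    sub_eq_zero] at h2
  refine ⟨c.pi a / c.pi b, ?_⟩
  rw [map_div₀, ← h2, mul_div_cancel_left₀ _ ((map_ne_zero _).2 hb)]

theorem RGen.rat_eq (hx : RGen c T x) (g g' : MvPolynomial τ ℤ)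
    (h : ∀ k, ∀ r ∈ T k, aeval r g = aeval r g') : aeval x g = aeval x g' := by
  rw [← sub_eq_zero, ← map_sub]
  exact hx.zero _ fun k r hr => by rw [map_sub, h k r hr, sub_self]

theorem RGen.lev (hx : RGen c T x) (f : Fin 7 → τ) (h : ∀ k, ∀ r ∈ T k, Lev fun i => r (f i)) :
    Lev fun i => x (f i) := by
  have h1 := hx.rat_eq (X (f 6) ^ 2) (X (f 1) * X (f 5) ^ 4 + X (f 0) * X (f 5) ^ 2 + X (f 2))
    fun k r hr => by simpa only [map_mul, map_add, map_pow, aeval_X] using (h k r hr).1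
  have h2 := hx.rat_eq (X (f 4) ^ 2) (X (f 1) * X (f 3) ^ 4 + X (f 0) * X (f 3) ^ 2 + X (f 2))
    fun k r hr => by simpa only [map_mul, map_add, map_pow, aeval_X] using (h k r hr).2.1
  have h3 := hx.ne_zero
    (X (f 1) * X (f 2) * (X (f 0) ^ 2 - 4 * X (f 1) * X (f 2)) * X (f 3) * X (f 4) * X (f 5)
      * (X (f 5) ^ 2 - X (f 3) ^ 2)) fun k r hr => by
    simpa only [map_mul, map_sub, map_pow, aeval_X, map_ofNat] using (h k r hr).2.2
  simp only [map_mul, map_sub, map_add, map_pow, aeval_X, map_ofNat] at h1 h2 h3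
  exact ⟨h1, h2, h3⟩

theorem RGen.lnk (hx : RGen c T x) (f g : Fin 7 → τ)
    (h : ∀ k, ∀ r ∈ T k, Lnk (fun i => r (f i)) fun i => r (g i)) :
    Lnk (fun i => x (f i)) fun i => x (g i) := by
  have h1 := hx.rat_eq (X (g 0)) (-2 * X (f 0))
    fun k r hr => by simpa only [map_mul, map_neg, aeval_X, map_ofNat] using (h k r hr).1
  have h2 := hx.rat_eq (X (g 1) * X (g 2)) (X (f 0) ^ 2 - 4 * X (f 1) * X (f 2)) fun k r hr => by
    simpa only [map_mul, map_sub, map_pow, aeval_X, map_ofNat] using (h k r hr).2.1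
  have h3 := hx.rat_eq (X (g 1) * X (g 5) ^ 2 * (X (f 5) - X (f 3)) ^ 2) (nG fun i => X (f i))
    fun k r hr => by
      simpa only [nG, map_mul, map_sub, map_add, map_pow, aeval_X, map_ofNat] using
        (h k r hr).2.2.1
  have h4 := hx.rat_eq (X (g 6) * (X (f 5) ^ 2 - X (f 3) ^ 2))
    (2 * (X (f 6) * X (f 3) + X (f 4) * X (f 5)) * X (g 5)) fun k r hr => by
      simpa only [map_mul, map_sub, map_add, map_pow, aeval_X, map_ofNat] using (h k r hr).2.2.2
  simp only [nG, map_mul, map_sub, map_add, map_neg, map_pow, aeval_X, map_ofNat] at h1 h2 h3 h4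
  exact ⟨h1, h2, h3, h4⟩

end Pool.Agent.Lib.MP_e5111b_co.Ke
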