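import Pool.Agent.Lib.MP_e5111b_co.Ke.Ht
import Pool.Agent.Lib.MP_e5111b_co.Ke.Rat
import Pool.Agent.Lib.MP_e5111b_co.Pc.DetB
import Pool.Agent.Lib.MP_e5111b_co.Pc.Rank

set_option autoImplicit false

namespace Pool.Agent.Lib.MP_e5111b_co.Ke

open Filter MvPolynomial Finset Pc

theorem dr_bound (c : Ctx) {σ : Type} (g : MvPolynomial σ c.Bd) (a : ℕ) : ∃ C : ℕ, ∀ k,
    ∀ P : σ → ℤ, (∀ i, |P i| ≤ ((c.N k : ℤ) + 2) ^ a) →
      |eval P (map (c.ev k) g)| ≤ ((c.N k : ℤ) + 2) ^ C := by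
  induction g using MvPolynomial.induction_on with
  | C a =>
    obtain ⟨D, hD⟩ := a.2
    refine ⟨D, fun k P _ => ?_⟩
    rw [map_C, eval_C]
    exact hD k
  | add p q hp hq =>
    obtain ⟨A, hA⟩ := hp
    obtain ⟨B, hB⟩ := hq
    refine ⟨A + B + 1, fun k P hP => ?_⟩
    have h1 : (1 : ℤ) ≤ (c.N k : ℤ) + 2 := by omega
    have h2 := pow_le_pow_right₀ h1 (Nat.le_add_right A B)
    have h3 := pow_le_pow_right₀ h1 (Nat.le_add_left B A)
    have h4 : (0 : ℤ) ≤ ((c.N k : ℤ) + 2) ^ (A + B) := by positivity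
    have h5 : (0 : ℤ) ≤ c.N k := by positivity
    have := abs_add_le (eval P (map (c.ev k) p)) (eval P (map (c.ev k) q))
    rw [map_add, map_add, pow_succ]
    nlinarith [hA k P hP, hB k P hP]
  | mul_X p i hp =>
    obtain ⟨A, hA⟩ := hp
    refine ⟨A + a, fun k P hP => ?_⟩
    rw [map_mul, map_mul, map_X, eval_X, abs_mul, pow_add]
    exact mul_le_mul (hA k P hP) (hP i) (abs_nonneg _) (by positivity)

theorem dr_cast (c : Ctx) (k : ℕ) {σ : Type} (P : σ → ℤ) (g : MvPolynomial σ c.Bd) :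
    eval₂ (lv c k) (fun i => (P i : ℚ)) g = ((eval P (map (c.ev k) g) : ℤ) : ℚ) := by
  rw [eval_map]
  exact (eval₂_comp_left (Int.castRingHom ℚ) (c.ev k) P g).symm

theorem dr_ax (c : Ctx) {Ω τ : Type} [Field Ω] [Algebra c.F Ω] (v : τ → Ω)
    (h : MvPolynomial τ c.Bd) :
    aeval v (map c.pi h) = eval₂ ((algebraMap c.F Ω).comp c.pi) v h := by
  rw [aeval_def, eval₂_map]

variable {c : Ctx} {τ : Type} {T : ℕ → Finset (τ → ℚ)} {Ω : Type} [Field Ω] [Algebra c.F Ω]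
  {x : τ → Ω}

/-- a polynomial in the parameters that clears the denominator -/
theorem dr_lead (hx : RGen c T x) {κ : Type} (t : κ → τ) (s : τ)
    (ht : ∀ k, ∀ r ∈ T k, ∀ i, (((r (t i)).num : ℤ) : ℚ) = r (t i))
    (hs : IsAlgebraic (Algebra.adjoin c.F (Set.range fun i => x (t i))) (x s)) :
    ∃ g : MvPolynomial κ c.Bd, aeval (fun i => x (t i)) (map c.pi g) ≠ 0 ∧
      ∀ᶠ k in (c.U : Filter ℕ), ∀ r ∈ T k, ∃ z : ℤ,
        (z : ℚ) = eval₂ (lv c k) (fun i => r (t i)) g * r s := by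
  obtain ⟨q, hq0, hq⟩ := hs
  obtain ⟨Q, hQ⟩ := rk_lift (F := c.F) _ q
  obtain ⟨b, g, hb, hg⟩ := c.clear fun m : Fin (q.natDegree + 1) => Q.coeff m
  have e : ∀ m : Fin (q.natDegree + 1), aeval (fun i => x (t i)) (map c.pi (g m)) =
      algebraMap c.F Ω (c.pi b) * (q.coeff m : Ω) := fun m => by
    have := congrArg (Polynomial.coeff · m) hQ
    simp only [Polynomial.coeff_map] at this
    rw [(hg m).1, map_mul, aeval_C]
    exact congrArg _ this
  refine ⟨g (Fin.last _), ?_, ?_⟩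
  · rw [e]
    refine mul_ne_zero ((map_ne_zero _).2 hb) fun h => hq0 ?_
    exact Polynomial.leadingCoeff_eq_zero.1 (Subtype.ext h)
  · have h1 := (hx.van (∑ m : Fin (q.natDegree + 1), rename t (g m) * X s ^ (m : ℕ))).1 (by
      simp only [map_sum, map_mul, map_pow, map_X, aeval_X, map_rename, aeval_rename]
      rw [Polynomial.aeval_eq_sum_range, Finset.sum_range] at hq
      refine Eq.trans ?_ ((congrArg (algebraMap c.F Ω (c.pi b) * ·) hq).trans (mul_zero _))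
      rw [mul_sum]
      refine sum_congr rfl fun m _ => ?_
      rw [Algebra.smul_def, ← mul_assoc]
      exact congrArg (· * _) (e m))
    filter_upwards [h1] with k h r hr
    have h2 := h r hr
    have h3 : (fun i => r (t i)) = fun i => (((r (t i)).num : ℤ) : ℚ) :=
      funext fun i => (ht k r hr i).symm
    rw [← coe_eval₂Hom] at h2
    simp only [map_sum, map_mul, map_pow, coe_eval₂Hom, eval₂_X, eval₂_rename] at h2
    have h4 : r ∘ t = fun i => (((r (t i)).num : ℤ) : ℚ) := h3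
    rw [h4] at h2
    simp only [dr_cast] at h2
    rw [h3, dr_cast]
    exact int_lead _ _ h2

theorem dr_size {κ ω L : Type} [Fintype κ] [Fintype ω] [Fintype L] (μ : L → ω → ℕ) (a : ℕ) :
    ∃ δ : ℕ, 1 ≤ δ ∧ ∀ (M : ℕ) (t : κ → ℤ) (y : ω → ℤ), (∀ i, |t i| ≤ M) →
      (∀ j, |y j| ≤ ((M : ℤ) + 2) ^ a) → ∀ z : (κ → Fin δ) × L,
      |(∏ i, t i ^ (z.1 i : ℕ)) * ∏ j, y j ^ μ z.2 j| ≤
        ((1 * (M + 2)) ^ ((Fintype.card κ + 1) * δ) : ℕ) := by
  refine ⟨1 + ∑ l, ∑ j, a * μ l j, by omega, fun M t y ht hy z => ?_⟩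
  have h3 : ∑ j, a * μ z.2 j ≤ 1 + ∑ l, ∑ j, a * μ l j := by
    have := single_le_sum (f := fun l => ∑ j, a * μ l j) (fun _ _ => Nat.zero_le _) (mem_univ z.2)
    omega
  revert z
  generalize 1 + ∑ l, ∑ j, a * μ l j = δ
  intro z h3
  have M1 : (1 : ℤ) ≤ M + 2 := by omega
  push_cast
  rw [abs_mul, abs_prod, abs_prod, add_mul, one_mul, one_mul, pow_add]
  refine mul_le_mul ((prod_le_prod (g := fun _ => ((M : ℤ) + 2) ^ δ)
    (fun _ _ => abs_nonneg _) fun i _ => ?_).trans ?_) ((prod_le_prod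
      (g := fun j => ((M : ℤ) + 2) ^ (a * μ z.2 j))
      (fun _ _ => abs_nonneg _) fun j _ => ?_).trans ?_) (by positivity) (by positivity)
  · rw [abs_pow]
    exact (pow_le_pow_left₀ (abs_nonneg _) ((ht i).trans (by omega)) _).trans
      (pow_le_pow_right₀ M1 (z.1 i).2.le)
  · rw [prod_const, card_univ, ← pow_mul, mul_comm δ]
  · rw [abs_pow, pow_mul]
    exact pow_le_pow_left₀ (abs_nonneg _) (hy j) _
  · rw [prod_pow_eq_pow_sum]
    exact pow_le_pow_right₀ M1 h3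

theorem dr_mono {F κ : Type} [Field F] [Fintype κ] [DecidableEq κ] {δ : ℕ}
    (a : (κ → Fin δ) → F) (h : (∑ α, C (a α) * ∏ i, X i ^ (α i : ℕ) : MvPolynomial κ F) = 0)
    (α : κ → Fin δ) : a α = 0 := by
  let e : (κ → Fin δ) → κ →₀ ℕ := fun β => Finsupp.equivFunOnFinite.symm fun i => (β i : ℕ)
  have he : Function.Injective e := fun β β' hb =>
    funext fun i => Fin.ext (congrFun (Finsupp.equivFunOnFinite.symm.injective hb) i)
  have h1 : ∀ β, (C (a β) * ∏ i, X i ^ (β i : ℕ) : MvPolynomial κ F) = monomial (e β) (a β) :=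
    fun β => by
      rw [monomial_eq, Finsupp.prod_fintype _ _ fun _ => pow_zero _]
      rfl
  have h2 := congrArg (coeff (e α)) h
  simp only [h1, coeff_sum, coeff_monomial, he.eq_iff, coeff_zero] at h2
  simpa using h2

/-- substitution of the integral function -/
noncomputable def drS {R κ : Type} [CommRing R] (t : κ → τ) (s : τ) (q : MvPolynomial κ R)
    (g : MvPolynomial (Option κ) R) : MvPolynomial τ R :=
  bind₁ (fun o : Option κ => o.elim (rename t q * X s) fun i => X (t i)) g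

theorem drS_ev {R A κ : Type} [CommRing R] [CommRing A] (φ : R →+* A) (v : τ → A) (t : κ → τ)
    (s : τ) (q : MvPolynomial κ R) (g : MvPolynomial (Option κ) R) :
    eval₂ φ v (drS t s q g) =
      eval₂ φ (fun o => o.elim (eval₂ φ (fun i => v (t i)) q * v s) fun i => v (t i)) g := by
  rw [← coe_eval₂Hom, drS, eval₂Hom_bind₁, coe_eval₂Hom]
  refine congrArg (eval₂ φ · g) (funext fun o => ?_)
  cases o
  · simp only [Option.elim, map_mul, coe_eval₂Hom, eval₂_X, eval₂_rename]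
    rfl
  · simp

/-- the determinant method with integral parameters `t` of size `M` and rational functions `s`
of polynomial height -/
theorem det_rat (c : Ctx) {τ : Type} {T : ℕ → Finset (τ → ℚ)} (hT : RBox c T)
    {Ω : Type} [Field Ω] [Algebra c.F Ω] {x : τ → Ω} (hx : RGen c T x)
    {κ ω L : Type} [Fintype κ] [Fintype ω] [Fintype L] (t : κ → τ) (s : ω → τ)
    (M : ℕ → ℕ) (hM : Tendsto M c.U atTop) (hN : ∀ k, M k ≤ c.N k) {A : ℕ}
    (hA : ∀ k, c.N k + 2 ≤ (M k + 2) ^ A)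
    (ht : ∀ k, ∀ r ∈ T k, ∀ i, ∃ z : ℤ, r (t i) = z ∧ |z| ≤ M k)
    (hs : ∀ j, IsAlgebraic (Algebra.adjoin c.F (Set.range fun i => x (t i))) (x (s j)))
    (μ : L → ω → ℕ) {γ : ℕ} (hγ : 1 ≤ γ) (hL : 2 * γ ^ Fintype.card κ ≤ Fintype.card L) :
    ∃ (T' : ℕ → Finset (τ → ℚ)) (g : L → MvPolynomial κ c.Bd), (∀ k, T' k ⊆ T k) ∧
      (∃ l, map c.pi (g l) ≠ 0) ∧
      (∀ᶠ k in (c.U : Filter ℕ), ∀ r ∈ T' k,
        eval₂ (lv c k) r (∑ l, rename t (g l) * ∏ j, X (s j) ^ μ l j) = 0) ∧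
      ∀ᶠ k in (c.U : Filter ℕ),
        (#(T k) : ℝ) ≤ (M k : ℝ) ^ (4 * ((Fintype.card κ : ℝ) + 1) ^ 2 / γ) * #(T' k) := by
  classical
  have t1 : ∀ k, ∀ r ∈ T k, ∀ i, (((r (t i)).num : ℤ) : ℚ) = r (t i) := fun k r hr i => by
    obtain ⟨z, e, -⟩ := ht k r hr i
    rw [e, Rat.num_intCast]
  have t2 : ∀ k, ∀ r ∈ T k, ∀ i, |(r (t i)).num| ≤ M k := fun k r hr i => by
    obtain ⟨z, e, h⟩ := ht k r hr i
    rwa [e, Rat.num_intCast]
  choose q q0 q1 using fun j => dr_lead hx t (s j) t1 (hs j)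
  choose G hG hG' using fun j => sep_rel (F := c.F) (fun i => x (t i))
    (y := aeval (fun i => x (t i)) (map c.pi (q j)) * x (s j))
    ((rk_mem (by rw [Algebra.adjoin_range_eq_range_aeval]; exact ⟨_, rfl⟩)).mul (hs j))
  obtain ⟨b, g, hb, hg⟩ := c.clear G
  let y : ℕ → (τ → ℚ) → ω → ℤ := fun k r j =>
    (eval₂ (lv c k) (fun i => r (t i)) (q j) * r (s j)).num
  have y1 : ∀ᶠ k in (c.U : Filter ℕ), ∀ r ∈ T k, ∀ j,
      (y k r j : ℚ) = eval₂ (lv c k) (fun i => r (t i)) (q j) * r (s j) := by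
    filter_upwards [eventually_all.2 q1] with k h r hr j
    obtain ⟨z, hz⟩ := h j r hr
    simp only [y, ← hz, Rat.num_intCast]
  have ek : ∀ k r, r ∈ T k → (∀ j,
      (y k r j : ℚ) = eval₂ (lv c k) (fun i => r (t i)) (q j) * r (s j)) → ∀ j h,
      eval₂ (lv c k) r (drS t (s j) (q j) h) = ((eval (fun o : Option κ =>
        o.elim (y k r j) fun i => (r (t i)).num) (map (c.ev k) h) : ℤ) : ℚ) :=
    fun k r hr hy j h => by
      rw [drS_ev, ← dr_cast]
      refine congrArg (eval₂ _ · h) (funext fun o => ?_)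
      cases o
      · exact (hy j).symm
      · exact (t1 k r hr _).symm
  have h1 : ∀ᶠ k in (c.U : Filter ℕ), ∀ j, ∀ r ∈ T k,
      eval₂ (lv c k) r (drS t (s j) (q j) (g j)) = 0 := eventually_all.2 fun j =>
    (hx.van _).1 (by rw [dr_ax, drS_ev, ← dr_ax, ← dr_ax, (hg j).1, map_mul, hG, mul_zero])
  have h2 := hx.half (∏ j, drS t (s j) (q j) (pderiv none (g j))) (by
    rw [map_prod, map_prod]
    refine prod_ne_zero_iff.2 fun j _ => ?_
    rw [dr_ax, drS_ev, ← dr_ax, ← dr_ax, ← pderiv_map, (hg j).1, pderiv_C_mul, map_mul, aeval_C]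
    exact mul_ne_zero ((map_ne_zero _).2 hb) (hG' j))
  choose C₀ hC₀ using fun j => dr_bound c (q j) 1
  have n1 : ∀ k, (1 : ℤ) ≤ (c.N k : ℤ) + 2 := fun k => by omega
  have t3 : ∀ k, ∀ r ∈ T k, ∀ i, |(r (t i)).num| ≤ ((c.N k : ℤ) + 2) ^ 1 := fun k r hr i => by
    have := t2 k r hr i
    have := hN k
    rw [pow_one]
    omega
  have y2 : ∀ k r, r ∈ T k → (∀ j,
      (y k r j : ℚ) = eval₂ (lv c k) (fun i => r (t i)) (q j) * r (s j)) → ∀ j,
      |y k r j| ≤ ((c.N k : ℤ) + 2) ^ (∑ j, C₀ j + 1) := fun k r hr hy j => by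
    have e : (fun i => r (t i)) = fun i => (((r (t i)).num : ℤ) : ℚ) :=
      funext fun i => (t1 k r hr i).symm
    have a1 := (hC₀ j k _ (t3 k r hr)).trans (pow_le_pow_right₀ (n1 k)
      (single_le_sum (f := C₀) (fun _ _ => Nat.zero_le _) (mem_univ j)))
    have a2 := (hT k r hr (s j)).abs_le
    have a3 : |(y k r j : ℚ)| ≤ ((c.N k : ℚ) + 2) ^ (∑ j, C₀ j + 1) := by
      rw [hy j, e, dr_cast, abs_mul, pow_succ]
      exact mul_le_mul (by exact_mod_cast a1) (a2.trans (by simp)) (abs_nonneg _) (by positivity)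
    exact_mod_cast a3
  choose C₁ hC₁ using fun j => dr_bound c (pderiv none (g j)) (∑ j, C₀ j + 1)
  have nA : ∀ k a, ((c.N k : ℤ) + 2) ^ a ≤ ((M k : ℤ) + 2) ^ (A * a) := fun k a => by
    rw [pow_mul]
    exact pow_le_pow_left₀ (by positivity) (by exact_mod_cast hA k) a
  obtain ⟨δ, δ1, hδ⟩ := dr_size (κ := κ) μ (A * (∑ j, C₀ j + 1))
  let D := ∑ j, (g j).degreeOf none
  let B : ℕ → ℕ := fun k => (1 * (M k + 2)) ^ ((Fintype.card κ + 1) * δ)
  let E := Fintype.card ((κ → Fin δ) × L)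
  let C₂ := A * ∑ j, C₁ j
  have h3 := hM.eventually (detB_num (Fintype.card κ) E 1
    (2 * (γ * C₂ + 1) * (2 ^ (γ * C₂ + 1)) ^ Fintype.card κ * D ^ Fintype.card ω) C₂ hγ δ1)
  have key : ∀ᶠ k in (c.U : Filter ℕ), ∃ u : Finset (τ → ℚ) × ((κ → Fin δ) × L → ℤ),
      u.1 ⊆ T k ∧ (∀ z, |u.2 z| ≤ (E * B k : ℕ) ^ E) ∧ (∀ r ∈ u.1, ∑ z : (κ → Fin δ) × L,
        ((∏ i, (r (t i)).num ^ (z.1 i : ℕ)) * ∏ j, y k r j ^ μ z.2 j) * u.2 z = 0) ∧
      u.2 ≠ 0 ∧ (#(T k) : ℝ) ≤ (M k : ℝ) ^ (4 * ((Fintype.card κ : ℝ) + 1) ^ 2 / γ) * #u.1 := by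
    filter_upwards [h1, h2, h3, y1] with k k1 k2 ⟨X, X1, x1, x2, x3⟩ k4
    obtain ⟨S, s1, s2, a, a0, a1, a2⟩ := det_level (D := D) (B := B k)
      ((T k).filter fun r => eval₂ (lv c k) r (∏ j, drS t (s j) (q j) (pderiv none (g j))) ≠ 0)
      (fun r i => (r (t i)).num) (y k) (fun j => map (c.ev k) (g j)) μ hγ δ1
      (Nat.one_le_pow _ _ (by positivity)) X1 (Nat.le_add_left 1 (γ * C₂)) hL
      (fun j => le_trans (degreeOf_le_iff.2 fun m hm =>
        monomial_le_degreeOf none (support_map_subset _ _ hm))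
        (single_le_sum (f := fun j => (g j).degreeOf none) (fun _ _ => Nat.zero_le _) (mem_univ j)))
      (fun r hr j => by
        have h := (mem_filter.1 hr).1
        have := k1 j r h
        rw [ek k r h (k4 r h)] at this
        exact_mod_cast this)
      (fun r hr => by
        obtain ⟨h, h'⟩ := mem_filter.1 hr
        simp only [pderiv_map]
        refine ⟨fun e => h' ?_, ?_⟩
        · rw [eval₂_prod]
          simp only [ek k r h (k4 r h)]
          exact_mod_cast e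
        · rw [abs_prod]
          refine (prod_le_prod (g := fun j => ((c.N k : ℤ) + 2) ^ C₁ j) (fun _ _ => abs_nonneg _)
            fun j _ => hC₁ j k _ fun o => ?_).trans ?_
          · cases o
            · exact y2 k r h (k4 r h) j
            · exact (t3 k r h _).trans (pow_le_pow_right₀ (n1 k) (by omega))
          · rw [prod_pow_eq_pow_sum]
            exact (nA k _).trans (by exact_mod_cast x1))
      (fun z r hr => hδ _ _ _ (t2 k r (mem_filter.1 hr).1) (fun j =>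
        (y2 k r (mem_filter.1 hr).1 (k4 r (mem_filter.1 hr).1) j).trans (nA k _)) z) x2
    refine ⟨(S, a), s1.trans (filter_subset _ _), a1, a2, a0, le_trans ?_
      (mul_le_mul_of_nonneg_right x3 (Nat.cast_nonneg _))⟩
    have := k2.trans (Nat.mul_le_mul_left 2 s2)
    rw [mul_pow] at this
    exact_mod_cast this.trans_eq (by ring)
  obtain ⟨u, hu⟩ := key.choice
  let w : ℕ → Finset (τ → ℚ) × ((κ → Fin δ) × L → ℤ) := fun k =>
    if (u k).1 ⊆ T k ∧ ∀ z, |(u k).2 z| ≤ (E * B k : ℕ) ^ E then u k else (∅, 0)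
  have w1 : ∀ k, (w k).1 ⊆ T k ∧ ∀ z, |(w k).2 z| ≤ (E * B k : ℕ) ^ E := fun k => by
    simp only [w]
    split_ifs with h
    · exact h
    · exact ⟨empty_subset _, fun z => by simp only [Pi.zero_apply, abs_zero]; positivity⟩
  have w2 : ∀ᶠ k in (c.U : Filter ℕ), w k = u k := hu.mono fun k h => if_pos ⟨h.1, h.2.1⟩
  let n : c.Bd := ⟨fun k => c.N k + 2, 1, fun k => by rw [pow_one, abs_of_nonneg (by positivity)]⟩
  let a : (κ → Fin δ) × L → c.Bd := fun z => ⟨fun k => (w k).2 z, by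
    obtain ⟨C', hC'⟩ := ((E * n ^ ((Fintype.card κ + 1) * δ)) ^ E : c.Bd).2
    refine ⟨C', fun k => ((w1 k).2 z).trans (le_trans ?_ ((le_abs_self _).trans (hC' k)))⟩
    have : (M k : ℤ) + 2 ≤ c.N k + 2 := by have := hN k; omega
    change _ ≤ ((E : ℤ) * ((c.N k : ℤ) + 2) ^ ((Fintype.card κ + 1) * δ)) ^ E
    simp only [B]
    push_cast
    rw [one_mul]
    gcongr⟩
  refine ⟨fun k => (w k).1, fun l => (∑ α : κ → Fin δ, C (a (α, l)) * ∏ i, X i ^ (α i : ℕ)) *
    ∏ j, q j ^ μ l j, fun k => (w1 k).1, ?_, ?_, ?_⟩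
  · by_contra hn
    simp only [not_exists, not_not] at hn
    have h4 : ∀ z, c.pi (a z) = 0 := fun z => by
      have := hn z.2
      rw [map_mul, mul_eq_zero] at this
      refine dr_mono (fun α => c.pi (a (α, z.2))) ?_ z.1
      rcases this with h | h
      · simpa only [map_sum, map_mul, map_prod, map_pow, map_C, map_X] using h
      · rw [map_prod] at h
        obtain ⟨j, -, hj⟩ := prod_eq_zero_iff.1 h
        rw [map_pow] at hj
        exact absurd (by rw [pow_eq_zero_iff'.1 hj |>.1, map_zero]) (q0 j)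
    obtain ⟨k, k1, k2, k3⟩ :=
      ((eventually_all.2 fun z => c.pi_eq_zero.1 (h4 z)).and (w2.and hu)).exists
    exact k3.2.2.2.1 (k2 ▸ funext k1)
  · filter_upwards [w2, hu, y1] with k k2 k3 k4 r hr
    rw [← k2] at k3
    have h := (w1 k).1 hr
    have h5 := congrArg (Int.cast : ℤ → ℚ) (k3.2.2.1 r hr)
    rw [Fintype.sum_prod_type_right] at h5
    push_cast at h5
    rw [← h5, ← coe_eval₂Hom]
    simp only [map_sum, map_mul, map_prod, map_pow, rename_C, rename_X, eval₂Hom_C, eval₂Hom_X',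
      t1 k r h, k4 r h, coe_eval₂Hom, eval₂_rename]
    refine sum_congr rfl fun l _ => ?_
    rw [sum_mul, sum_mul]
    refine sum_congr rfl fun α _ => ?_
    simp only [mul_pow, prod_mul_distrib]
    have e1 : lv c k (a (α, l)) = ((w k).2 (α, l) : ℚ) := rfl
    have e2 : r ∘ t = fun i => r (t i) := rfl
    rw [e1, e2]
    ring
  · filter_upwards [w2, hu] with k k2 k3
    rw [k2]
    exact k3.2.2.2.2

end Pool.Agent.Lib.MP_e5111b_co.Ke
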