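import Pool.Agent.Lib.MP_e5111b_co.Ke.Step

set_option autoImplicit false

namespace Pool.Agent.Lib.MP_e5111b_co.Ke

open Filter MvPolynomial Finset Pc

theorem tow_big {M : ℕ} (hM : 2 ≤ M) : (5 : ℤ) * (M : ℤ) ^ 2 ≤ ((M ^ 400 : ℕ) : ℤ) := by
  have h1 : 2 ^ 3 ≤ M ^ 3 := Nat.pow_le_pow_left hM 3
  have h2 : M ^ 5 ≤ M ^ 400 := Nat.pow_le_pow_right (by omega) (by norm_num)
  have h3 : 5 * M ^ 2 ≤ M ^ 400 := by
    calc 5 * M ^ 2 ≤ M ^ 3 * M ^ 2 := Nat.mul_le_mul_right _ (by omega)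
      _ = M ^ 5 := by ring
      _ ≤ M ^ 400 := h2
  exact_mod_cast h3

theorem tow_a {M : ℕ} (hM : 2 ≤ M) {a : ℤ} (ha : |a| ≤ M) :
    |(-2) * a| ≤ ((M ^ 400 : ℕ) : ℤ) := by
  have h := tow_big hM
  have h2 : (2 : ℤ) ≤ M := by exact_mod_cast hM
  have h3 : |(-2) * a| = 2 * |a| := by rw [abs_mul]; norm_num
  rw [h3]
  nlinarith

theorem tow_b {M : ℕ} (hM : 2 ≤ M) {a b : ℤ} (ha : |a| ≤ M) (hb : |b| ≤ M) :
    |a ^ 2 - 4 * b| ≤ ((M ^ 400 : ℕ) : ℤ) := by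
  have h := tow_big hM
  have h2 : (2 : ℤ) ≤ M := by exact_mod_cast hM
  have h3 : a ^ 2 ≤ (M : ℤ) ^ 2 := by
    rw [← sq_abs a]
    exact pow_le_pow_left₀ (abs_nonneg a) ha 2
  have h4 := abs_le.1 hb
  have h5 : (M : ℤ) ≤ (M : ℤ) ^ 2 := by nlinarith
  have h6 := sq_nonneg a
  rw [abs_le]
  constructor <;> linarith [h4.1, h4.2]

theorem tow_num {t t1 t2 m d x C D : ℝ} (hx : 1 ≤ x) (hC : 1 ≤ C) (hD : 1 ≤ D) (hm : 0 ≤ m)
    (h2 : 0 ≤ t2) (h1 : 0 ≤ t1) (hd : d ≤ D * x) (ht : t ≤ 3 * m + 2 * d * (t1 + m))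
    (ht1 : t1 ≤ C * x * (t2 + 4 * m)) :
    t ≤ (3 + 2 * D * (4 * C + 1)) * (x * x) * (t2 + m) := by
  have hs : 0 ≤ t2 + m := by linarith
  have hx0 : 0 ≤ x := by linarith
  have hxx : 1 ≤ x * x := by nlinarith
  have e1 : t1 + m ≤ (4 * C + 1) * x * (t2 + m) := by
    have a1 : C * x * (t2 + 4 * m) ≤ C * x * (4 * (t2 + m)) :=
      mul_le_mul_of_nonneg_left (by linarith) (by positivity)
    have a2 : m ≤ x * (t2 + m) := by nlinarith
    nlinarith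
  have e2 : d * (t1 + m) ≤ D * x * ((4 * C + 1) * x * (t2 + m)) :=
    mul_le_mul hd e1 (by linarith) (by positivity)
  have e3 : m ≤ x * x * (t2 + m) := by nlinarith
  nlinarith

/-- the tower of isogenies -/
theorem tower (j : ℕ) : ∀ η : ℝ, 0 < η → ∃ (A : ℕ) (C : ℝ), 1 ≤ A ∧ 1 ≤ C ∧
    ∀ (W : Type) (M m : ℕ) (a b : ℤ) (T : Finset W) (X Y : W → ℚ), 2 ≤ M → |a| ≤ M → |b| ≤ M →
      b * (a ^ 2 - 4 * b) ≠ 0 →
      (∀ P ∈ T, Y P ^ 2 = X P * (X P ^ 2 + a * X P + b) ∧ Hb M 1 (X P)) →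
      (∀ z, #(T.filter fun P => X P = z) ≤ m) →
      ∃ T' ⊆ T, ∃ u : W → ℕ → Fin 7 → ℚ, (#T : ℝ) ≤ C * (M : ℝ) ^ η * (#T' + m) ∧
        ∀ P ∈ T', (0 < j → Bas (a : ℚ) b (X P) (Y P) (u P 0)) ∧
          (∀ i, i + 1 < j → Lnk (u P i) (u P (i + 1))) ∧
          ∀ i < j, Lev (u P i) ∧ (∀ r, Hb M A (u P i r)) ∧
            ∀ P' ∈ T', ∀ r : Fin 7, (r : ℕ) < 5 → u P i r = u P' i r := by
  induction j with
  | zero =>
    intro η hη
    refine ⟨1, 1, le_rfl, le_rfl, fun W M m a b T X Y hM _ _ _ _ _ => ⟨T, Subset.refl _,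
      fun _ _ _ => 0, ?_, fun P _ => ⟨fun h => absurd h (lt_irrefl _),
        fun i h => absurd h (by omega), fun i h => absurd h (by omega)⟩⟩⟩
    have h1 : (1 : ℝ) ≤ (M : ℝ) := by exact_mod_cast (by omega : 1 ≤ M)
    have h2 : (1 : ℝ) ≤ (M : ℝ) ^ η := Real.one_le_rpow h1 hη.le
    have h3 : (0 : ℝ) ≤ #T := by positivity
    have h4 : (0 : ℝ) ≤ m := by positivity
    nlinarith
  | succ j ih =>
    intro η hη
    obtain ⟨A, C, hA, hC, IH⟩ := ih (η / 800) (by positivity)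
    obtain ⟨D, hD, hdiv⟩ := SW.divisor_bound (show 0 < η / 2 by positivity)
    refine ⟨400 * A + 20, 3 + 2 * D * (4 * C + 1), by omega, by nlinarith, ?_⟩
    intro W M m a b T X Y hM ha hb h0 hT hm
    obtain ⟨T1, hT1, u1, hc1, hu1, hf1⟩ := step hM ha hb h0 T X Y hT hm
    have hM' : 2 ≤ M ^ 400 := le_trans hM (Nat.le_self_pow (by norm_num) M)
    have h0' : (a ^ 2 - 4 * b) * (((-2) * a) ^ 2 - 4 * (a ^ 2 - 4 * b)) ≠ 0 := by
      have : (a ^ 2 - 4 * b) * (((-2) * a) ^ 2 - 4 * (a ^ 2 - 4 * b))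
          = 16 * (b * (a ^ 2 - 4 * b)) := by ring
      rw [this]
      exact mul_ne_zero (by norm_num) h0
    have ea : ∀ P ∈ T1, (((-2) * a : ℤ) : ℚ) = -2 * u1 P 0 := by
      intro P hP
      rw [(hu1 P hP).2.1.1]
      push_cast
      ring
    have eb : ∀ P ∈ T1, ((a ^ 2 - 4 * b : ℤ) : ℚ) = u1 P 0 ^ 2 - 4 * u1 P 1 * u1 P 2 := by
      intro P hP
      rw [(hu1 P hP).2.1.1, mul_assoc, (hu1 P hP).2.1.2.1]
      push_cast
      ring
    obtain ⟨T2, hT2, u2, hc2, hu2⟩ := IH W (M ^ 400) (4 * m) ((-2) * a) (a ^ 2 - 4 * b) T1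
      (fun P => nX (u1 P)) (fun P => nY (u1 P)) hM' (tow_a hM ha) (tow_b hM ha hb) h0'
      (fun P hP => ⟨by rw [ea P hP, eb P hP]; exact (hu1 P hP).1.next,
        (hu1 P hP).2.2.2.1.base (by rw [pow_one])⟩) hf1
    refine ⟨T2, hT2.trans hT1, fun P i => Nat.casesOn i (u1 P) (fun i => u2 P i), ?_, ?_⟩
    · have h1 : (1 : ℝ) ≤ (M : ℝ) := by exact_mod_cast (by omega : 1 ≤ M)
      have hp : (0 : ℝ) < M := by linarith
      have hx : (1 : ℝ) ≤ (M : ℝ) ^ (η / 2) := Real.one_le_rpow h1 (by positivity)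
      have e1 : (M : ℝ) ^ η = (M : ℝ) ^ (η / 2) * (M : ℝ) ^ (η / 2) := by
        rw [← Real.rpow_add hp]
        congr 1
        ring
      have e2 : ((M ^ 400 : ℕ) : ℝ) ^ (η / 800) = (M : ℝ) ^ (η / 2) := by
        rw [Nat.cast_pow, ← Real.rpow_natCast, ← Real.rpow_mul hp.le]
        congr 1
        push_cast
        ring
      have e3 : (b.natAbs : ℝ) ≤ M := by
        have : (b.natAbs : ℤ) ≤ M := by rw [Int.natCast_natAbs]; exact hb
        exact_mod_cast this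
      have e4 : (#b.natAbs.divisors : ℝ) ≤ D * (M : ℝ) ^ (η / 2) :=
        (hdiv _).trans (mul_le_mul_of_nonneg_left
          (Real.rpow_le_rpow (by positivity) e3 (by positivity)) (by linarith))
      have e5 : (#T : ℝ) ≤ 3 * m + 2 * (#b.natAbs.divisors : ℝ) * (#T1 + m) := by
        exact_mod_cast hc1
      rw [e2] at hc2
      have e6 : (#T1 : ℝ) ≤ C * (M : ℝ) ^ (η / 2) * (#T2 + 4 * (m : ℝ)) := by
        have : ((4 * m : ℕ) : ℝ) = 4 * (m : ℝ) := by push_cast; ring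
        rw [← this]
        exact hc2
      rw [e1]
      exact tow_num hx hC hD (by positivity) (by positivity) (by positivity) e4 e5 e6
    · intro P hP
      have hP1 := hT2 hP
      obtain ⟨k1, k2, k3⟩ := hu2 P hP
      refine ⟨fun _ => (hu1 P hP1).2.1, ?_, ?_⟩
      · intro i hi
        cases i with
        | zero =>
          have hj : 0 < j := by omega
          have hb2 := k1 hj
          rw [ea P hP1, eb P hP1] at hb2
          exact (hu1 P hP1).1.lnk (k3 0 hj).1 hb2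
        | succ i => exact k2 i (by omega)
      · intro i hi
        cases i with
        | zero =>
          exact ⟨(hu1 P hP1).1, fun r => ((hu1 P hP1).2.2.1 r).mono hM (by omega),
            fun P' hP' r hr => (hu1 P hP1).2.2.2.2 P' (hT2 hP') r hr⟩
        | succ i =>
          obtain ⟨l1, l2, l3⟩ := k3 i (by omega)
          exact ⟨l1, fun r => (l2 r).pow_base.mono hM (by omega), l3⟩

end Pool.Agent.Lib.MP_e5111b_co.Ke
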