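import Pool.Agent.Lib.MP_e5111b_co.Ke.EllA
import Pool.Agent.Lib.MP_e5111b_co.Ke.Tow

set_option autoImplicit false

namespace Pool.Agent.Lib.MP_e5111b_co.Ke

open Filter MvPolynomial Finset Pc

theorem ell_ray {P P' : ℚ} {l l' : ℕ} (hl : 1 ≤ l) (hl' : 1 ≤ l')
    (h0 : (l : ℚ) * P.num = l' * P'.num) (h1 : (l : ℚ) * P.den = l' * P'.den) :
    P = P' ∧ l = l' := by
  have a1 : (l : ℚ) ≠ 0 := by positivity
  have a2 : (l' : ℚ) ≠ 0 := by positivity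
  have e : P = P' := by
    rw [← Rat.num_div_den P, ← Rat.num_div_den P', ← mul_div_mul_left _ _ a1, h0, h1,
      mul_div_mul_left _ _ a2]
  subst e
  have a3 : (P.den : ℚ) ≠ 0 := by positivity
  exact ⟨rfl, by exact_mod_cast mul_right_cancel₀ a3 h1⟩

/-- the point of the cone -/
def ellPt {j : ℕ} (u : ℚ → ℕ → Fin 7 → ℚ) (p : ℚ × ℕ) : Fin 2 ⊕ Fin j × Fin 7 → ℚ :=
  Sum.elim ![(p.2 : ℚ) * p.1.num, (p.2 : ℚ) * p.1.den] fun q => u p.1 q.1 q.2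

theorem ell_big {δ : ℝ} (hδ : 0 < δ) (U : Ultrafilter ℕ) (M : ℕ → ℕ) (hM : Tendsto M U atTop)
    (K : ℝ) : ∀ᶠ k in (U : Filter ℕ), K ≤ (M k : ℝ) ^ δ :=
  ((tendsto_rpow_atTop hδ).comp (tendsto_natCast_atTop_atTop.comp hM)).eventually_ge_atTop K

theorem ell_arith {C K D x M t t' s : ℝ} (hC : 1 ≤ C) (hK : 0 ≤ K) (hD : 0 ≤ D) (hx : 1 ≤ x)
    (hM : x ^ 4 ≤ M) (hb : C * (2 * K * D + 1) ≤ x ^ 2) (ht' : 0 ≤ t')
    (h1 : t ≤ C * x * (t' + 1)) (h2 : t' * M ≤ K * x * s) (h3 : s ≤ D * t' + D * M) :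
    t ≤ x ^ 4 := by
  have hKD : 0 ≤ K * D := mul_nonneg hK hD
  have hx0 : 0 < x := by linarith
  have hM0 : 0 < M := lt_of_lt_of_le (by positivity) hM
  have a1 : 2 * (K * D) ≤ x ^ 2 := by nlinarith
  have a2 : x ^ 3 ≤ x ^ 4 := pow_le_pow_right₀ hx (by norm_num)
  have a3 : 2 * (K * D * x) ≤ M := by nlinarith
  have a4 : t' * M ≤ K * D * x * t' + K * D * x * M := by
    have := mul_le_mul_of_nonneg_left h3 (mul_nonneg hK hx0.le)
    nlinarith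
  have a5 : t' * M ≤ 2 * (K * D * x) * M := by nlinarith
  have a6 : t' ≤ 2 * (K * D * x) := le_of_mul_le_mul_right a5 hM0
  have a7 : t' + 1 ≤ (2 * K * D + 1) * x := by nlinarith
  have a8 : C * x * (t' + 1) ≤ C * x * ((2 * K * D + 1) * x) :=
    mul_le_mul_of_nonneg_left a7 (by positivity)
  have a9 : C * (2 * K * D + 1) * x ^ 2 ≤ x ^ 2 * x ^ 2 :=
    mul_le_mul_of_nonneg_right hb (by positivity)
  nlinarith

theorem ell_lim1 {η : ℝ} (hη : 0 < η) (hη1 : η ≤ 1) (U : Ultrafilter ℕ) (M : ℕ → ℕ)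
    (hM : Tendsto M U atTop) (h2 : ∀ k, 2 ≤ M k) (a b : ℕ → ℤ) (T : ℕ → Finset ℚ)
    (h : ∀ k, |a k| ≤ M k ∧ |b k| ≤ M k ∧ b k * (a k ^ 2 - 4 * b k) ≠ 0 ∧
      ∀ X ∈ T k, Hb (M k) 1 X ∧ IsSquare (X * (X ^ 2 + a k * X + b k))) :
    ∀ᶠ k in (U : Filter ℕ), (#(T k) : ℝ) ≤ (M k : ℝ) ^ η := by
  classical
  obtain ⟨γ, hγ⟩ := exists_nat_ge (288 / η)
  have hγ0 : (0 : ℝ) < γ := lt_of_lt_of_le (by positivity) hγ
  have hγ1 : 1 ≤ γ := by exact_mod_cast hγ0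
  have hγ2 : (72 : ℝ) / γ ≤ η / 4 := by
    rw [div_le_iff₀ hη] at hγ
    rw [div_le_div_iff₀ hγ0 (by norm_num)]
    linarith
  obtain ⟨j, hj, hj0⟩ : ∃ j : ℕ, 2 * γ ^ 2 ≤ 2 ^ j ∧ 0 < j :=
    ⟨2 * γ ^ 2, Nat.lt_two_pow_self.le, by positivity⟩
  obtain ⟨A, C, hA, hC, tw⟩ := tower j (η / 4) (by positivity)
  have hY : ∀ k (X : ℚ), ∃ y : ℚ, X ∈ T k → y ^ 2 = X * (X ^ 2 + a k * X + b k) := by
    intro k X
    by_cases hX : X ∈ T k
    · obtain ⟨y, hy⟩ := ((h k).2.2.2 X hX).2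
      exact ⟨y, fun _ => by rw [hy, sq]⟩
    · exact ⟨0, fun h' => absurd h' hX⟩
  choose Y hY using hY
  have tk := fun k => tw ℚ (M k) 1 (a k) (b k) (T k) id (Y k) (h2 k) (h k).1 (h k).2.1
    (h k).2.2.1 (fun P hP => ⟨hY k P hP, ((h k).2.2.2 P hP).1⟩)
    (fun z => card_le_one.2 fun x hx y hy =>
      ((mem_filter.1 hx).2).trans ((mem_filter.1 hy).2).symm)
  choose T' hT' u hc hu using tk
  have hM1 : ∀ k, (1 : ℝ) ≤ M k := fun k => by exact_mod_cast (h2 k).trans' (by norm_num)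
  have hx : ∀ k, (1 : ℝ) ≤ (M k : ℝ) ^ (η / 4) := fun k =>
    Real.one_le_rpow (hM1 k) (by positivity)
  have hx4 : ∀ k, ((M k : ℝ) ^ (η / 4)) ^ 4 = (M k : ℝ) ^ η := fun k => by
    rw [← Real.rpow_natCast, ← Real.rpow_mul (by positivity)]
    congr 1
    push_cast
    ring
  have hx2 : ∀ k, ((M k : ℝ) ^ (η / 4)) ^ 2 = (M k : ℝ) ^ (η / 2) := fun k => by
    rw [← Real.rpow_natCast, ← Real.rpow_mul (by positivity)]
    congr 1
    push_cast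
    ring
  have hxM : ∀ k, ((M k : ℝ) ^ (η / 4)) ^ 4 ≤ M k := fun k => by
    rw [hx4]
    simpa using Real.rpow_le_rpow_of_exponent_le (hM1 k) hη1
  rcases U.em (fun k => (T' k).Nonempty) with hne | hne
  swap
  · filter_upwards [hne, ell_big (half_pos hη) U M hM C] with k hk hb
    rw [not_nonempty_iff_eq_empty] at hk
    rw [← hx4]
    refine ell_arith (K := 0) (D := 0) (t' := 0) (s := 0) hC le_rfl le_rfl (hx k) (hxM k)
      (by rw [hx2]; simpa using hb) le_rfl ?_ (by simp) (by simp)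
    simpa [hk] using hc k
  have hle : ∀ k, M k ≤ M k ^ 2 := fun k => Nat.le_self_pow (by norm_num) _
  have hN : ∀ k, M k ^ 2 ≤ M k ^ (A + 2) := fun k =>
    Nat.pow_le_pow_right ((h2 k).trans' (by norm_num)) (by omega)
  let c : Ctx := ⟨U, fun k => M k ^ (A + 2), tendsto_atTop_mono (fun k => (hle k).trans (hN k)) hM⟩
  let Z : ℕ → Finset (Fin 2 ⊕ Fin j × Fin 7 → ℚ) := fun k =>
    (T' k ×ˢ Icc 1 (M k)).image (ellPt (u k))
  have hZ : ∀ k, ∀ r ∈ Z k, ∃ P ∈ T' k, ∃ l, 1 ≤ l ∧ l ≤ M k ∧ r = ellPt (u k) (P, l) := by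
    intro k r hr
    obtain ⟨⟨P, l⟩, hp, rfl⟩ := mem_image.1 hr
    obtain ⟨h1, h3⟩ := mem_product.1 hp
    exact ⟨P, h1, l, (mem_Icc.1 h3).1, (mem_Icc.1 h3).2, rfl⟩
  have ht : ∀ k, ∀ r ∈ Z k, ∀ i, ∃ z : ℤ, r (Sum.inl i) = z ∧ |z| ≤ (M k ^ 2 : ℕ) := by
    intro k r hr i
    obtain ⟨P, hP, l, -, hl, rfl⟩ := hZ k r hr
    obtain ⟨b1, b2⟩ := ((h k).2.2.2 P (hT' k hP)).1
    rw [pow_one] at b1 b2
    fin_cases i
    · refine ⟨l * P.num, by simp [ellPt], ?_⟩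
      rw [← Int.natCast_natAbs, Int.natAbs_mul, Int.natAbs_natCast, sq]
      exact_mod_cast Nat.mul_le_mul hl b1
    · refine ⟨l * P.den, by simp [ellPt], ?_⟩
      rw [← Int.natCast_natAbs, Int.natAbs_mul, Int.natAbs_natCast, Int.natAbs_natCast, sq]
      exact_mod_cast Nat.mul_le_mul hl b2
  have hbox : RBox c Z := by
    intro k r hr i
    rcases i with i | ⟨i, e⟩
    · obtain ⟨z, hz, hb⟩ := ht k r hr i
      rw [hz]
      refine Hb.int (((h2 k).trans (hle k)).trans (hN k)) ?_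
      rw [pow_one]
      exact hb.trans (by exact_mod_cast hN k)
    · obtain ⟨P, hP, l, -, -, rfl⟩ := hZ k r hr
      refine (((hu k P hP).2.2 i i.2).2.1 e).base ?_
      rw [pow_one]
      exact Nat.pow_le_pow_right ((h2 k).trans' (by norm_num)) (by omega)
  obtain ⟨K, D, hev⟩ := cone_step c hbox
    (hne.mono fun k hk => (hk.product ⟨1, mem_Icc.2 ⟨le_rfl, (h2 k).trans' (by norm_num)⟩⟩).image _)
    hγ1 hj Sum.inl (fun i e => Sum.inr (i, e)) ⟨0, hj0⟩ rfl (fun k => M k ^ 2)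
    (tendsto_atTop_mono hle hM) hN (A := A + 2)
    (fun k => by
      have e1 : M k ^ (A + 2) ≤ (M k ^ 2) ^ (A + 2) := Nat.pow_le_pow_left (hle k) _
      have e2 : 2 ≤ 2 ^ (A + 2) := Nat.le_self_pow (by omega) _
      have e3 := pow_add_pow_le (Nat.zero_le (M k ^ 2)) (Nat.zero_le 2) (n := A + 2) (by omega)
      change M k ^ (A + 2) + 2 ≤ _
      omega)
    ht
    (fun k r hr => by
      obtain ⟨P, hP, l, hl, -, rfl⟩ := hZ k r hr
      have e := ((hu k P hP).1 hj0).2.2.1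
      have a1 : (l : ℚ) ≠ 0 := by positivity
      refine ⟨?_, by simp [ellPt, a1]⟩
      change (l : ℚ) * P.num = u k P 0 1 * u k P 0 5 ^ 2 * ((l : ℚ) * P.den)
      rw [← e, ← Rat.mul_den_eq_num P, id]
      ring)
    (fun k r hr i => by
      obtain ⟨P, hP, l, -, -, rfl⟩ := hZ k r hr
      exact ((hu k P hP).2.2 i i.2).1)
    (fun k r hr i i' hi => by
      obtain ⟨P, hP, l, -, -, rfl⟩ := hZ k r hr
      have e := (hu k P hP).2.1 i (hi ▸ i'.2)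
      rw [← hi] at e
      exact e)
    (fun k r hr r' hr' i e he => by
      obtain ⟨P, hP, l, -, -, rfl⟩ := hZ k r hr
      obtain ⟨P', hP', l', -, -, rfl⟩ := hZ k r' hr'
      exact ((hu k P hP).2.2 i i.2).2.2 P' hP' e he)
  filter_upwards [hev, ell_big (half_pos hη) U M hM (C * (2 * K * D + 1))] with k hk hb
  obtain ⟨S, hS, g, hg, hD, hv, hcard⟩ := hk
  have hinj : ∀ P P' : ℚ, ∀ l l' : ℕ, 1 ≤ l → 1 ≤ l' →
      (∀ i, (ellPt (u k) (P, l) : Fin 2 ⊕ Fin j × Fin 7 → ℚ) (Sum.inl i) =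
        (ellPt (u k) (P', l') : Fin 2 ⊕ Fin j × Fin 7 → ℚ) (Sum.inl i)) → P = P' ∧ l = l' :=
    fun P P' l l' hl hl' e => ell_ray hl hl' (e 0) (e 1)
  have hZc : #(Z k) = #(T' k) * M k := by
    rw [card_image_of_injOn, card_product, Nat.card_Icc, Nat.add_sub_cancel]
    rintro ⟨P, l⟩ hp ⟨P', l'⟩ hp' e
    obtain ⟨rfl, rfl⟩ := hinj P P' l l' (mem_Icc.1 (mem_product.1 hp).2).1
      (mem_Icc.1 (mem_product.1 hp').2).1 fun i => congrFun e _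
    rfl
  have hS2 := cone_count hg hD (T' k) (M k) S (fun r i => r (Sum.inl i))
    (fun r hr r' hr' e => by
      obtain ⟨P, -, l, hl, -, rfl⟩ := hZ k r (hS hr)
      obtain ⟨P', -, l', hl', -, rfl⟩ := hZ k r' (hS hr')
      obtain ⟨rfl, rfl⟩ := hinj P P' l l' hl hl' fun i => congrFun e i
      rfl)
    (fun r hr => ⟨hv r hr, by
      obtain ⟨P, hP, l, hl, hl', rfl⟩ := hZ k r (hS hr)
      exact ⟨P, hP, l, hl, hl', rfl, rfl⟩⟩)
  rw [← hx4]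
  refine ell_arith (K := K) (D := D) (t' := #(T' k)) (s := #S) hC (by positivity) (by positivity)
    (hx k) (hxM k) (by rw [hx2]; exact hb) (by positivity) (by simpa using hc k) ?_
    (by exact_mod_cast hS2)
  rw [hZc] at hcard
  push_cast at hcard
  refine hcard.trans (mul_le_mul_of_nonneg_right
    (mul_le_mul_of_nonneg_left ?_ (by positivity)) (by positivity))
  rw [← Real.rpow_natCast, ← Real.rpow_mul (by positivity)]
  refine Real.rpow_le_rpow_of_exponent_le (hM1 k) (le_trans (le_of_eq ?_) hγ2)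
  push_cast
  ring

theorem ell_lim {η : ℝ} (hη : 0 < η) (U : Ultrafilter ℕ) (M : ℕ → ℕ) (hM : Tendsto M U atTop)
    (h2 : ∀ k, 2 ≤ M k) (a b : ℕ → ℤ) (T : ℕ → Finset ℚ)
    (h : ∀ k, |a k| ≤ M k ∧ |b k| ≤ M k ∧ b k * (a k ^ 2 - 4 * b k) ≠ 0 ∧
      ∀ X ∈ T k, Hb (M k) 1 X ∧ IsSquare (X * (X ^ 2 + a k * X + b k))) :
    ∀ᶠ k in (U : Filter ℕ), (#(T k) : ℝ) ≤ (M k : ℝ) ^ η :=
  (ell_lim1 (lt_min hη one_pos) (min_le_right _ _) U M hM h2 a b T h).mono fun k hk =>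
    hk.trans (Real.rpow_le_rpow_of_exponent_le
      (by exact_mod_cast (h2 k).trans' (by norm_num)) (min_le_left _ _))

end Pool.Agent.Lib.MP_e5111b_co.Ke
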