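import Pool.Agent.Lib.MP_e5111b_co.Ke.IndA
import Pool.Agent.Lib.MP_e5111b_co.Ke.Cone

set_option autoImplicit false

namespace Pool.Agent.Lib.MP_e5111b_co.Ke

open Filter MvPolynomial Finset Pc

variable {F Ω : Type} [Field F] [CharZero F] [Field Ω] [Algebra F Ω] {j : ℕ}
  {u : ℕ → Fin 7 → Ω} {t : Fin 2 → Ω}

theorem chain_alg (hL : ∀ i < j, Lev (u i)) (hK : ∀ i, i + 1 < j → Lnk (u i) (u (i + 1)))
    (hp : ∀ i < j, ∀ r : Fin 7, (r : ℕ) < 5 → u i r ∈ Set.range (algebraMap F Ω))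
    (h0 : t 0 = u 0 1 * u 0 5 ^ 2 * t 1) (h1 : t 1 ≠ 0) :
    ∀ i < j, IsAlgebraic (Algebra.adjoin F (Set.range t)) (u i 5) := by
  have c : ∀ i < j, ∀ r : Fin 7, (r : ℕ) < 5 →
      u i r ∈ Subalgebra.algebraicClosure (Algebra.adjoin F (Set.range t)) Ω := fun i hi r hr => by
    obtain ⟨x, hx⟩ := hp i hi r hr
    rw [← hx]
    exact isAlgebraic_algebraMap (A := Ω) (algebraMap F (Algebra.adjoin F (Set.range t)) x)
  have ct : ∀ r, t r ∈ Subalgebra.algebraicClosure (Algebra.adjoin F (Set.range t)) Ω := fun r =>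
    isAlgebraic_algebraMap (⟨t r, Algebra.subset_adjoin ⟨r, rfl⟩⟩ : Algebra.adjoin F (Set.range t))
  have sq : ∀ x y : Ω, y ≠ 0 → y ∈ Subalgebra.algebraicClosure (Algebra.adjoin F (Set.range t)) Ω →
      y * x ^ 2 ∈ Subalgebra.algebraicClosure (Algebra.adjoin F (Set.range t)) Ω →
      x ∈ Subalgebra.algebraicClosure (Algebra.adjoin F (Set.range t)) Ω := fun x y h a b =>
    IsAlgebraic.of_pow two_pos (IsAlgebraic.of_mul (mem_nonZeroDivisors_of_ne_zero h) a b)
  have n1 : ∀ i < j, u i 1 ≠ 0 := fun i hi e => (hL i hi).2.2 (by rw [e]; ring)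
  intro i
  induction i with
  | zero =>
    intro hi
    refine sq _ (u 0 1 * t 1) (mul_ne_zero (n1 0 hi) h1) (mul_mem (c 0 hi 1 (by simp)) (ct 1)) ?_
    rw [mul_right_comm, ← h0]
    exact ct 0
  | succ i ih =>
    intro hi
    have hi' : i < j := by omega
    have a5 : u i 5 ∈ Subalgebra.algebraicClosure (Algebra.adjoin F (Set.range t)) Ω := ih hi'
    have a0 := c i hi' 0 (by simp)
    have a1 := c i hi' 1 (by simp)
    have a2 := c i hi' 2 (by simp)
    have a3 := c i hi' 3 (by simp)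
    have a4 := c i hi' 4 (by simp)
    have a6 := sq (u i 6) 1 one_ne_zero (one_mem _) (by
      rw [one_mul, (hL i hi').1]
      exact add_mem (add_mem (mul_mem a1 (pow_mem a5 _)) (mul_mem a0 (pow_mem a5 _))) a2)
    have two : (2 : Ω) ∈ Subalgebra.algebraicClosure (Algebra.adjoin F (Set.range t)) Ω :=
      ofNat_mem _ 2
    have n2 : u i 5 - u i 3 ≠ 0 := fun e => (hL i hi').2.2 (by rw [sub_eq_zero.1 e]; ring)
    refine sq _ (u (i + 1) 1 * (u i 5 - u i 3) ^ 2) (mul_ne_zero (n1 _ hi) (pow_ne_zero _ n2))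
      (mul_mem (c _ hi 1 (by simp)) (pow_mem (sub_mem a5 a3) _)) ?_
    rw [mul_right_comm, (hK i hi).2.2.1, nG]
    exact add_mem (add_mem (add_mem (mul_mem (mul_mem two a6) a4)
      (mul_mem (mul_mem (mul_mem two a1) (pow_mem a5 _)) (pow_mem a3 _)))
      (mul_mem a0 (add_mem (pow_mem a5 _) (pow_mem a3 _)))) (mul_mem two a2)

theorem chain_free (hj : 0 < j) (hL : ∀ i < j, Lev (u i))
    (hK : ∀ i, i + 1 < j → Lnk (u i) (u (i + 1)))
    (hp : ∀ i < j, ∀ r : Fin 7, (r : ℕ) < 5 → u i r ∈ Set.range (algebraMap F Ω))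
    (h0 : t 0 = u 0 1 * u 0 5 ^ 2 * t 1) (ht : AlgebraicIndependent F t)
    (g : (Fin j → Fin 2) → MvPolynomial (Fin 2) F)
    (h : ∑ l, aeval t (g l) * ∏ i : Fin j, u i 5 ^ (l i : ℕ) = 0) : ∀ l, g l = 0 := by
  let K := IntermediateField.adjoin F (t '' {1})
  have : CharZero K := algebraRat.charZero K
  have t1 : t 1 ∈ K := IntermediateField.subset_adjoin _ _ ⟨1, rfl, rfl⟩
  have hq : ∀ i < j, ∀ r : Fin 7, (r : ℕ) < 5 → u i r ∈ Set.range (algebraMap K Ω) :=
    fun i hi r hr => by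
      obtain ⟨x, hx⟩ := hp i hi r hr
      exact ⟨algebraMap F K x, hx⟩
  have tr : ∀ i < j, Transcendental K (u i 5) := fun i => by
    induction i with
    | zero =>
      intro hi a
      refine ht.transcendental_adjoin (s := {1}) (i := 0) (by simp)
        (IntermediateField.isAlgebraic_adjoin_iff.1 ?_)
      obtain ⟨x, hx⟩ := hq 0 hi 1 (by simp)
      rw [h0, ← hx]
      exact ((isAlgebraic_algebraMap x).mul (a.pow 2)).mul (isAlgebraic_algebraMap (⟨_, t1⟩ : K))
    | succ i ih =>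
      intro hi
      have hi' : i < j := by omega
      exact ((hL i hi').up (hL _ hi) (hK i hi) (hq i hi') (hq _ hi 1 (by simp)) (ih hi')).1
  let E : ℕ → IntermediateField K Ω := fun i =>
    IntermediateField.adjoin K {u i 1 * u i 5 ^ 2, u i 6 / u i 5}
  have z := chain_indep j (fun i => (E i).toSubfield) (fun i => u i 5) (fun i hi => by
    have hi' : i < j := by omega
    obtain ⟨-, a5, a6⟩ :=
      (hL i hi').up (hL _ hi) (hK i hi) (hq i hi') (hq _ hi 1 (by simp)) (tr i hi')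
    refine ⟨show E i ≤ E (i + 1) from IntermediateField.adjoin_le_iff.2 ?_, a5⟩
    obtain ⟨x, hx⟩ := hq i hi' 1 (by simp)
    rintro _ (rfl | rfl)
    · exact mul_mem (hx ▸ (E (i + 1)).algebraMap_mem x) (pow_mem a5 _)
    · exact div_mem a6 a5) (fun i hi => (hL i hi).notMem (hq i hi) (tr i hi))
    (fun l => aeval t (g l)) (fun l => by
      have b1 : t 1 ∈ E 0 := (E 0).algebraMap_mem ⟨_, t1⟩
      have : Algebra.adjoin F (Set.range t) ≤ ((E 0).restrictScalars F).toSubalgebra := by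
        refine Algebra.adjoin_le ?_
        rintro _ ⟨r, rfl⟩
        fin_cases r
        · change t 0 ∈ E 0
          rw [h0]
          exact mul_mem (IntermediateField.subset_adjoin _ _ (Or.inl rfl)) b1
        · exact b1
      exact this (Algebra.adjoin_range_eq_range_aeval F t ▸ ⟨g l, rfl⟩)) h
  exact fun l => ht (by rw [map_zero]; exact z l)

end Pool.Agent.Lib.MP_e5111b_co.Ke
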