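import Pool.Agent.Lib.MP_e5111b_co.Ke.DetR
import Pool.Agent.Lib.MP_e5111b_co.Ke.Ind

set_option autoImplicit false

namespace Pool.Agent.Lib.MP_e5111b_co.Ke

open Filter MvPolynomial Finset Pc

/-- the levels of the tower at a point -/
def ellaU {τ Ω : Type} [Zero Ω] {j : ℕ} (f : Fin j → Fin 7 → τ) (x : τ → Ω) (i : ℕ) (e : Fin 7) :
    Ω := if h : i < j then x (f ⟨i, h⟩ e) else 0

theorem ellaU_fin {τ Ω : Type} [Zero Ω] {j : ℕ} (f : Fin j → Fin 7 → τ) (x : τ → Ω) (i : Fin j) :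
    ellaU f x i = fun e => x (f i e) := funext fun _ => dif_pos i.2

theorem ella_chain (c : Ctx) {τ : Type} {T : ℕ → Finset (τ → ℚ)} (hT : RBox c T)
    {Ω : Type} [Field Ω] [Algebra c.F Ω] {x : τ → Ω} (hx : RGen c T x) {j : ℕ}
    (t : Fin 2 → τ) (f : Fin j → Fin 7 → τ) (i₀ : Fin j) (hi₀ : (i₀ : ℕ) = 0)
    (h0 : ∀ k, ∀ r ∈ T k, r (t 0) = r (f i₀ 1) * r (f i₀ 5) ^ 2 * r (t 1) ∧ r (t 1) ≠ 0)
    (hL : ∀ k, ∀ r ∈ T k, ∀ i, Lev fun e => r (f i e))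
    (hK : ∀ k, ∀ r ∈ T k, ∀ i i' : Fin j, (i' : ℕ) = i + 1 →
      Lnk (fun e => r (f i e)) fun e => r (f i' e))
    (hp : ∀ k, ∀ r ∈ T k, ∀ r' ∈ T k, ∀ i, ∀ e : Fin 7, (e : ℕ) < 5 → r (f i e) = r' (f i e)) :
    (∀ i < j, Lev (ellaU f x i)) ∧ (∀ i, i + 1 < j → Lnk (ellaU f x i) (ellaU f x (i + 1))) ∧
      (∀ i < j, ∀ r : Fin 7, (r : ℕ) < 5 → ellaU f x i r ∈ Set.range (algebraMap c.F Ω)) ∧
      x (t 0) = ellaU f x 0 1 * ellaU f x 0 5 ^ 2 * x (t 1) ∧ x (t 1) ≠ 0 := by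
  refine ⟨fun i hi => ?_, fun i hi => ?_, fun i hi e he => ?_, ?_, ?_⟩
  · rw [ellaU_fin f x ⟨i, hi⟩]
    exact hx.lev _ fun k r hr => hL k r hr _
  · rw [ellaU_fin f x ⟨i, by omega⟩, ellaU_fin f x ⟨i + 1, hi⟩]
    exact hx.lnk _ _ fun k r hr => hK k r hr _ _ rfl
  · rw [ellaU_fin f x ⟨i, hi⟩]
    exact hx.const hT fun k r hr r' hr' => hp k r hr r' hr' _ e he
  · rw [← hi₀, ellaU_fin f x i₀]
    have := hx.zero (X (t 0) - X (f i₀ 1) * X (f i₀ 5) ^ 2 * X (t 1)) fun k r hr => by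
      simp only [map_sub, map_mul, map_pow, aeval_X]
      exact sub_eq_zero.2 (h0 k r hr).1
    simp only [map_sub, map_mul, map_pow, aeval_X] at this
    exact sub_eq_zero.1 this
  · have := hx.ne_zero (X (t 1)) fun k r hr => by
      rw [aeval_X]
      exact (h0 k r hr).2
    rwa [aeval_X] at this

/-- a family of points of the cone over the top of the tower -/
theorem cone_step (c : Ctx) {τ : Type} [Finite τ] {T : ℕ → Finset (τ → ℚ)} (hT : RBox c T)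
    (hne : ∀ᶠ k in (c.U : Filter ℕ), (T k).Nonempty) {j γ : ℕ} (hγ : 1 ≤ γ)
    (hj : 2 * γ ^ 2 ≤ 2 ^ j) (t : Fin 2 → τ) (f : Fin j → Fin 7 → τ) (i₀ : Fin j)
    (hi₀ : (i₀ : ℕ) = 0) (M : ℕ → ℕ) (hM : Tendsto M c.U atTop) (hN : ∀ k, M k ≤ c.N k) {A : ℕ}
    (hA : ∀ k, c.N k + 2 ≤ (M k + 2) ^ A)
    (ht : ∀ k, ∀ r ∈ T k, ∀ i, ∃ z : ℤ, r (t i) = z ∧ |z| ≤ M k)
    (h0 : ∀ k, ∀ r ∈ T k, r (t 0) = r (f i₀ 1) * r (f i₀ 5) ^ 2 * r (t 1) ∧ r (t 1) ≠ 0)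
    (hL : ∀ k, ∀ r ∈ T k, ∀ i, Lev fun e => r (f i e))
    (hK : ∀ k, ∀ r ∈ T k, ∀ i i' : Fin j, (i' : ℕ) = i + 1 →
      Lnk (fun e => r (f i e)) fun e => r (f i' e))
    (hp : ∀ k, ∀ r ∈ T k, ∀ r' ∈ T k, ∀ i, ∀ e : Fin 7, (e : ℕ) < 5 → r (f i e) = r' (f i e)) :
    ∃ K D : ℕ, ∀ᶠ k in (c.U : Filter ℕ), ∃ S ⊆ T k, ∃ g : MvPolynomial (Fin 2) ℚ, g ≠ 0 ∧
      g.totalDegree ≤ D ∧ (∀ r ∈ S, eval (fun i => r (t i)) g = 0) ∧
      (#(T k) : ℝ) ≤ K * (M k : ℝ) ^ ((36 : ℝ) / γ) * #S := by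
  obtain ⟨T1, K1, Ω1, _, _, x1, s1, g1, c1⟩ := rrefine hT hne
  have b1 : RBox c T1 := fun k r hr => hT k r (s1 k hr)
  obtain ⟨a1, a2, a3, a4, a5⟩ := ella_chain c b1 g1 t f i₀ hi₀ (fun k r hr => h0 k r (s1 k hr))
    (fun k r hr => hL k r (s1 k hr)) (fun k r hr => hK k r (s1 k hr))
    fun k r hr r' hr' => hp k r (s1 k hr) r' (s1 k hr')
  have alg := chain_alg (F := c.F) (t := fun i => x1 (t i)) a1 a2 a3 a4 a5
  obtain ⟨T2, g, s2, ⟨l₀, hl₀⟩, v2, c2⟩ := det_rat c b1 g1 (L := Fin j → Fin 2) t (fun i => f i 5)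
    M hM hN hA (fun k r hr => ht k r (s1 k hr))
    (fun i => by
      have := alg i i.2
      rwa [ellaU_fin] at this)
    (fun l i => (l i : ℕ)) hγ (by simpa using hj)
  have e36 : (4 * ((Fintype.card (Fin 2) : ℝ) + 1) ^ 2 / γ) = (36 : ℝ) / γ := by
    rw [Fintype.card_fin]
    norm_num
  rw [e36] at c2
  have b2 : RBox c T2 := fun k r hr => b1 k r (s2 k hr)
  have n2 : ∀ᶠ k in (c.U : Filter ℕ), (T2 k).Nonempty := by
    filter_upwards [g1.nonempty, c2] with k k1 k2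
    rw [← card_pos] at k1 ⊢
    refine Nat.pos_of_ne_zero fun h => ?_
    rw [h, Nat.cast_zero, mul_zero] at k2
    exact absurd k2 (not_le.2 (by exact_mod_cast k1))
  obtain ⟨T3, K3, Ω3, _, _, x3, s3, g3, c3⟩ := rrefine b2 n2
  have s : ∀ k, T3 k ⊆ T k := fun k => (s3 k).trans ((s2 k).trans (s1 k))
  have b3 : RBox c T3 := fun k r hr => hT k r (s k hr)
  obtain ⟨d1, d2, d3, d4, -⟩ := ella_chain c b3 g3 t f i₀ hi₀ (fun k r hr => h0 k r (s k hr))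
    (fun k r hr => hL k r (s k hr)) (fun k r hr => hK k r (s k hr))
    fun k r hr r' hr' => hp k r (s k hr) r' (s k hr')
  have dep : ¬ AlgebraicIndependent c.F fun i => x3 (t i) := fun hi => by
    refine hl₀ (chain_free (F := c.F) (t := fun i => x3 (t i)) i₀.pos d1 d2 d3 d4 hi
      (fun l => map c.pi (g l)) ?_ l₀)
    have := (g3.van _).2 (v2.mono fun k hk r hr => hk r (s3 k hr))
    simp only [map_sum, map_mul, map_prod, map_pow, map_X, aeval_X, map_rename,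
      aeval_rename] at this
    simp only [ellaU_fin]
    exact this
  rw [algebraicIndependent_iff] at dep
  push Not at dep
  obtain ⟨G, hG, G0⟩ := dep
  obtain ⟨b, g', hb, hg'⟩ := c.clear fun _ : Unit => G
  have z1 : aeval x3 (map c.pi (rename t (g' ()))) = 0 := by
    rw [map_rename, aeval_rename, (hg' ()).1, map_mul]
    exact mul_eq_zero_of_right _ hG
  have z2 : map c.pi (g' ()) ≠ 0 := by
    rw [(hg' ()).1]
    exact mul_ne_zero (by rwa [Ne, C_eq_zero]) G0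
  refine ⟨K1 * K3, (g' ()).totalDegree, ?_⟩
  filter_upwards [(g3.van _).1 z1, Ultrafilter.eventually_not.2 (mt c.map_pi_eq_zero.2 z2), c1, c2,
    c3] with k k1 k2 k3 k4 k5
  refine ⟨T3 k, s k, map (lv c k) (g' ()), fun h => k2 ?_, ?_, fun r hr => ?_, ?_⟩
  · rw [lv, ← MvPolynomial.map_map] at h
    exact map_injective (Int.castRingHom ℚ) Int.cast_injective (h.trans (map_zero _).symm)
  · exact Finset.sup_mono (support_map_subset _ _)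
  · have := k1 r hr
    rw [eval₂_rename] at this
    rw [eval_map]
    exact this
  · have p : (0 : ℝ) ≤ (M k : ℝ) ^ ((36 : ℝ) / γ) := by positivity
    have k3' : (#(T k) : ℝ) ≤ K1 * #(T1 k) := by exact_mod_cast k3
    have k5' : (#(T2 k) : ℝ) ≤ K3 * #(T3 k) := by exact_mod_cast k5
    calc (#(T k) : ℝ) ≤ K1 * #(T1 k) := k3'
      _ ≤ K1 * ((M k : ℝ) ^ ((36 : ℝ) / γ) * (K3 * #(T3 k))) :=
        mul_le_mul_of_nonneg_left (k4.trans (mul_le_mul_of_nonneg_left k5' p)) (Nat.cast_nonneg _)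
      _ = _ := by
        push_cast
        ring

end Pool.Agent.Lib.MP_e5111b_co.Ke
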