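import Pool.Agent.Lib.MP_e5111b_co.Ke.Ell

set_option autoImplicit false

namespace Pool.Agent.Lib.MP_e5111b_co.Ke

open Filter MvPolynomial Finset Pc

/-- rational points of bounded height on elliptic curves with a point of order two -/
theorem ell {η : ℝ} (hη : 0 < η) : ∃ C : ℝ, ∀ (M : ℕ) (a b : ℤ) (T : Finset ℚ), 2 ≤ M →
    |a| ≤ M → |b| ≤ M → b * (a ^ 2 - 4 * b) ≠ 0 →
    (∀ X ∈ T, Hb M 1 X ∧ IsSquare (X * (X ^ 2 + a * X + b))) → (#T : ℝ) ≤ C * (M : ℝ) ^ η := by
  by_contra hn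
  simp only [not_exists, not_forall, not_le] at hn
  choose M a b T h2 ha hb h0 hT hN using fun k : ℕ => hn (k + 1)
  have h1 : ∀ k, (1 : ℝ) ≤ (M k : ℝ) ^ η := fun k =>
    Real.one_le_rpow (by exact_mod_cast le_trans one_le_two (h2 k)) hη.le
  have hk : ∀ k, k < #(T k) := fun k => by
    have h3 : (0 : ℝ) ≤ k := Nat.cast_nonneg k
    have h4 : (k : ℝ) < #(T k) := by nlinarith [hN k, h1 k]
    exact_mod_cast h4
  have ht : Tendsto M atTop atTop := tendsto_atTop.2 fun B => by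
    filter_upwards [eventually_ge_atTop #(hb_finite B 1).toFinset] with k h3
    by_contra h4
    have h5 : T k ⊆ (hb_finite B 1).toFinset := fun X hX => (hb_finite B 1).mem_toFinset.2
      ((hT k X hX).1.base (by simpa using (not_le.1 h4).le))
    have := card_le_card h5
    have := hk k
    omega
  have hU : (hyperfilter ℕ : Filter ℕ) ≤ atTop := Nat.hyperfilter_le_atTop
  obtain ⟨k, h3⟩ := (ell_lim hη (hyperfilter ℕ) M (ht.mono_left hU) h2 a b T
    fun k => ⟨ha k, hb k, h0 k, hT k⟩).exists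
  have h4 : (0 : ℝ) ≤ k := Nat.cast_nonneg k
  nlinarith [hN k, h1 k]

end Pool.Agent.Lib.MP_e5111b_co.Ke
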