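import Pool.Agent.Lib.MP_e5111b_co.Ke.Defs
import Pool.Agent.Lib.MP_e5111b_co.Gp.GeoA

set_option autoImplicit false

namespace Pool.Agent.Lib.MP_e5111b_co.Ke

open Filter MvPolynomial Finset Pc

variable {ι : Type} {P : ι × ι → ℤ} {X : ι → ℂ}

/-- two lines or circles with three common points hold the same points -/
theorem onc_iff (hX : Function.Injective X) (hd : ∀ a b, dist (X a) (X b) = P (a, b))
    {γ γ' : Fin 4 → ℂ} (h : γ ≠ 0) (h' : γ' ≠ 0) {o : Fin 3 → ι} (ho : Function.Injective o)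
    (h1 : ∀ r, Onc γ (X (o r))) (h2 : ∀ r, Onc γ' (X (o r))) (i : ι) :
    Onc γ (X i) ↔ Onc γ' (X i) := by
  have hp : ∀ a b, a ≠ b → ((P (a, b) : ℤ) : ℂ) ≠ 0 := fun a b hab => by
    have h3 := dist_pos.2 (hX.ne hab)
    rw [hd] at h3
    exact_mod_cast h3.ne'
  let c : Gp.Cf ι ℂ := ⟨X, fun a => starRingEnd ℂ (X a), fun a b => P (a, b), Gp.ga_sq hd, hp⟩
  have a01 : o 0 ≠ o 1 := ho.ne (by decide)
  have a02 : o 0 ≠ o 2 := ho.ne (by decide)
  have a12 : o 1 ≠ o 2 := ho.ne (by decide)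
  exact (Gp.Cf.on_iff_cyc (c := c) h a01 a02 a12 (h1 0) (h1 1) (h1 2) i).trans
    (Gp.Cf.on_iff_cyc (c := c) h' a01 a02 a12 (h2 0) (h2 1) (h2 2) i).symm

theorem onc_exists (z : Fin 3 → ℂ) : ∃ γ : Fin 4 → ℂ, γ ≠ 0 ∧ ∀ r, Onc γ (z r) := by
  let f : (Fin 4 → ℂ) →ₗ[ℂ] (Fin 3 → ℂ) :=
    { toFun := fun γ r => Gp.bil γ (z r) (starRingEnd ℂ (z r))
      map_add' := fun a b => funext fun r => by
        simp only [Gp.bil, Pi.add_apply]
        ring
      map_smul' := fun a b => funext fun r => by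
        simp only [Gp.bil, Pi.smul_apply, smul_eq_mul, RingHom.id_apply]
        ring }
  have hk : LinearMap.ker f ≠ ⊥ := LinearMap.ker_ne_bot_of_finrank_lt (by simp)
  obtain ⟨γ, h1, h2⟩ := Submodule.exists_mem_ne_zero_of_ne_bot hk
  exact ⟨γ, h2, fun r => congrFun (LinearMap.mem_ker.1 h1) r⟩

end Pool.Agent.Lib.MP_e5111b_co.Ke
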