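import Pool.Agent.Lib.MP_e5111b_co.Ke.Defs

set_option autoImplicit false

namespace Pool.Agent.Lib.MP_e5111b_co.Ke

open Filter MvPolynomial Finset Pc

variable {M n m : ℕ} {x y : ℚ}

theorem ht_of {p q : ℤ} {B : ℕ} (hq : q ≠ 0) (hx : x * q = p) (h1 : p.natAbs ≤ B)
    (h2 : q.natAbs ≤ B) : x.num.natAbs ≤ B ∧ x.den ≤ B := by
  have e : x = Rat.divInt p q := by
    rw [Rat.divInt_eq_div, eq_div_iff (Int.cast_ne_zero.2 hq), hx]
  constructor
  · rcases eq_or_ne p 0 with rfl | hp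
    · simp [e]
    · exact (Nat.le_of_dvd (Int.natAbs_pos.2 hp)
        (Int.natAbs_dvd_natAbs.2 (e ▸ Rat.num_dvd p hq))).trans h1
  · exact (Nat.le_of_dvd (Int.natAbs_pos.2 hq) (Int.natCast_dvd.1 (e ▸ Rat.den_dvd p q))).trans h2

theorem Hb.mono (hM : 2 ≤ M) (h : Hb M n x) (hn : n ≤ m) : Hb M m x := 
  ⟨h.1.trans (Nat.pow_le_pow_right (by omega) hn), h.2.trans (Nat.pow_le_pow_right (by omega) hn)⟩

theorem Hb.base {M' : ℕ} (h : Hb M n x) (hM : M ^ n ≤ M' ^ m) : Hb M' m x := ⟨h.1.trans hM, h.2.trans hM⟩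

theorem Hb.pow_base {A : ℕ} (h : Hb (M ^ A) n x) : Hb M (A * n) x := by
  rw [Hb, pow_mul]
  exact h

theorem Hb.mul (h : Hb M n x) (h' : Hb M m y) : Hb M (n + m) (x * y) := by
  refine ht_of (p := x.num * y.num) (q := x.den * y.den) (by simp) ?_ ?_ ?_
  · push_cast
    rw [← Rat.mul_den_eq_num x, ← Rat.mul_den_eq_num y]
    ring
  · rw [Int.natAbs_mul, pow_add]
    exact Nat.mul_le_mul h.1 h'.1
  · rw [Int.natAbs_mul, pow_add]
    exact Nat.mul_le_mul h.2 h'.2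

theorem Hb.add (hM : 2 ≤ M) (h : Hb M n x) (h' : Hb M m y) : Hb M (n + m + 1) (x + y) := by
  have h1 := Nat.mul_le_mul h.1 h'.2
  have h2 := Nat.mul_le_mul h.2 h'.1
  have h3 := Nat.mul_le_mul h.2 h'.2
  have h4 := Nat.mul_le_mul_left (M ^ n * M ^ m) hM
  refine ht_of (p := x.num * y.den + x.den * y.num) (q := x.den * y.den) (by simp) ?_ ?_ ?_
  · push_cast
    rw [← Rat.mul_den_eq_num x, ← Rat.mul_den_eq_num y]
    ring
  · refine (Int.natAbs_add_le _ _).trans ?_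
    rw [Int.natAbs_mul, Int.natAbs_mul, pow_succ, pow_add, Int.natAbs_natCast, Int.natAbs_natCast]
    omega
  · rw [Int.natAbs_mul, pow_succ, pow_add, Int.natAbs_natCast, Int.natAbs_natCast]
    omega

theorem Hb.neg (h : Hb M n x) : Hb M n (-x) := by
  simpa [Hb] using h

theorem Hb.sub (hM : 2 ≤ M) (h : Hb M n x) (h' : Hb M m y) : Hb M (n + m + 1) (x - y) := 
  sub_eq_add_neg x y ▸ h.add hM h'.neg

theorem Hb.inv (h : Hb M n x) : Hb M n x⁻¹ := by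
  rcases eq_or_ne x 0 with rfl | h0
  · simpa using h
  refine ht_of (p := x.den) (q := x.num) (Rat.num_ne_zero.2 h0) ?_ h.2 h.1
  rw [← Rat.mul_den_eq_num x, inv_mul_cancel_left₀ h0, Int.cast_natCast]

theorem Hb.div (h : Hb M n x) (h' : Hb M m y) : Hb M (n + m) (x / y) := 
  div_eq_mul_inv x y ▸ h.mul h'.inv

theorem Hb.pow (h : Hb M n x) (e : ℕ) : Hb M (n * e) (x ^ e) := by
  rw [Hb, Rat.num_pow, Rat.den_pow, Int.natAbs_pow, pow_mul]
  exact ⟨Nat.pow_le_pow_left h.1 e, Nat.pow_le_pow_left h.2 e⟩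

theorem Hb.of_sq (h : Hb M n (x ^ 2)) : Hb M n x := by
  rw [Hb, Rat.num_pow, Rat.den_pow, Int.natAbs_pow] at h
  exact ⟨(Nat.le_self_pow two_ne_zero _).trans h.1, (Nat.le_self_pow two_ne_zero _).trans h.2⟩

theorem Hb.int (hM : 2 ≤ M) {z : ℤ} (h : |z| ≤ (M : ℤ) ^ n) : Hb M n z := by
  refine ⟨?_, Nat.one_le_pow _ _ (by omega)⟩
  rw [Rat.num_intCast]
  zify
  exact h

theorem Hb.two (hM : 2 ≤ M) : Hb M 1 2 := by
  simpa using Hb.int (n := 1) (z := 2) hM (by simpa using hM)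

theorem Hb.four (hM : 2 ≤ M) : Hb M 2 4 := by
  have := (Hb.two hM).pow 2
  norm_num at this
  exact this

theorem Hb.one (hM : 2 ≤ M) : Hb M 0 1 := by
  simp [Hb]

theorem Hb.abs_le (h : Hb M n x) : |x| ≤ (M : ℚ) ^ n := by
  have h1 : ((x.num.natAbs : ℕ) : ℚ) ≤ (M : ℚ) ^ n := by exact_mod_cast h.1
  have h2 : (1 : ℚ) ≤ x.den := by exact_mod_cast x.pos
  rw [Nat.cast_natAbs, Int.cast_abs, ← Rat.mul_den_eq_num x, abs_mul, Nat.abs_cast] at h1
  nlinarith [abs_nonneg x]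

theorem Hb.int_le {z : ℤ} (h : Hb M n z) : |z| ≤ (M : ℤ) ^ n := by
  exact_mod_cast h.abs_le

theorem hb_finite (M n : ℕ) : {x : ℚ | Hb M n x}.Finite := by
  refine Set.Finite.of_finite_image (f := fun x : ℚ => (x.num, x.den)) ?_ fun a _ b _ e =>
    Rat.ext (congrArg Prod.fst e) (congrArg Prod.snd e)
  refine ((Set.finite_Icc (-(M : ℤ) ^ n) ((M : ℤ) ^ n)).prod (Set.finite_Iic (M ^ n))).subset ?_
  rintro _ ⟨x, hx, rfl⟩
  refine ⟨abs_le.1 ?_, hx.2⟩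
  have := hx.1
  zify at this
  exact this

/-- the leading coefficient clears the denominator of a root -/
theorem int_lead {D : ℕ} (G : Fin (D + 1) → ℤ) (s : ℚ) (h : ∑ i, (G i : ℚ) * s ^ (i : ℕ) = 0) :
    ∃ z : ℤ, (z : ℚ) = G (Fin.last D) * s := by
  have hd : (s.den : ℚ) ≠ 0 := Nat.cast_ne_zero.2 s.den_nz
  have h1 : ∑ i : Fin (D + 1), G i * s.num ^ (i : ℕ) * (s.den : ℤ) ^ (D - i) = 0 := by
    have := congrArg (· * (s.den : ℚ) ^ D) h
    simp only [Finset.sum_mul, zero_mul] at this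
    rw [← Int.cast_eq_zero (α := ℚ), ← this, Int.cast_sum]
    refine Finset.sum_congr rfl fun i _ => ?_
    push_cast
    rw [← Rat.mul_den_eq_num s, mul_pow, mul_assoc, mul_assoc, mul_assoc, ← pow_add,
      Nat.add_sub_cancel' (Nat.lt_succ_iff.1 i.2)]
  rw [Fin.sum_univ_castSucc, Fin.val_last, Nat.sub_self, pow_zero, mul_one] at h1
  rcases Nat.eq_zero_or_pos D with rfl | hD
  · have : G (Fin.last 0) = 0 := by simpa using h1
    exact ⟨0, by rw [this]; simp⟩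
  have h2 : (s.den : ℤ) ∣ G (Fin.last D) * s.num ^ D := by
    rw [eq_neg_of_add_eq_zero_right h1, dvd_neg]
    exact Finset.dvd_sum fun i _ => Dvd.dvd.mul_left
      (dvd_pow_self _ (Nat.sub_ne_zero_of_lt i.2)) _
  have h3 : IsCoprime (s.den : ℤ) (s.num ^ D) := (Rat.isCoprime_num_den s).symm.pow_right
  obtain ⟨c, hc⟩ := h3.dvd_of_dvd_mul_right h2
  refine ⟨c * s.num, ?_⟩
  rw [hc]
  push_cast
  rw [← Rat.mul_den_eq_num s]
  ring

/-- descent along the point of order two -/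
theorem descent {a b : ℤ} {X Y : ℚ} (hY : Y ≠ 0) (h : Y ^ 2 = X * (X ^ 2 + a * X + b)) :
    ∃ d : ℤ, d ∣ b ∧ ∃ s : ℚ, X = d * s ^ 2 := by
  have hd : (X.den : ℚ) ≠ 0 := Nat.cast_ne_zero.2 X.den_nz
  have hX : (X.num : ℚ) = X * X.den := (Rat.mul_den_eq_num X).symm
  have hc := Rat.isCoprime_num_den X
  set p := X.num
  set q : ℤ := (X.den : ℤ) with hq
  set n := p * q with hn
  set m := p ^ 2 + a * p * q + b * q ^ 2 with hm
  have h1 : ((n * m : ℤ) : ℚ) = (Y * (X.den : ℚ) ^ 2) ^ 2 := by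
    rw [mul_pow, h, hn, hm, hq]
    push_cast
    rw [hX]
    ring
  have h0 : n * m ≠ 0 := by
    rw [← Int.cast_ne_zero (α := ℚ), h1]
    positivity
  obtain ⟨z, hz⟩ : IsSquare (n * m) := Rat.isSquare_intCast_iff.1 ⟨_, h1.trans (sq _)⟩
  have hg : (Int.gcd n m : ℤ) ∣ b := by
    have g1 := Int.gcd_dvd_left n m
    have g2 := Int.gcd_dvd_right n m
    have c1 : IsCoprime m q := by
      have : m = p ^ 2 + q * (a * p + b * q) := by rw [hm]; ring
      rw [this]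
      exact (hc.pow_left (m := 2)).add_mul_left_left _
    have c2 : IsCoprime (Int.gcd n m : ℤ) q := c1.of_isCoprime_of_dvd_left g2
    have g3 : (Int.gcd n m : ℤ) ∣ p := c2.dvd_of_dvd_mul_right g1
    refine (c2.pow_right (n := 2)).dvd_of_dvd_mul_right ?_
    have : b * q ^ 2 = m - p * (p + a * q) := by rw [hm]; ring
    rw [this]
    exact dvd_sub g2 (g3.mul_right _)
  have hp : 0 < Int.gcd n m := Int.gcd_pos_of_ne_zero_left _ (left_ne_zero_of_mul h0)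
  obtain ⟨n', m', hco, e1, e2⟩ := Int.exists_gcd_one hp
  set g : ℤ := (Int.gcd n m : ℤ) with hgd
  have g0 : g ≠ 0 := Int.natCast_ne_zero.2 hp.ne'
  have h2 : g ^ 2 ∣ z ^ 2 := ⟨n' * m', by rw [sq z, ← hz, e1, e2]; ring⟩
  obtain ⟨w, rfl⟩ := (Int.pow_dvd_pow_iff two_ne_zero).1 h2
  have h3 : n' * m' = w ^ 2 := mul_left_cancel₀ (pow_ne_zero 2 g0) (by
    rw [← mul_pow, sq (g * w), ← hz, e1, e2]; ring)
  have h4 : X * (X.den : ℚ) ^ 2 = n' * g := by
    rw [← Int.cast_mul, ← e1, hn, hq]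
    push_cast
    rw [hX]
    ring
  obtain ⟨c, hc | hc⟩ := Int.sq_of_gcd_eq_one hco h3
  · refine ⟨g, hg, c / X.den, ?_⟩
    rw [div_pow, ← mul_div_assoc, eq_div_iff (pow_ne_zero 2 hd), h4, hc]
    push_cast
    ring
  · refine ⟨-g, neg_dvd.2 hg, c / X.den, ?_⟩
    rw [div_pow, ← mul_div_assoc, eq_div_iff (pow_ne_zero 2 hd), h4, hc]
    push_cast
    ring

end Pool.Agent.Lib.MP_e5111b_co.Ke
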