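import Pool.Agent.Lib.MP_e5111b_co.Ke.Alg
import Pool.Agent.Lib.MP_e5111b_co.Gp.Kit

set_option autoImplicit false

namespace Pool.Agent.Lib.MP_e5111b_co.Ke

open Filter MvPolynomial Finset Pc

variable {K Ω : Type} [Field K] [CharZero K] [Field Ω] [Algebra K Ω] {u v : Fin 7 → Ω}

omit [CharZero K] in
/-- a polynomial that is a square in the field of rational functions is a square -/
theorem inda_sq {x z : Ω} (hx : Transcendental K x) (hz : z ∈ IntermediateField.adjoin K {x})
    (p : Polynomial K) (h : Polynomial.aeval x p = z ^ 2) : ∃ q : Polynomial K, p = q ^ 2 := by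
  have hi : Function.Injective (Polynomial.aeval x : Polynomial K →ₐ[K] Ω) :=
    transcendental_iff_injective.1 hx
  obtain ⟨f, g, hfg⟩ := (IntermediateField.mem_adjoin_simple_iff K z).1 hz
  by_cases hg : g = 0
  · refine ⟨0, hi ?_⟩
    rw [h, hfg, hg]
    simp
  have hg' : Polynomial.aeval x g ≠ 0 := fun h0 => hg (hi (by simpa using h0))
  have e1 : f ^ 2 = g ^ 2 * p := by
    apply hi
    rw [map_mul, map_pow, map_pow, h, hfg]
    field_simp
  have e2 : g ∣ f := (IsIntegrallyClosed.pow_dvd_pow_iff (two_ne_zero)).1 ⟨p, e1⟩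
  obtain ⟨q, rfl⟩ := e2
  refine ⟨q, mul_left_cancel₀ (pow_ne_zero 2 hg) ?_⟩
  rw [← e1, mul_pow]

omit [CharZero K] in
/-- the elements of a quadratic extension -/
theorem inda_quad {x r z : Ω} (hr : r ^ 2 ∈ IntermediateField.adjoin K {x})
    (hz : z ∈ IntermediateField.adjoin K {x, r}) :
    ∃ A ∈ IntermediateField.adjoin K {x}, ∃ B ∈ IntermediateField.adjoin K {x},
      z = A + B * r := by
  induction hz using IntermediateField.adjoin_induction with
  | mem y hy =>
    rcases hy with rfl | hy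
    · exact ⟨y, IntermediateField.mem_adjoin_simple_self K y, 0, zero_mem _, by ring⟩
    · rw [Set.mem_singleton_iff] at hy
      exact ⟨0, zero_mem _, 1, one_mem _, by rw [hy]; ring⟩
  | algebraMap y => exact ⟨_, IntermediateField.algebraMap_mem _ y, 0, zero_mem _, by ring⟩
  | add y y' _ _ h h' =>
    obtain ⟨A, hA, B, hB, rfl⟩ := h
    obtain ⟨A', hA', B', hB', rfl⟩ := h'
    exact ⟨A + A', add_mem hA hA', B + B', add_mem hB hB', by ring⟩
  | mul y y' _ _ h h' =>
    obtain ⟨A, hA, B, hB, rfl⟩ := h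
    obtain ⟨A', hA', B', hB', rfl⟩ := h'
    exact ⟨A * A' + B * B' * r ^ 2, add_mem (mul_mem hA hA') (mul_mem (mul_mem hB hB') hr),
      A * B' + A' * B, add_mem (mul_mem hA hB') (mul_mem hA' hB), by ring⟩
  | inv y _ h =>
    obtain ⟨A, hA, B, hB, rfl⟩ := h
    by_cases h0 : A + B * r = 0
    · exact ⟨0, zero_mem _, 0, zero_mem _, by rw [h0]; simp⟩
    by_cases h1 : A - B * r = 0
    · refine ⟨(A + A)⁻¹, inv_mem (add_mem hA hA), 0, zero_mem _, ?_⟩
      rw [← sub_eq_zero.1 h1]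
      simp
    have hn : A * A - B * B * r ^ 2 ∈ IntermediateField.adjoin K {x} :=
      sub_mem (mul_mem hA hA) (mul_mem (mul_mem hB hB) hr)
    have hn0 : A * A - B * B * r ^ 2 ≠ 0 := by
      have : A * A - B * B * r ^ 2 = (A + B * r) * (A - B * r) := by ring
      rw [this]
      exact mul_ne_zero h0 h1
    refine ⟨A / (A * A - B * B * r ^ 2), div_mem hA hn, -B / (A * A - B * B * r ^ 2),
      div_mem (neg_mem hB) hn, ?_⟩
    apply inv_eq_of_mul_eq_one_right
    have : A / (A * A - B * B * r ^ 2) + -B / (A * A - B * B * r ^ 2) * r =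
        (A - B * r) / (A * A - B * B * r ^ 2) := by ring
    rw [this, ← mul_div_assoc, div_eq_one_iff_eq hn0]
    ring

/-- the nonvanishing conditions of a level -/
theorem inda_ne (h : Lev u) : u 1 ≠ 0 ∧ u 2 ≠ 0 ∧ u 0 ^ 2 - 4 * u 1 * u 2 ≠ 0 ∧ u 3 ≠ 0 ∧
    u 4 ≠ 0 ∧ u 5 ≠ 0 ∧ u 5 ^ 2 - u 3 ^ 2 ≠ 0 := by
  have h3 := h.2.2
  simp only [mul_ne_zero_iff] at h3
  tauto

/-- the cover given by `s` does not split -/
theorem Lev.notMem (h : Lev u) (hp : ∀ r : Fin 7, (r : ℕ) < 5 → u r ∈ Set.range (algebraMap K Ω))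
    (ht : Transcendental K (u 5)) :
    u 5 ∉ IntermediateField.adjoin K {u 1 * u 5 ^ 2, u 6 / u 5} := by
  intro hs
  have : CharZero Ω := charZero_of_injective_algebraMap (algebraMap K Ω).injective
  obtain ⟨a, ha⟩ := hp 0 (by decide)
  obtain ⟨d, hd⟩ := hp 1 (by decide)
  obtain ⟨e, he⟩ := hp 2 (by decide)
  obtain ⟨n1, -, n3, -, -, n5, -⟩ := inda_ne h
  have h1 := h.1
  generalize u 5 = s at *
  generalize u 6 = w at *
  have hd0 : d ≠ 0 := fun h0 => n1 (by rw [← hd, h0, map_zero])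
  have hX : Transcendental K (u 1 * s ^ 2) := by
    intro hal
    apply ht
    have h2 : IsAlgebraic K (algebraMap K Ω d⁻¹ * (u 1 * s ^ 2)) :=
      (isAlgebraic_algebraMap _).mul hal
    have h3 : algebraMap K Ω d⁻¹ * (u 1 * s ^ 2) = s ^ 2 := by
      rw [map_inv₀, hd]
      field_simp
    rw [h3] at h2
    exact h2.of_pow two_pos
  have mX := IntermediateField.mem_adjoin_simple_self K (u 1 * s ^ 2)
  have m0 : u 0 ∈ IntermediateField.adjoin K {u 1 * s ^ 2} :=
    ha ▸ IntermediateField.algebraMap_mem _ a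
  have m1 : u 1 ∈ IntermediateField.adjoin K {u 1 * s ^ 2} := by
    have := IntermediateField.algebraMap_mem (IntermediateField.adjoin K {u 1 * s ^ 2}) d
    rwa [hd] at this
  have m2 : u 2 ∈ IntermediateField.adjoin K {u 1 * s ^ 2} :=
    he ▸ IntermediateField.algebraMap_mem _ e
  have eR : (w / s) ^ 2 = u 1 * s ^ 2 + u 0 + u 1 * u 2 / (u 1 * s ^ 2) := by
    rw [div_pow, h1]
    field_simp
  have mR : (w / s) ^ 2 ∈ IntermediateField.adjoin K {u 1 * s ^ 2} := by
    rw [eR]
    exact add_mem (add_mem mX m0) (div_mem (mul_mem m1 m2) mX)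
  have ms : s ^ 2 ∈ IntermediateField.adjoin K {u 1 * s ^ 2} := by
    have h2 := div_mem mX m1
    rwa [mul_div_cancel_left₀ _ n1] at h2
  obtain ⟨A, hA, B, hB, hAB⟩ := inda_quad mR hs
  by_cases hA0 : A = 0
  · rw [hA0, zero_add] at hAB
    have hB0 : B ≠ 0 := fun h0 => n5 (by rw [hAB, h0, zero_mul])
    have hw : w = s ^ 2 / B := by
      rw [eq_div_iff hB0]
      have : s * s = B * (w / s) * s := by rw [← hAB]
      rw [mul_assoc, div_mul_cancel₀ _ n5] at this
      linear_combination -this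
    obtain ⟨q, hq⟩ := inda_sq hX (div_mem mX hB)
      (Polynomial.C d * Polynomial.X ^ 2 + Polynomial.C (d * a) * Polynomial.X +
        Polynomial.C (d ^ 2 * e)) (by
      simp only [map_add, map_mul, map_pow, Polynomial.aeval_C, Polynomial.aeval_X, ha, hd, he]
      rw [mul_div_assoc, ← hw, mul_pow (u 1) w, h1]
      ring)
    have hdeg : q.natDegree ≤ 1 := by
      have h2 := congrArg Polynomial.natDegree hq
      rw [Polynomial.natDegree_quadratic hd0, Polynomial.natDegree_pow] at h2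
      omega
    rw [Polynomial.eq_X_add_C_of_natDegree_le_one hdeg] at hq
    have q0 := congrArg (Polynomial.eval 0) hq
    have q1 := congrArg (Polynomial.eval 1) hq
    have q2 := congrArg (Polynomial.eval (-1)) hq
    simp only [Polynomial.eval_add, Polynomial.eval_mul, Polynomial.eval_pow, Polynomial.eval_C,
      Polynomial.eval_X] at q0 q1 q2
    generalize q.coeff 1 = α at *
    generalize q.coeff 0 = β at *
    have e0 : d ^ 2 * e = β ^ 2 := by linear_combination q0
    have e1 : d = α ^ 2 := by linear_combination (q1 + q2) / 2 - e0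
    have e2 : d * a = 2 * α * β := by linear_combination (q1 - q2) / 2
    have e3 : d ^ 2 * (a ^ 2 - 4 * d * e) = 0 := by
      have : (d * a) ^ 2 = 4 * α ^ 2 * β ^ 2 := by rw [e2]; ring
      rw [← e0, ← e1] at this
      linear_combination this
    have e4 : a ^ 2 - 4 * d * e = 0 := (mul_eq_zero.1 e3).resolve_left (pow_ne_zero 2 hd0)
    apply n3
    have e5 := congrArg (algebraMap K Ω) e4
    simpa [ha, hd, he, map_ofNat] using e5
  · have hs' : s ∈ IntermediateField.adjoin K {u 1 * s ^ 2} := by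
      have h2 : s = (s ^ 2 + A * A - B * B * (w / s) ^ 2) / (A + A) := by
        have h3 : A + A ≠ 0 := by
          rw [← two_mul]
          exact mul_ne_zero two_ne_zero hA0
        rw [eq_div_iff h3]
        have h4 : B * (w / s) = s - A := by linear_combination -hAB
        have h5 : B * B * (w / s) ^ 2 = (s - A) ^ 2 := by rw [← h4]; ring
        rw [h5]
        ring
      have h6 := div_mem (sub_mem (add_mem ms (mul_mem hA hA)) (mul_mem (mul_mem hB hB) mR))
        (add_mem hA hA)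
      rwa [← h2] at h6
    obtain ⟨q, hq⟩ := inda_sq hX (mul_mem m1 hs') (Polynomial.C d * Polynomial.X) (by
      simp only [map_mul, Polynomial.aeval_C, Polynomial.aeval_X, hd]
      ring)
    have h2 := congrArg Polynomial.natDegree hq
    rw [Polynomial.natDegree_C_mul_X d hd0, Polynomial.natDegree_pow] at h2
    omega

/-- the cover given by `s` is the isogenous curve -/
theorem Lev.up (h : Lev u) (h' : Lev v) (hl : Lnk u v)
    (hp : ∀ r : Fin 7, (r : ℕ) < 5 → u r ∈ Set.range (algebraMap K Ω))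
    (hq : v 1 ∈ Set.range (algebraMap K Ω)) (ht : Transcendental K (u 5)) :
    Transcendental K (v 5) ∧ u 5 ∈ IntermediateField.adjoin K {v 1 * v 5 ^ 2, v 6 / v 5} ∧
      u 6 ∈ IntermediateField.adjoin K {v 1 * v 5 ^ 2, v 6 / v 5} := by
  have : CharZero Ω := charZero_of_injective_algebraMap (algebraMap K Ω).injective
  obtain ⟨a, ha⟩ := hp 0 (by decide)
  obtain ⟨d, hd⟩ := hp 1 (by decide)
  obtain ⟨e, he⟩ := hp 2 (by decide)
  obtain ⟨s₀, hs₀⟩ := hp 3 (by decide)
  obtain ⟨w₀, hw₀⟩ := hp 4 (by decide)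
  obtain ⟨d', hd'⟩ := hq
  obtain ⟨n1, n2, n3, n4, n5, -, n7⟩ := inda_ne h
  obtain ⟨k1, -, -, -, -, k5, -⟩ := inda_ne h'
  obtain ⟨l0, l1, l2, l3⟩ := hl
  have h1 := h.1
  have h2 := h.2.1
  have h3 := h'.1
  have n8 : u 5 - u 3 ≠ 0 := fun h0 => n7 (by rw [sub_eq_zero.1 h0, sub_self])
  have l4 : v 6 / v 5 * (u 5 ^ 2 - u 3 ^ 2) = 2 * (u 6 * u 3 + u 4 * u 5) := by
    rw [div_mul_eq_mul_div, div_eq_iff k5, l3]
  have eR : (v 6 / v 5) ^ 2 =
      v 1 * v 5 ^ 2 + -2 * u 0 + (u 0 ^ 2 - 4 * u 1 * u 2) / (v 1 * v 5 ^ 2) := by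
    rw [div_pow, h3, ← l0, ← l1]
    field_simp
  have hXa : IsAlgebraic K (v 5) → IsAlgebraic K (v 1 * v 5 ^ 2) := fun hv =>
    (hd' ▸ isAlgebraic_algebraMap d').mul (hv.pow 2)
  generalize v 1 * v 5 ^ 2 = X at *
  generalize v 6 / v 5 = R at *
  have l5 := l2
  unfold nG at l5
  have key : u 5 * (u 3 * X - u 4 * R - 2 * u 1 * u 3 ^ 3 - u 0 * u 3) =
      u 3 ^ 2 * X + u 4 * R * u 3 - u 0 * u 3 ^ 2 - 2 * u 2 := by
    apply mul_left_cancel₀ n8
    linear_combination u 3 * l5 - u 4 * l4 - 2 * u 5 * h2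
  have hbr : u 3 * X - u 4 * R - 2 * u 1 * u 3 ^ 3 - u 0 * u 3 ≠ 0 := by
    intro h0
    rw [h0, mul_zero] at key
    have hX : X = algebraMap K Ω ((w₀ / s₀) ^ 2) := by
      rw [map_pow, map_div₀, hw₀, hs₀, div_pow, eq_div_iff (pow_ne_zero 2 n4)]
      linear_combination (u 3 * h0 - key) / 2 - h2
    have hw : w₀ ≠ 0 := fun h0 => n5 (by rw [← hw₀, h0, map_zero])
    have hD : d * e * (a ^ 2 - 4 * d * e) ≠ 0 := by
      intro h0
      have e5 := congrArg (algebraMap K Ω) h0
      apply mul_ne_zero (mul_ne_zero n1 n2) n3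
      simpa [ha, hd, he, map_ofNat] using e5
    obtain ⟨p, p0, -, hpp⟩ := quartic a d e s₀ w₀ ((w₀ / s₀) ^ 2) hw hD
    exact ht ⟨p, p0, hpp Ω u ha.symm hd.symm he.symm hs₀.symm hw₀.symm h1 (hX ▸ l2)⟩
  have mX : X ∈ IntermediateField.adjoin K {X, R} :=
    IntermediateField.subset_adjoin K _ (by simp)
  have mR : R ∈ IntermediateField.adjoin K {X, R} :=
    IntermediateField.subset_adjoin K _ (by simp)
  have m0 : u 0 ∈ IntermediateField.adjoin K {X, R} := ha ▸ IntermediateField.algebraMap_mem _ a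
  have m1 : u 1 ∈ IntermediateField.adjoin K {X, R} := hd ▸ IntermediateField.algebraMap_mem _ d
  have m2 : u 2 ∈ IntermediateField.adjoin K {X, R} := he ▸ IntermediateField.algebraMap_mem _ e
  have m3 : u 3 ∈ IntermediateField.adjoin K {X, R} :=
    hs₀ ▸ IntermediateField.algebraMap_mem _ s₀
  have m4 : u 4 ∈ IntermediateField.adjoin K {X, R} :=
    hw₀ ▸ IntermediateField.algebraMap_mem _ w₀
  have mt : (2 : Ω) ∈ IntermediateField.adjoin K {X, R} := by
    rw [← one_add_one_eq_two]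
    exact add_mem (one_mem _) (one_mem _)
  have m5 : u 5 ∈ IntermediateField.adjoin K {X, R} := by
    rw [eq_div_of_mul_eq hbr key]
    exact div_mem
      (sub_mem (sub_mem (add_mem (mul_mem (pow_mem m3 2) mX) (mul_mem (mul_mem m4 mR) m3))
        (mul_mem m0 (pow_mem m3 2))) (mul_mem mt m2))
      (sub_mem (sub_mem (sub_mem (mul_mem m3 mX) (mul_mem m4 mR))
        (mul_mem (mul_mem mt m1) (pow_mem m3 3))) (mul_mem m0 m3))
  have m6 : u 6 ∈ IntermediateField.adjoin K {X, R} := by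
    have e6 : u 6 = (R * (u 5 ^ 2 - u 3 ^ 2) - 2 * (u 4 * u 5)) / (2 * u 3) := by
      rw [eq_div_iff (mul_ne_zero two_ne_zero n4)]
      linear_combination -l4
    rw [e6]
    exact div_mem (sub_mem (mul_mem mR (sub_mem (pow_mem m5 2) (pow_mem m3 2)))
      (mul_mem mt (mul_mem m4 m5))) (mul_mem mt m3)
  refine ⟨fun hv => ht ?_, m5, m6⟩
  have aX := hXa hv
  have aR : IsAlgebraic K R := by
    refine IsAlgebraic.of_pow two_pos ?_
    have e7 : R ^ 2 = X + algebraMap K Ω (-2 * a) +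
        algebraMap K Ω (a ^ 2 - 4 * d * e) * X⁻¹ := by
      rw [eR]
      simp [ha, hd, he, map_ofNat, div_eq_mul_inv]
    rw [e7]
    exact (aX.add (isAlgebraic_algebraMap _)).add ((isAlgebraic_algebraMap _).mul aX.inv)
  have hle : IntermediateField.adjoin K {X, R} ≤ algebraicClosure K Ω := by
    rw [IntermediateField.adjoin_le_iff]
    intro y hy
    rcases hy with rfl | hy
    · exact mem_algebraicClosure_iff.2 aX
    · rw [Set.mem_singleton_iff] at hy
      rw [hy]
      exact mem_algebraicClosure_iff.2 aR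
  exact mem_algebraicClosure_iff.1 (hle m5)

end Pool.Agent.Lib.MP_e5111b_co.Ke
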