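import Pool.Agent.Lib.MP_e5111b_co.Ke.Defs
import Pool.Agent.Lib.MP_e5111b_co.Gp.GeoA

set_option autoImplicit false

namespace Pool.Agent.Lib.MP_e5111b_co.Ke

open Filter MvPolynomial Finset Pc

variable {ι : Type} {P : ι × ι → ℤ} {X : ι → ℂ}

theorem inv_re (z : ℂ) : (‖z‖ ^ 2 + 1 - ‖z - 1‖ ^ 2) / 2 = z.re := by
  rw [Complex.sq_norm, Complex.sq_norm, Complex.normSq_apply, Complex.normSq_apply]
  simp only [Complex.sub_re, Complex.sub_im, Complex.one_re, Complex.one_im]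
  ring

theorem inv_im (z : ℂ) : ‖z‖ ^ 2 - z.re ^ 2 = z.im ^ 2 := by
  rw [Complex.sq_norm, Complex.normSq_apply]
  ring

theorem inv_dist {z : ℂ} (h : z.im = 0) (w : ℂ) :
    ‖z - w‖ ^ 2 = (z.re - w.re) ^ 2 + w.im ^ 2 := by
  rw [Complex.sq_norm, Complex.normSq_apply]
  simp only [Complex.sub_re, Complex.sub_im, h]
  ring

/-- the inverted configuration -/
theorem inv_exists (hX : Function.Injective X) (hd : ∀ a b, dist (X a) (X b) = P (a, b))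
    {o : Fin 3 → ι} (ho : Function.Injective o) :
    ∃ (ζ : ι → ℂ) (ω : ℂ), ζ (o 1) = 0 ∧ ζ (o 2) = 1 ∧
      (∀ i, i ≠ o 0 → (r0 P o i : ℝ) = ‖ζ i - ω‖) ∧
      (∀ i j, i ≠ o 0 → j ≠ o 0 → (rr P o i j : ℝ) = ‖ζ i - ζ j‖) ∧
      (∀ i j, i ≠ o 0 → j ≠ o 0 → ζ i = ζ j → i = j) ∧
      ∀ i, i ≠ o 0 → ζ i * ((X (o 0) - X i) * (X (o 1) - X (o 2))) =
        (X (o 0) - X (o 2)) * (X (o 1) - X i) := by
  have n01 : X (o 0) - X (o 1) ≠ 0 := sub_ne_zero.2 (hX.ne (ho.ne (by decide)))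
  have n02 : X (o 0) - X (o 2) ≠ 0 := sub_ne_zero.2 (hX.ne (ho.ne (by decide)))
  have n12 : X (o 1) - X (o 2) ≠ 0 := sub_ne_zero.2 (hX.ne (ho.ne (by decide)))
  have n0 : ∀ i, i ≠ o 0 → X (o 0) - X i ≠ 0 := fun i hi => sub_ne_zero.2 (hX.ne hi.symm)
  have hn : ∀ a b, (P (a, b) : ℝ) = ‖X a - X b‖ := fun a b => by rw [← hd, Complex.dist_eq]
  obtain ⟨κ, hκ⟩ : ∃ κ, κ = (X (o 0) - X (o 1)) * (X (o 0) - X (o 2)) / (X (o 1) - X (o 2)) :=
    ⟨_, rfl⟩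
  have k0 : κ ≠ 0 := hκ ▸ div_ne_zero (mul_ne_zero n01 n02) n12
  have e0 : ∀ i, (r0 P o i : ℝ) = ‖κ / (X (o 0) - X i)‖ := fun i => by
    rw [r0, hκ]
    push_cast
    rw [hn, hn, hn, hn, norm_div, norm_div, norm_mul]
  have ed : ∀ i j, i ≠ o 0 → j ≠ o 0 →
      (κ / (X (o 0) - X (o 1)) - κ / (X (o 0) - X i)) -
        (κ / (X (o 0) - X (o 1)) - κ / (X (o 0) - X j)) =
      -(κ / (X (o 0) - X i) * (X i - X j) / (X (o 0) - X j)) := fun i j hi hj => by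
    have := n0 i hi
    have := n0 j hj
    field_simp
    ring
  refine ⟨fun i => κ / (X (o 0) - X (o 1)) - κ / (X (o 0) - X i), κ / (X (o 0) - X (o 1)),
    sub_self _, ?_, fun i _ => ?_, fun i j hi hj => ?_, fun i j hi hj e => ?_, fun i hi => ?_⟩
  · rw [hκ]
    field_simp
    ring
  · rw [e0, sub_sub_cancel_left, norm_neg]
  · rw [ed i j hi hj, norm_neg, norm_div, norm_mul, ← e0, ← hn, ← hn, rr]
    push_cast
    rfl
  · have h1 := ed i j hi hj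
    rw [sub_eq_zero.2 e, eq_comm, neg_eq_zero, div_eq_zero_iff, mul_eq_zero] at h1
    rcases h1 with (h1 | h1) | h1
    · exact absurd h1 (div_ne_zero k0 (n0 i hi))
    · exact hX (sub_eq_zero.1 h1)
    · exact absurd h1 (n0 j hj)
  · have := n0 i hi
    rw [hκ]
    field_simp
    ring

/-- inversion at `o 0` -/
theorem str_of (hX : Function.Injective X) (hd : ∀ a b, dist (X a) (X b) = P (a, b))
    {γ : Fin 4 → ℂ} (h : γ ≠ 0) {o : Fin 3 → ι} (ho : Function.Injective o) {S Y : Finset ι}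
    (h1 : ∀ r, o r ∈ S ∧ Onc γ (X (o r))) (h2 : ∀ i ∉ S, Onc γ (X i)) (h3 : 3 ≤ #Y) (h4 : Y ⊆ S)
    (h5 : ∀ i ∈ Y, ¬ Onc γ (X i)) : ∃ A B, Str P o S A B := by
  obtain ⟨ζ, ω, z1, z2, e0, e1, inj, e2⟩ := inv_exists hX hd ho
  have n1 : o 1 ≠ o 0 := ho.ne (by decide)
  have n2 : o 2 ≠ o 0 := ho.ne (by decide)
  have n12 : o 1 ≠ o 2 := ho.ne (by decide)
  have a1 : ∀ i, i ≠ o 0 → (al P o i : ℝ) = (ζ i).re := fun i hi => by
    rw [al]
    push_cast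
    rw [e1 i _ hi n1, e1 i _ hi n2, z1, z2, sub_zero, inv_re]
  have a2 : ∀ i, i ≠ o 0 → (hh P o i : ℝ) = (ζ i).im ^ 2 := fun i hi => by
    rw [hh]
    push_cast
    rw [a1 i hi, e1 i _ hi n1, z1, sub_zero, inv_im]
  have a3 : (al0 P o : ℝ) = ω.re := by
    rw [al0]
    push_cast
    rw [e0 _ n1, e0 _ n2, z1, z2, zero_sub, norm_neg, norm_sub_rev, inv_re]
  have a4 : (hh0 P o : ℝ) = ω.im ^ 2 := by
    rw [hh0]
    push_cast
    rw [a3, e0 _ n1, z1, zero_sub, norm_neg, inv_im]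
  have on : ∀ i, i ≠ o 0 → (Onc γ (X i) ↔ (ζ i).im = 0) := fun i hi => by
    let c : Gp.Cf ι ℂ := ⟨X, fun a => starRingEnd ℂ (X a), fun a b => P (a, b), Gp.ga_sq hd,
      fun a b hab => by
        have := dist_pos.2 (hX.ne hab)
        rw [hd] at this
        exact_mod_cast this.ne'⟩
    have k := Gp.Cf.on_iff_cyc (c := c) (m := i) h n1.symm n2.symm n12 (h1 0).2 (h1 1).2 (h1 2).2
    have hD : (X (o 0) - X i) * (X (o 1) - X (o 2)) ≠ 0 :=
      mul_ne_zero (sub_ne_zero.2 (hX.ne hi.symm)) (sub_ne_zero.2 (hX.ne n12))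
    have e3 := e2 i hi
    have e4 := congrArg (starRingEnd ℂ) e3
    have e5 : c.cyc (o 0) (o 1) (o 2) i = (ζ i - starRingEnd ℂ (ζ i)) *
        ((X (o 0) - X i) * (X (o 1) - X (o 2)) *
          starRingEnd ℂ ((X (o 0) - X i) * (X (o 1) - X (o 2)))) := by
      simp only [map_mul, map_sub] at e4 ⊢
      simp only [Gp.Cf.cyc, c]
      linear_combination
        (-((starRingEnd ℂ (X (o 0)) - starRingEnd ℂ (X i)) *
          (starRingEnd ℂ (X (o 1)) - starRingEnd ℂ (X (o 2))))) * e3 +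
        (X (o 0) - X i) * (X (o 1) - X (o 2)) * e4
    refine k.trans ?_
    rw [e5, mul_eq_zero, or_iff_left (mul_ne_zero hD ((map_ne_zero _).2 hD)), sub_eq_zero, eq_comm,
      Complex.conj_eq_iff_im]
  have y0 : ∀ i ∈ Y, i ≠ o 0 := fun i hi e => h5 i hi (e ▸ (h1 0).2)
  have yp : ∀ i ∈ Y, 0 < hh P o i := fun i hi => by
    have : (0 : ℝ) < hh P o i := by
      rw [a2 i (y0 i hi)]
      exact sq_pos_of_ne_zero fun e => h5 i hi ((on i (y0 i hi)).2 e)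
    exact_mod_cast this
  have mk : ∀ A ∈ Y, ∀ B ∈ Y, (al P o A, hh P o A) ≠ (al P o B, hh P o B) → Str P o S A B :=
    fun A hA B hB hAB => by
    refine ⟨ho, fun r => (h1 r).1, h4 hA, h4 hB, y0 A hA, y0 B hB, yp A hA, yp B hB, hAB,
      fun i hi => ?_⟩
    have i0 : i ≠ o 0 := fun e => hi (e ▸ (h1 0).1)
    have im := (on i i0).1 (h2 i hi)
    refine ⟨?_, ?_, fun j hj => ?_⟩
    · have : (hh P o i : ℝ) = 0 := by rw [a2 i i0, im, zero_pow two_ne_zero]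
      exact_mod_cast this
    · have : (r0 P o i : ℝ) ^ 2 = (al P o i - al0 P o) ^ 2 + hh0 P o := by
        rw [e0 i i0, a1 i i0, a3, a4, inv_dist im]
      exact_mod_cast this
    · have : (rr P o i j : ℝ) ^ 2 = (al P o i - al P o j) ^ 2 + hh P o j := by
        rw [e1 i j i0 hj, a1 i i0, a1 j hj, a2 j hj, inv_dist im]
      exact_mod_cast this
  by_contra hc
  have same : ∀ A ∈ Y, ∀ B ∈ Y, A ≠ B → (ζ A).im = -(ζ B).im := fun A hA B hB hAB => by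
    have e : (al P o A, hh P o A) = (al P o B, hh P o B) := by
      by_contra e
      exact hc ⟨A, B, mk A hA B hB e⟩
    obtain ⟨b1, b2⟩ := Prod.ext_iff.1 e
    have b3 : (ζ A).re = (ζ B).re := by
      rw [← a1 A (y0 A hA), ← a1 B (y0 B hB)]
      exact_mod_cast b1
    have b4 : (ζ A).im ^ 2 = (ζ B).im ^ 2 := by
      rw [← a2 A (y0 A hA), ← a2 B (y0 B hB)]
      exact_mod_cast b2
    exact (sq_eq_sq_iff_eq_or_eq_neg.1 b4).resolve_left fun b5 =>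
      hAB (inj A B (y0 A hA) (y0 B hB) (Complex.ext b3 b5))
  obtain ⟨A, B, C, hA, hB, hC, ab, ac, bc⟩ := Finset.two_lt_card_iff.1 h3
  have s1 := same A hA B hB ab
  have s2 := same A hA C hC ac
  have s3 := same B hB C hC bc
  exact h5 A hA ((on A (y0 A hA)).2 (by linarith))

end Pool.Agent.Lib.MP_e5111b_co.Ke
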