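import Pool.Agent.Lib.MP_e5111b_co.Ke.SubA
import Pool.Agent.Lib.MP_e5111b_co.Ke.Inv

set_option autoImplicit false

namespace Pool.Agent.Lib.MP_e5111b_co.Ke

open Filter MvPolynomial Finset Pc

variable {ι : Type} {P : ι × ι → ℤ} {k : ℕ}

theorem sub_three {T : Finset ι} (h : 3 ≤ #T) :
    ∃ o : Fin 3 → ι, Function.Injective o ∧ ∀ r, o r ∈ T := by
  obtain ⟨f, hf⟩ := Function.Embedding.exists_of_card_le_finset (α := Fin 3) (s := T)
    (by simpa using h)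
  exact ⟨f, f.injective, fun r => hf ⟨r, rfl⟩⟩

/-- counting inside `S` through the enumeration of `S` -/
theorem sub_ncard (S T : Finset ι) (p : ι → Prop) (hT : T ⊆ S) (hp : ∀ i ∈ T, p i) :
    #T ≤ {a : Fin #S | p (S.equivFin.symm a)}.ncard := by
  have hi : Function.Injective fun a : Fin #S => ((S.equivFin.symm a : S) : ι) :=
    Subtype.val_injective.comp S.equivFin.symm.injective
  rw [← Set.ncard_image_of_injective _ hi, ← Set.ncard_coe_finset]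
  refine Set.ncard_le_ncard (fun i hi => ?_) (Set.toFinite _)
  exact ⟨S.equivFin ⟨i, hT hi⟩, by simpa using hp i hi, by simp⟩

open Classical in
/-- the line or circle with the fewest points off it, and the subconfiguration -/
theorem sub_pick [Fintype ι] {X : ι → ℂ} (hX : Function.Injective X)
    (hd : ∀ a b, dist (X a) (X b) = P (a, b)) (hk : 3 ≤ k)
    (hm : ∀ γ : Fin 4 → ℂ, γ ≠ 0 → k ≤ {i | ¬ Onc γ (X i)}.ncard) :
    ∃ (γ₀ : Fin 4 → ℂ) (Y Z : Finset ι), γ₀ ≠ 0 ∧ k ≤ #Y ∧ 3 ≤ #Z ∧ #Z ≤ 2 * #Y ∧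
      (∀ i, i ∈ Y ↔ ¬ Onc γ₀ (X i)) ∧ (∀ i ∈ Z, Onc γ₀ (X i)) ∧
      ∀ γ : Fin 4 → ℂ, γ ≠ 0 → ∃ T ⊆ Y ∪ Z, #Y ≤ #T ∧ ∀ i ∈ T, ¬ Onc γ (X i) := by
  let off : (Fin 4 → ℂ) → Finset ι := fun γ => univ.filter fun i => ¬ Onc γ (X i)
  have hoff : ∀ γ, γ ≠ 0 → k ≤ #(off γ) := fun γ hγ => by
    have := hm γ hγ
    rwa [← Set.ncard_coe_finset, show ((off γ : Finset ι) : Set ι) = {i | ¬ Onc γ (X i)} by
      ext i; simp [off]]
  obtain ⟨γ₁, h1, -⟩ := onc_exists 0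
  have hex : ∃ m, ∃ γ : Fin 4 → ℂ, γ ≠ 0 ∧ #(off γ) = m := ⟨_, γ₁, h1, rfl⟩
  obtain ⟨γ₀, h0, e0⟩ := Nat.find_spec hex
  have hmin : ∀ γ : Fin 4 → ℂ, γ ≠ 0 → #(off γ₀) ≤ #(off γ) := fun γ hγ => by
    rw [e0]; exact Nat.find_min' hex ⟨γ, hγ, rfl⟩
  have hk0 := hoff γ₀ h0
  let on : (Fin 4 → ℂ) → Finset ι := fun γ => univ.filter fun i => Onc γ (X i)
  have hsum : ∀ γ, #(on γ) + #(off γ) = #(univ : Finset ι) := fun γ =>
    card_filter_add_card_filter_not _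
  have h3 : 3 ≤ #(on γ₀) := by
    have hu : 3 ≤ #(univ : Finset ι) := by have := hsum γ₀; omega
    obtain ⟨o, ho, -⟩ := sub_three hu
    obtain ⟨γ, hγ, hon⟩ := onc_exists fun r => X (o r)
    have h4 : 3 ≤ #(on γ) := by
      have := card_le_card_of_injOn (s := (univ : Finset (Fin 3))) (t := on γ) o
        (fun r _ => by simp [on, hon r]) ho.injOn
      simpa using this
    have := hsum γ
    have := hsum γ₀
    have := hmin γ hγ
    omega
  have hY : ∀ i, i ∈ off γ₀ ↔ ¬ Onc γ₀ (X i) := fun i => by simp [off]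
  rcases le_total #(on γ₀) (2 * #(off γ₀)) with hc | hc
  · refine ⟨γ₀, off γ₀, on γ₀, h0, hk0, h3, hc, hY, fun i hi => (mem_filter.1 hi).2,
      fun γ hγ => ⟨off γ, fun i _ => ?_, hmin γ hγ, fun i hi => (mem_filter.1 hi).2⟩⟩
    by_cases hi : Onc γ₀ (X i) <;> simp [on, off, hi]
  · obtain ⟨Z, hZ, eZ⟩ := exists_subset_card_eq hc
    have hZ' : ∀ i ∈ Z, Onc γ₀ (X i) := fun i hi => (mem_filter.1 (hZ hi)).2
    refine ⟨γ₀, off γ₀, Z, h0, hk0, by omega, eZ.le, hY, hZ', fun γ hγ => ?_⟩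
    by_cases h4 : 3 ≤ #(Z.filter fun i => Onc γ (X i))
    · obtain ⟨o, ho, hoZ⟩ := sub_three h4
      refine ⟨off γ₀, subset_union_left, le_rfl, fun i hi hi' => (hY i).1 hi ?_⟩
      exact (onc_iff hX hd hγ h0 ho (fun r => (mem_filter.1 (hoZ r)).2)
        (fun r => hZ' _ (mem_filter.1 (hoZ r)).1) i).1 hi'
    · refine ⟨Z.filter fun i => ¬ Onc γ (X i), (filter_subset _ _).trans subset_union_right, ?_,
        fun i hi => (mem_filter.1 hi).2⟩
      have := card_filter_add_card_filter_not (s := Z) fun i => Onc γ (X i)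
      omega

/-- a subconfiguration to which the logarithmic theorem applies -/
theorem sub_exists [Fintype ι] (h : Gp.Good k P) (hk : 256 ≤ k) :
    ∃ (S : Finset ι) (o : Fin 3 → ι) (A B : ι), k ≤ #S ∧ Str P o S A B ∧
      ∃ (g : ℤ) (Q : Fin #S × Fin #S → ℤ), 0 < g ∧ Gp.Good (25 * Nat.log 2 #S) Q ∧
        ∀ a b, P (S.equivFin.symm a, S.equivFin.symm b) = g * Q (a, b) := by
  classical
  obtain ⟨X, hX, hd, hm⟩ := good_miss h (by omega)
  obtain ⟨γ₀, Y, Z, h0, hY, hZ, hZY, eY, eZ, hT⟩ := sub_pick hX hd (by omega) hm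
  obtain ⟨o, ho, hoZ⟩ := sub_three hZ
  obtain ⟨A, B, hs⟩ := str_of (S := Y ∪ Z) (Y := Y) hX hd h0 ho
    (fun r => ⟨mem_union_right _ (hoZ r), eZ _ (hoZ r)⟩)
    (fun i hi => by
      by_contra hn
      exact hi (mem_union_left _ ((eY i).2 hn)))
    (by omega) subset_union_left (fun i hi => (eY i).1 hi)
  have hc : #(Y ∪ Z) ≤ 3 * #Y := by have := card_union_le Y Z; omega
  have hi : Function.Injective
      fun a : Fin #(Y ∪ Z) => (((Y ∪ Z).equivFin.symm a : (Y ∪ Z : Finset ι)) : ι) :=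
    Subtype.val_injective.comp (Y ∪ Z).equivFin.symm.injective
  obtain ⟨g, Q, hg, hQ, e⟩ := miss_good (k := #Y)
    (P := fun i : Fin #(Y ∪ Z) × Fin #(Y ∪ Z) =>
      P ((Y ∪ Z).equivFin.symm i.1, (Y ∪ Z).equivFin.symm i.2))
    (X := fun a => X ((Y ∪ Z).equivFin.symm a)) (hX.comp hi) (fun a b => hd _ _) (by omega)
    (fun γ hγ => by
      obtain ⟨T, h1, h2, h3⟩ := hT γ hγ
      exact h2.trans (sub_ncard (Y ∪ Z) T (fun i => ¬ Onc γ (X i)) h1 h3))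
  exact ⟨Y ∪ Z, o, A, B, hY.trans (card_le_card subset_union_left), hs, g, Q, hg,
    hQ.mono (log_le (by omega) hc), fun a b => e (a, b)⟩

end Pool.Agent.Lib.MP_e5111b_co.Ke
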