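import Pool.Agent.Lib.MP_e5111b_co.Ke.Cnt
import Pool.Agent.Lib.MP_e5111b_co.Ke.Sub
import Pool.Agent.Lib.MP_e5111b_co.Gp.Main

set_option autoImplicit false

namespace Pool.Agent.Lib.MP_e5111b_co.Ke

open Filter MvPolynomial Finset Pc

theorem main_fin {τ : Type} [Finite τ] (N : ℕ) (p : (τ → ℤ) → Prop) :
    {P : τ → ℤ | (∀ i, |P i| ≤ N) ∧ p P}.Finite :=
  (Set.Finite.pi' fun _ => Set.finite_Icc (-(N : ℤ)) N).subset fun _ hP i => abs_le.1 (hP.1 i)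

theorem paucity (ε : ℝ) (hε : 0 < ε) : ∃ k : ℕ, 1 ≤ k ∧ ∀ n : ℕ, ∃ C : ℝ, ∀ N : ℕ, 1 ≤ N →
    (({P : Fin n × Fin n → ℤ | (∀ i, |P i| ≤ N) ∧ Gp.Good k P}.ncard : ℕ) : ℝ) ≤
      C * (N : ℝ) ^ ε := by
  classical
  obtain ⟨n₀, h0⟩ := Gp.paucity (ε / 2) (half_pos hε)
  choose! C1 h1 using h0
  refine ⟨max 256 n₀, by omega, fun n => ?_⟩
  obtain ⟨C2, hC2, h2⟩ := fib_count (ι := Fin n) (half_pos hε)
  let T : Finset (Finset (Fin n) × (Fin 3 → Fin n) × Fin n × Fin n) :=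
    univ.filter fun t => n₀ ≤ #t.1
  refine ⟨∑ t ∈ T, C1 #t.1 * (C2 * 2 ^ (ε / 2)), fun N hN => ?_⟩
  let G := (main_fin (τ := Fin n × Fin n) N (Gp.Good (max 256 n₀))).toFinset
  let W := fun m : ℕ => (main_fin (τ := Fin m × Fin m) N (Gp.Good (25 * Nat.log 2 m))).toFinset
  let Fb := fun (t : Finset (Fin n) × (Fin 3 → Fin n) × Fin n × Fin n)
      (Q : Fin #t.1 × Fin #t.1 → ℤ) => G.filter fun P => Str P t.2.1 t.1 t.2.2.1 t.2.2.2 ∧
    ∃ g : ℤ, 0 < g ∧ ∀ a b, P (t.1.equivFin.symm a, t.1.equivFin.symm b) = g * Q (a, b)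
  have hs : G ⊆ T.biUnion fun t => (W #t.1).biUnion (Fb t) := fun P hP => by
    obtain ⟨b, hg⟩ := (Set.Finite.mem_toFinset _).1 hP
    obtain ⟨S, o, A, B, hS, st, g, Q, g0, hQ, e⟩ := sub_exists hg (le_max_left _ _)
    refine mem_biUnion.2 ⟨(S, o, A, B), mem_filter.2 ⟨mem_univ _, (le_max_right _ _).trans hS⟩,
      mem_biUnion.2 ⟨Q, (Set.Finite.mem_toFinset _).2 ⟨fun i => le_trans ?_
        (b (S.equivFin.symm i.1, S.equivFin.symm i.2)), hQ⟩, mem_filter.2 ⟨hP, st, g, g0, e⟩⟩⟩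
    rw [e, abs_mul]
    exact le_mul_of_one_le_left (abs_nonneg _) (Int.one_le_abs g0.ne')
  have hF : ∀ t Q, (#(Fb t Q) : ℝ) ≤ C2 * 2 ^ (ε / 2) * (N : ℝ) ^ (ε / 2) := fun t Q => by
    have := h2 (2 * N) (max 256 n₀) t.2.1 t.1 t.2.2.1 t.2.2.2
      (fun i => if h : i.1 ∈ t.1 ∧ i.2 ∈ t.1 then
        Q (t.1.equivFin ⟨i.1, h.1⟩, t.1.equivFin ⟨i.2, h.2⟩) else 0) (Fb t Q) (by omega)
      fun P hP => by
        obtain ⟨hP, st, g, g0, e⟩ := mem_filter.1 hP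
        obtain ⟨b, hg⟩ := (Set.Finite.mem_toFinset _).1 hP
        refine ⟨fun i => (b i).trans (by push_cast; omega), hg, st, g, g0, fun i hi j hj => ?_⟩
        rw [dif_pos ⟨hi, hj⟩, ← e, Equiv.symm_apply_apply, Equiv.symm_apply_apply]
    rwa [Nat.cast_mul, Nat.cast_ofNat, Real.mul_rpow zero_le_two (Nat.cast_nonneg _),
      ← mul_assoc] at this
  have N0 : (0 : ℝ) < N := Nat.cast_pos.2 hN
  rw [Set.ncard_eq_toFinset_card _ (main_fin N _), sum_mul]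
  refine (Nat.cast_le.2 ((card_le_card hs).trans card_biUnion_le)).trans ?_
  rw [Nat.cast_sum]
  refine sum_le_sum fun t ht => (Nat.cast_le.2 card_biUnion_le).trans ?_
  have hW := h1 _ (mem_filter.1 ht).2 N hN
  rw [Set.ncard_eq_toFinset_card _ (main_fin N _)] at hW
  rw [Nat.cast_sum]
  refine (sum_le_card_nsmul _ _ _ fun Q _ => hF t Q).trans ?_
  rw [nsmul_eq_mul]
  refine (mul_le_mul_of_nonneg_right hW (by positivity)).trans_eq ?_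
  rw [show (N : ℝ) ^ ε = N ^ (ε / 2) * N ^ (ε / 2) by rw [← Real.rpow_add N0, add_halves]]
  ring

end Pool.Agent.Lib.MP_e5111b_co.Ke
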