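import Pool.Agent.Lib.MP_e5111b_co.Ke.Ht
import Pool.Agent.Lib.MP_e5111b_co.Ke.Alg
import Pool.Agent.Lib.SW.Div

set_option autoImplicit false

namespace Pool.Agent.Lib.MP_e5111b_co.Ke

open Filter MvPolynomial Finset Pc

/-- the height of the next abscissa -/
theorem step_nX {M : ℕ} (hM : 2 ≤ M) {u : Fin 7 → ℚ} (h : ∀ r, Hb M 20 (u r)) :
    Hb M 400 (nX u) := by
  have h2 := Hb.two hM
  have g1 := (h2.mul (h 6)).mul (h 4)
  have g2 := ((h2.mul (h 1)).mul ((h 5).pow 2)).mul ((h 3).pow 2)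
  have g3 := (h 0).mul (((h 5).pow 2).add hM ((h 3).pow 2))
  have g4 := ((g1.add hM g2).add hM g3).add hM (h2.mul (h 2))
  exact (g4.div (((h 5).sub hM (h 3)).pow 2)).mono hM (by norm_num)

/-- points whose parameter is a root of a polynomial -/
theorem step_root {W : Type} {m D : ℕ} (T : Finset W) (s : W → ℚ) {p : Polynomial ℚ} (p0 : p ≠ 0)
    (hD : p.natDegree ≤ D) (h : ∀ P ∈ T, p.eval (s P) = 0)
    (hm : ∀ z, #(T.filter fun P => s P = z) ≤ m) : #T ≤ D * m := by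
  have h1 := card_le_mul_card_image_of_maps_to (s := T) (t := p.roots.toFinset) (f := s)
    (fun P hP => Multiset.mem_toFinset.2 ((Polynomial.mem_roots p0).2 (h P hP))) m
    fun z _ => hm z
  have h2 : #p.roots.toFinset ≤ D :=
    (Multiset.toFinset_card_le _).trans ((Polynomial.card_roots' p).trans hD)
  rw [mul_comm]
  exact h1.trans (Nat.mul_le_mul_left m h2)

/-- heights on the quartic -/
theorem step_ht {M : ℕ} (hM : 2 ≤ M) {a d e s w X : ℚ} (ha : Hb M 1 a) (hd : Hb M 1 d)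
    (he : Hb M 1 e) (hX : Hb M 1 X) (d0 : d ≠ 0) (hs : X = d * s ^ 2)
    (hw : w ^ 2 = d * s ^ 4 + a * s ^ 2 + e) : Hb M 20 s ∧ Hb M 20 w := by
  have h1 : Hb M 2 (s ^ 2) := by
    rw [show s ^ 2 = X / d by rw [hs, mul_div_cancel_left₀ _ d0]]
    exact hX.div hd
  have h2 := ((hd.mul (h1.pow 2)).add hM (ha.mul h1)).add hM he
  rw [← pow_mul, ← hw] at h2
  exact ⟨h1.of_sq.mono hM (by norm_num), h2.of_sq.mono hM (by norm_num)⟩

section
variable {K : Type} [Field K] {a d e s₀ w₀ s w : K}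

omit [Field K] in
theorem step_all {Q : K → Prop} (h0 : Q a) (h1 : Q d) (h2 : Q e) (h3 : Q s₀) (h4 : Q w₀) (h5 : Q s)
    (h6 : Q w) (r : Fin 7) : Q (![a, d, e, s₀, w₀, s, w] r) := by
  fin_cases r
  exacts [h0, h1, h2, h3, h4, h5, h6]

theorem step_lev (h : w ^ 2 = d * s ^ 4 + a * s ^ 2 + e) (h₀ : w₀ ^ 2 = d * s₀ ^ 4 + a * s₀ ^ 2 + e)
    (hn : d * e * (a ^ 2 - 4 * d * e) * s₀ * w₀ * s * (s ^ 2 - s₀ ^ 2) ≠ 0) :
    Lev ![a, d, e, s₀, w₀, s, w] := ⟨h, h₀, hn⟩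

theorem step_bas {b X Y : K} (h : d * e = b) (hX : X = d * s ^ 2) (hY : Y = d * s * w) :
    Bas a b X Y ![a, d, e, s₀, w₀, s, w] := by
  subst h hX hY
  simp [Bas]

omit [Field K] in
theorem step_eq {s' w' : K} (r : Fin 7) (hr : (r : ℕ) < 5) :
    ![a, d, e, s₀, w₀, s, w] r = ![a, d, e, s₀, w₀, s', w'] r := by
  fin_cases r <;> simp at hr ⊢

end

theorem step_qu {K : Type} [Field K] [CharZero K] (a d e s₀ w₀ z : K) (hw : w₀ ≠ 0)
    (hd : d * e * (a ^ 2 - 4 * d * e) ≠ 0) :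
    ∃ p : Polynomial K, p ≠ 0 ∧ p.natDegree ≤ 4 ∧ ∀ s w : K, w ^ 2 = d * s ^ 4 + a * s ^ 2 + e →
      s - s₀ ≠ 0 → nX ![a, d, e, s₀, w₀, s, w] = z → p.eval s = 0 := by
  obtain ⟨p, p0, hp, hq⟩ := quartic a d e s₀ w₀ z hw hd
  refine ⟨p, p0, hp, fun s w h1 h2 h3 => ?_⟩
  have h4 := hq K ![a, d, e, s₀, w₀, s, w] rfl rfl rfl rfl rfl h1 (by
    rw [← h3]
    exact div_mul_cancel₀ _ (pow_ne_zero 2 h2))
  rwa [Polynomial.coe_aeval_eq_eval] at h4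

/-- one level of the tower -/
theorem step {W : Type} {M m : ℕ} (hM : 2 ≤ M) {a b : ℤ} (ha : |a| ≤ M) (hb : |b| ≤ M)
    (h0 : b * (a ^ 2 - 4 * b) ≠ 0) (T : Finset W) (X Y : W → ℚ)
    (hT : ∀ P ∈ T, Y P ^ 2 = X P * (X P ^ 2 + a * X P + b) ∧ Hb M 1 (X P))
    (hm : ∀ z, #(T.filter fun P => X P = z) ≤ m) :
    ∃ T' ⊆ T, ∃ u : W → Fin 7 → ℚ, #T ≤ 3 * m + 2 * #b.natAbs.divisors * (#T' + m) ∧
      (∀ P ∈ T', Lev (u P) ∧ Bas (a : ℚ) b (X P) (Y P) (u P) ∧ (∀ r, Hb M 20 (u P r)) ∧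
        Hb M 400 (nX (u P)) ∧ ∀ P' ∈ T', ∀ r : Fin 7, (r : ℕ) < 5 → u P r = u P' r) ∧
      ∀ z, #(T'.filter fun P => nX (u P) = z) ≤ 4 * m := by
  classical
  have b0 : b ≠ 0 := left_ne_zero_of_mul h0
  have hint : ∀ z : ℤ, |z| ≤ M → Hb M 1 (z : ℚ) := fun z hz => Hb.int hM (by rwa [pow_one])
  have sub : ∀ (S : Finset W), S ⊆ T → ∀ z, #(S.filter fun P => X P = z) ≤ m := fun S hS z =>
    (card_le_card (filter_subset_filter _ hS)).trans (hm z)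
  have c0 : #(T.filter fun P => Y P = 0) ≤ 3 * m := by
    refine step_root _ X (p := Polynomial.X ^ 3 + Polynomial.C (a : ℚ) * Polynomial.X ^ 2 +
      Polynomial.C (b : ℚ) * Polynomial.X) (Polynomial.Monic.ne_zero (by monicity!))
      (by compute_degree) (fun P hP => ?_) (sub _ (filter_subset _ _))
    obtain ⟨hP, hY⟩ := mem_filter.1 hP
    have h1 := (hT P hP).1
    rw [hY] at h1
    simp only [Polynomial.eval_add, Polynomial.eval_mul, Polynomial.eval_pow, Polynomial.eval_X,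
      Polynomial.eval_C]
    linear_combination -h1
  have des : ∀ P, ∃ d : ℤ, ∃ s : ℚ, P ∈ T → Y P ≠ 0 → d ∣ b ∧ X P = d * s ^ 2 := fun P => by
    by_cases h : P ∈ T ∧ Y P ≠ 0
    · obtain ⟨d, hd, s, hs⟩ := descent h.2 (hT P h.1).1
      exact ⟨d, s, fun _ _ => ⟨hd, hs⟩⟩
    · exact ⟨0, 0, fun h1 h2 => absurd ⟨h1, h2⟩ h⟩
  choose d s hds using des
  set T₀ := T.filter fun P => ¬ Y P = 0 with hT₀
  let D : Finset ℤ := b.natAbs.divisors.image (fun x : ℕ => (x : ℤ)) ∪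
    b.natAbs.divisors.image fun x : ℕ => -(x : ℤ)
  have hD : #D ≤ 2 * #b.natAbs.divisors :=
    (card_union_le _ _).trans ((add_le_add card_image_le card_image_le).trans (by omega))
  have mD : ∀ x : ℤ, x ∣ b → x ∈ D := fun x hx => by
    have h1 : x.natAbs ∈ b.natAbs.divisors :=
      Nat.mem_divisors.2 ⟨Int.natAbs_dvd_natAbs.2 hx, Int.natAbs_ne_zero.2 b0⟩
    rcases Int.natAbs_eq x with h | h
    · exact mem_union_left _ (mem_image.2 ⟨_, h1, h.symm⟩)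
    · exact mem_union_right _ (mem_image.2 ⟨_, h1, h.symm⟩)
  obtain ⟨d₀, -, hmax⟩ := exists_max_image D (fun x => #(T₀.filter fun P => d P = x))
    ⟨1, mD 1 (one_dvd b)⟩
  set C := T₀.filter fun P => d P = d₀ with hC
  have c1 : #T₀ ≤ 2 * #b.natAbs.divisors * #C := by
    have h1 := card_le_mul_card_image_of_maps_to (s := T₀) (t := D) (f := d)
      (fun P hP => mD _ (hds P (mem_filter.1 hP).1 (mem_filter.1 hP).2).1) #C hmax
    rw [mul_comm]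
    exact h1.trans (Nat.mul_le_mul_left _ hD)
  have c2 : #T = #(T.filter fun P => Y P = 0) + #T₀ := (card_filter_add_card_filter_not _).symm
  have CT : C ⊆ T := (filter_subset _ _).trans (filter_subset _ _)
  rcases C.eq_empty_or_nonempty with hE | ⟨P₀, hP₀⟩
  · refine ⟨∅, empty_subset _, fun _ _ => 0, ?_, by simp, by simp⟩
    rw [hE, card_empty, mul_zero] at c1
    omega
  have inC : ∀ P ∈ C, Y P ≠ 0 ∧ d₀ ∣ b ∧ X P = d₀ * s P ^ 2 := fun P hP => by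
    obtain ⟨h1, h2⟩ := mem_filter.1 hP
    obtain ⟨h3, h4⟩ := mem_filter.1 h1
    exact ⟨h4, h2 ▸ hds P h3 h4⟩
  obtain ⟨e, he⟩ := (inC P₀ hP₀).2.1
  have d0 : d₀ ≠ 0 := fun h => b0 (by rw [he, h, zero_mul])
  have d0' : (d₀ : ℚ) ≠ 0 := Int.cast_ne_zero.2 d0
  have heq : (b : ℚ) = d₀ * e := by rw [he, Int.cast_mul]
  have hde : (d₀ : ℚ) * e * ((a : ℚ) ^ 2 - 4 * d₀ * e) ≠ 0 := by
    have h1 : ((b * (a ^ 2 - 4 * b) : ℤ) : ℚ) ≠ 0 := Int.cast_ne_zero.2 h0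
    push_cast at h1
    rwa [heq, ← mul_assoc 4] at h1
  have hd1 : Hb M 1 (d₀ : ℚ) :=
    hint _ ((Int.le_of_dvd (abs_pos.2 b0) ((abs_dvd_abs _ _).2 ⟨e, he⟩)).trans hb)
  have he1 : Hb M 1 (e : ℚ) :=
    hint _ ((Int.le_of_dvd (abs_pos.2 b0) ((abs_dvd_abs _ _).2 ⟨d₀, by rw [he, mul_comm]⟩)).trans hb)
  obtain ⟨w, hwd⟩ : ∃ w : W → ℚ, ∀ P, w P = Y P / (d₀ * s P) := ⟨_, fun _ => rfl⟩
  have pt : ∀ P ∈ C, s P ≠ 0 ∧ w P ≠ 0 ∧ Y P = d₀ * s P * w P ∧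
      w P ^ 2 = d₀ * s P ^ 4 + a * s P ^ 2 + e := fun P hP => by
    obtain ⟨h1, -, h2⟩ := inC P hP
    have h3 := (hT P (CT hP)).1
    have s0 : s P ≠ 0 := fun h => h1 (by
      rw [h2, h] at h3
      simpa using h3)
    have ds := mul_ne_zero d0' s0
    have h4 : Y P = d₀ * s P * w P := by rw [hwd, mul_div_cancel₀ _ ds]
    refine ⟨s0, hwd P ▸ div_ne_zero h1 ds, h4, mul_left_cancel₀ (pow_ne_zero 2 ds) ?_⟩
    rw [h2, heq, h4] at h3
    linear_combination h3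
  have ht : ∀ P ∈ C, Hb M 20 (s P) ∧ Hb M 20 (w P) := fun P hP =>
    step_ht hM (hint a ha) hd1 he1 (hT P (CT hP)).2 d0' (inC P hP).2.2 (pt P hP).2.2.2
  obtain ⟨u, hu7⟩ : ∃ u : W → Fin 7 → ℚ, ∀ P, u P = ![(a : ℚ), d₀, e, s P₀, w P₀, s P, w P] :=
    ⟨_, fun _ => rfl⟩
  set T' := C.filter fun P => ¬ X P = X P₀ with hT'
  have ne : ∀ P ∈ T', s P ^ 2 - s P₀ ^ 2 ≠ 0 := fun P hP h => by
    obtain ⟨h1, h2⟩ := mem_filter.1 hP
    refine h2 ?_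
    rw [(inC P h1).2.2, (inC P₀ hP₀).2.2, sub_eq_zero.1 h]
  refine ⟨T', (filter_subset _ _).trans CT, u, ?_, fun P hP => ?_, fun z => ?_⟩
  · have c3 : #C = #(C.filter fun P => X P = X P₀) + #T' :=
      (card_filter_add_card_filter_not _).symm
    have c4 := sub C CT (X P₀)
    have c5 : 2 * #b.natAbs.divisors * #C ≤ 2 * #b.natAbs.divisors * (#T' + m) :=
      Nat.mul_le_mul_left _ (by omega)
    omega
  · have hP' := (mem_filter.1 hP).1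
    obtain ⟨s0, -, hY, hw⟩ := pt P hP'
    obtain ⟨s1, w1, -, hw1⟩ := pt P₀ hP₀
    have hu : ∀ r, Hb M 20 (u P r) := by
      rw [hu7]
      exact step_all ((hint a ha).mono hM (by norm_num)) (hd1.mono hM (by norm_num))
        (he1.mono hM (by norm_num)) (ht P₀ hP₀).1 (ht P₀ hP₀).2 (ht P hP').1 (ht P hP').2
    refine ⟨?_, ?_, hu, step_nX hM hu, fun P' _ r hr => ?_⟩
    · rw [hu7]
      exact step_lev hw hw1 <| mul_ne_zero
        (mul_ne_zero (mul_ne_zero (mul_ne_zero hde s1) w1) s0) (ne P hP)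
    · rw [hu7]
      exact step_bas heq.symm (inC P hP').2.2 hY
    · rw [hu7, hu7]
      exact step_eq r hr
  · obtain ⟨p, p0, hp, hq⟩ := step_qu (a : ℚ) d₀ e (s P₀) (w P₀) z (pt P₀ hP₀).2.1 hde
    refine step_root _ s p0 hp (fun P hP => ?_) fun c => ?_
    · obtain ⟨h1, h2⟩ := mem_filter.1 hP
      have h3 : s P - s P₀ ≠ 0 := fun h => ne P h1 (by rw [sub_eq_zero.1 h, sub_self])
      exact hq _ _ (pt P (mem_filter.1 h1).1).2.2.2 h3 (by rw [← hu7, h2])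
    · refine (card_le_card fun P hP => ?_).trans (hm (d₀ * c ^ 2))
      obtain ⟨h1, h2⟩ := mem_filter.1 hP
      have h3 := (mem_filter.1 (mem_filter.1 h1).1).1
      exact mem_filter.2 ⟨CT h3, h2 ▸ (inC P h3).2.2⟩

end Pool.Agent.Lib.MP_e5111b_co.Ke
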