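import Pool.Agent.Lib.MP_e5111b_co.Ke.Geo

set_option autoImplicit false

namespace Pool.Agent.Lib.MP_e5111b_co.Ke

open Filter MvPolynomial Finset Pc

variable {ι : Type} {P : ι × ι → ℤ} {k : ℕ}

theorem good_miss [Fintype ι] (h : Gp.Good k P) (hk : 1 ≤ k) : ∃ X : ι → ℂ,
    Function.Injective X ∧ (∀ a b, dist (X a) (X b) = P (a, b)) ∧
    ∀ γ : Fin 4 → ℂ, γ ≠ 0 → k ≤ {i | ¬ Onc γ (X i)}.ncard := by
  have hp := fun a b => h.pos (i := a) (j := b)
  have hc := fun a b => h.card (p := a) (q := b)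
  have ht := fun a b c => h.pto (i := a) (j := b) (l := c)
  obtain ⟨-, X, h2, h3, h4, -⟩ := h
  refine ⟨X, h2, h3, fun γ g0 => ?_⟩
  by_cases h6 : 2 < {i | Onc γ (X i)}.ncard
  · obtain ⟨i, hi, j, hj, l, hl, hij, hil, hjl⟩ := (Set.two_lt_ncard (Set.toFinite _)).1 h6
    let c : Gp.Cf ι ℂ := ⟨X, fun a => starRingEnd ℂ (X a), fun a b => P (a, b), Gp.ga_sq h3,
      fun a b hab => by exact_mod_cast (hp a b hab).ne'⟩
    refine (ht i j l hij hil hjl).trans (Set.ncard_le_ncard fun m hm h7 => hm ?_)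
    have h8 := (Gp.Cf.on_iff_cyc (c := c) g0 hij hil hjl hi hj hl m).1 h7
    rw [← pow_eq_zero_iff two_ne_zero, Gp.Cf.cyc_sq] at h8
    have : ((Gp.pto P i j l m : ℤ) : ℂ) = 0 := by simpa [Gp.pto] using h8
    exact_mod_cast this
  · obtain ⟨p, -⟩ := Set.nonempty_of_ncard_ne_zero (hk.trans (h4 0 0) |> Nat.ne_of_gt)
    obtain ⟨q, hq⟩ := Set.nonempty_of_ncard_ne_zero (hk.trans (h4 (X p) (X p)) |> Nat.ne_of_gt)
    have h7 := hc p q fun e => hq (e ▸ left_mem_affineSpan_pair _ _ _)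
    have h8 := Set.ncard_add_ncard_compl {i | Onc γ (X i)}
    rw [Nat.card_eq_fintype_card, Set.compl_ofPred] at h8
    omega

theorem subA_line (u w : ℂ) : ∃ v : ℂ, v ≠ 0 ∧ ∀ z ∈ line[ℝ, u, w],
    starRingEnd ℂ v * (z - u) = v * starRingEnd ℂ (z - u) := by
  have key : ∀ z ∈ line[ℝ, u, w], ∃ t : ℝ, z - u = t * (w - u) := fun z hz => by
    obtain ⟨t, rfl⟩ := mem_affineSpan_pair_iff_exists_lineMap_eq.1 hz
    exact ⟨t, by rw [AffineMap.lineMap_apply, vsub_eq_sub, vadd_eq_add, Complex.real_smul]; ring⟩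
  by_cases e : w - u = 0
  · refine ⟨1, one_ne_zero, fun z hz => ?_⟩
    obtain ⟨t, ht⟩ := key z hz
    simp [ht, e]
  · refine ⟨w - u, e, fun z hz => ?_⟩
    obtain ⟨t, ht⟩ := key z hz
    rw [ht, map_mul, Complex.conj_ofReal]
    ring

/-- the primitive part -/
theorem miss_good [Fintype ι] {X : ι → ℂ} (hX : Function.Injective X)
    (hd : ∀ a b, dist (X a) (X b) = P (a, b)) (hk : 1 ≤ k)
    (h : ∀ γ : Fin 4 → ℂ, γ ≠ 0 → k ≤ {i | ¬ Onc γ (X i)}.ncard) :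
    ∃ (g : ℤ) (Q : ι × ι → ℤ), 0 < g ∧ Gp.Good k Q ∧ ∀ i, P i = g * Q i := by
  have hc : ∀ (o : ℂ) (r : ℝ), 0 ≤ r → k ≤ {i | dist (X i) o ≠ r}.ncard := fun o r hr => by
    have := h ![1, -(starRingEnd ℂ o), -o, o * starRingEnd ℂ o - (r : ℂ) ^ 2]
      fun e => by simpa using congrFun e 0
    simpa only [Onc, Gp.ga_circ _ _ hr] using this
  obtain ⟨p, -⟩ := Set.nonempty_of_ncard_ne_zero (hk.trans (hc 0 0 le_rfl) |> Nat.ne_of_gt)
  obtain ⟨q, hq⟩ := Set.nonempty_of_ncard_ne_zero (hk.trans (hc (X p) 0 le_rfl) |> Nat.ne_of_gt)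
  obtain ⟨g, hg⟩ : ∃ g : ℕ, g = univ.gcd fun i => (P i).natAbs := ⟨_, rfl⟩
  have g1 : ∀ i, (g : ℤ) ∣ P i := fun i => Int.natCast_dvd.2 (hg ▸ gcd_dvd (mem_univ i))
  have g0 : 0 < g := Nat.pos_of_ne_zero fun e => hq (by
    have := g1 (q, p)
    rw [e, Nat.cast_zero, zero_dvd_iff] at this
    rw [hd, this, Int.cast_zero])
  choose Q hQ using g1
  have gR : (0 : ℝ) < g := by exact_mod_cast g0
  have gC : (g : ℂ) ≠ 0 := by exact_mod_cast g0.ne'
  have ds : ∀ a b : ℂ, dist (a / g) b = dist a (g * b) / g := fun a b => by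
    rw [Complex.dist_eq, Complex.dist_eq, ← Complex.norm_natCast, ← norm_div]
    congr 1
    field_simp
  refine ⟨g, Q, by exact_mod_cast g0, ⟨fun m hm => ?_, fun i => X i / g,
    fun a b e => hX ((div_left_inj' gC).1 e), fun a b => ?_, fun u w => ?_, fun o r => ?_⟩, hQ⟩
  · have h1 : g * m ∣ g * 1 := by
      rw [mul_one]
      nth_rewrite 2 [hg]
      refine dvd_gcd fun i _ => Int.natCast_dvd.1 ?_
      rw [hQ, Nat.cast_mul]
      exact mul_dvd_mul_left _ (hm i)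
    exact Nat.dvd_one.1 (Nat.dvd_of_mul_dvd_mul_left g0 h1)
  · rw [ds, mul_div_cancel₀ _ gC, hd, hQ]
    push_cast
    field_simp
  · obtain ⟨v, v0, hv⟩ := subA_line u w
    refine (h ![0, starRingEnd ℂ v, -v, g * (v * starRingEnd ℂ u - starRingEnd ℂ v * u)]
      fun e => v0 (neg_eq_zero.1 (congrFun e 2))).trans
      (Set.ncard_le_ncard fun i hi h1 => hi ?_)
    have h2 := hv _ h1
    rw [map_sub, map_div₀, map_natCast] at h2
    field_simp at h2
    simp only [Onc, Gp.bil, Matrix.cons_val_zero, Matrix.cons_val_one, Matrix.cons_val]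
    linear_combination h2
  · refine (hc (g * o) (g * |r|) (by positivity)).trans (Set.ncard_le_ncard fun i hi h1 => hi ?_)
    have h2 : dist (X i / g) o = r := h1
    rw [abs_of_nonneg (h2 ▸ dist_nonneg), ← h2, ds, mul_div_cancel₀ _ gR.ne']

theorem log_le {n k : ℕ} (hk : 256 ≤ k) (h : n ≤ 3 * k) : 25 * Nat.log 2 n ≤ k := by
  have h1 : ∀ m, 8 ≤ m → 25 * (m + 2) ≤ 2 ^ m := fun m hm => by
    induction m, hm using Nat.le_induction with
    | base => norm_num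
    | succ m _ ih => rw [pow_succ]; omega
  have h2 : 8 ≤ Nat.log 2 k := Nat.le_log_of_pow_le (by norm_num) (by norm_num; exact hk)
  have h3 : 2 ^ Nat.log 2 k ≤ k := Nat.pow_log_le_self 2 (by omega)
  have h4 : k < 2 ^ (Nat.log 2 k + 1) := Nat.lt_pow_succ_log_self (by norm_num) k
  have h5 : Nat.log 2 n < Nat.log 2 k + 3 := by
    rcases Nat.eq_zero_or_pos n with rfl | n0
    · simp
    · refine Nat.log_lt_of_lt_pow n0.ne' ?_
      rw [pow_succ] at h4
      rw [pow_add]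
      omega
  have := h1 _ h2
  omega

end Pool.Agent.Lib.MP_e5111b_co.Ke
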