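import Pool.Agent.Lib.MP_e5111b_co.Ke.EllB

set_option autoImplicit false

namespace Pool.Agent.Lib.MP_e5111b_co.Ke

open Filter MvPolynomial Finset Pc

/-- rational parametrisation of one conic -/
theorem two_u {M n : ℕ} {z α h : ℚ} (hM : 2 ≤ M) (hz : Hb M n z) (hα : Hb M n α) (hh : Hb M n h)
    (h0 : 0 < h) (hs : IsSquare ((z - α) ^ 2 + h)) :
    ∃ u : ℚ, 0 < u ∧ 2 * (z - α) * u = u ^ 2 - h ∧ Hb M (7 * n + 5) u := by
  obtain ⟨r, hr⟩ := hs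
  have e : |r| ^ 2 = (z - α) ^ 2 + h := by rw [sq_abs, hr]; ring
  have hd : Hb M (n + n + 1) (z - α) := hz.sub hM hα
  have h1 : Hb M ((n + n + 1) * 2 + n + 1) (|r| ^ 2) := by
    rw [e]; exact (hd.pow 2).add hM hh
  have h2 := (h1.of_sq).add hM hd
  refine ⟨|r| + (z - α), ?_, by linear_combination -e, h2.mono hM (by omega)⟩
  have h3 : |z - α| < |r| := by
    rw [← sq_lt_sq, ← sq_abs r, e]; linarith
  have h4 := neg_abs_le (z - α)
  linarith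

theorem two_den {M n : ℕ} {x : ℚ} (hM : 2 ≤ M) (h : Hb M n x) : Hb M n (x.den : ℚ) := by
  refine ⟨?_, ?_⟩
  · simpa using h.2
  · simpa using Nat.one_le_pow n M (by omega)

/-- the product of the two parameters determines the point -/
theorem two_inj {α₁ h₁ α₂ h₂ z z' u v u' v' : ℚ} (p₁ : 0 < h₁) (p₂ : 0 < h₂) (hu : 0 < u)
    (hv : 0 < v) (hu' : 0 < u') (a : 2 * (z - α₁) * u = u ^ 2 - h₁)
    (b : 2 * (z - α₂) * v = v ^ 2 - h₂) (a' : 2 * (z' - α₁) * u' = u' ^ 2 - h₁)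
    (b' : 2 * (z' - α₂) * v' = v' ^ 2 - h₂) (e : u * v = u' * v') : z = z' := by
  obtain ⟨X, hX⟩ : ∃ X, X = u * v := ⟨_, rfl⟩
  have hX' : X = u' * v' := hX.trans e
  have X0 : 0 < X := by rw [hX]; positivity
  have q : (X + h₂) * u ^ 2 - 2 * (α₂ - α₁) * X * u - X * (X + h₁) = 0 := by
    rw [hX]; linear_combination (u ^ 2) * b - (u * v) * a
  have q' : (X + h₂) * u' ^ 2 - 2 * (α₂ - α₁) * X * u' - X * (X + h₁) = 0 := by
    rw [hX']; linear_combination (u' ^ 2) * b' - (u' * v') * a'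
  have f : (u - u') * ((X + h₂) * u * u' + X * (X + h₁)) = 0 := by
    linear_combination u' * q - u * q'
  have g : 0 < (X + h₂) * u * u' + X * (X + h₁) := by positivity
  have euu : u = u' := sub_eq_zero.1 ((mul_eq_zero.1 f).resolve_right g.ne')
  subst euu
  have : (z - z') * u = 0 := by linear_combination (a - a') / 2
  exact sub_eq_zero.1 ((mul_eq_zero.1 this).resolve_right hu.ne')

/-- points of a line at rational distance from two points -/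
theorem two_conics {η : ℝ} (hη : 0 < η) (n : ℕ) : ∃ C : ℝ, 0 ≤ C ∧
    ∀ (M : ℕ) (α₁ h₁ α₂ h₂ : ℚ) (T : Finset ℚ), 2 ≤ M → Hb M n α₁ → Hb M n h₁ → Hb M n α₂ →
      Hb M n h₂ → 0 < h₁ → 0 < h₂ → (α₁, h₁) ≠ (α₂, h₂) →
      (∀ z ∈ T, Hb M n z ∧ IsSquare ((z - α₁) ^ 2 + h₁) ∧ IsSquare ((z - α₂) ^ 2 + h₂)) →
      (#T : ℝ) ≤ C * (M : ℝ) ^ η := by
  obtain ⟨c, hc⟩ : ∃ c : ℕ, c = 34 * n + 18 := ⟨_, rfl⟩
  have c0 : (0 : ℝ) < c := by rw [hc]; positivity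
  obtain ⟨C, hC⟩ := ell (η := η / c) (by positivity)
  refine ⟨max C 0, le_max_right _ _, ?_⟩
  intro M α₁ h₁ α₂ h₂ T hM H1 H2 H3 H4 p₁ p₂ hne hT
  obtain ⟨a₀, ha⟩ : ∃ a₀ : ℚ, a₀ = h₁ + h₂ + (α₂ - α₁) ^ 2 := ⟨_, rfl⟩
  obtain ⟨b₀, hb⟩ : ∃ b₀ : ℚ, b₀ = h₁ * h₂ := ⟨_, rfl⟩
  have Ha : Hb M (6 * n + 4) a₀ := by
    rw [ha]
    exact ((H2.add hM H4).add hM ((H3.sub hM H1).pow 2)).mono hM (by omega)
  have Hb' : Hb M (2 * n) b₀ := by
    rw [hb]; exact (H2.mul H4).mono hM (by omega)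
  obtain ⟨la, hla⟩ : ∃ la : ℚ, la = (a₀.den : ℚ) * b₀.den := ⟨_, rfl⟩
  have l0 : 0 < la := by
    rw [hla]; exact mul_pos (by exact_mod_cast a₀.pos) (by exact_mod_cast b₀.pos)
  have Hl : Hb M (8 * n + 4) la := by
    rw [hla]; exact ((two_den hM Ha).mul (two_den hM Hb')).mono hM (by omega)
  obtain ⟨a, ea⟩ : ∃ a : ℤ, (a : ℚ) = la ^ 2 * a₀ := by
    refine ⟨a₀.num * a₀.den * b₀.den ^ 2, ?_⟩
    rw [hla]; push_cast; rw [← Rat.mul_den_eq_num a₀]; ring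
  obtain ⟨b, eb⟩ : ∃ b : ℤ, (b : ℚ) = la ^ 4 * b₀ := by
    refine ⟨b₀.num * a₀.den ^ 4 * b₀.den ^ 3, ?_⟩
    rw [hla]; push_cast; rw [← Rat.mul_den_eq_num b₀]; ring
  have ia : |a| ≤ (M : ℤ) ^ c := by
    refine Hb.int_le (M := M) (n := c) ?_
    rw [ea]; exact ((Hl.pow 2).mul Ha).mono hM (by omega)
  have ib : |b| ≤ (M : ℤ) ^ c := by
    refine Hb.int_le (M := M) (n := c) ?_
    rw [eb]; exact ((Hl.pow 4).mul Hb').mono hM (by omega)
  have disc : 0 < a₀ ^ 2 - 4 * b₀ := by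
    have e : a₀ ^ 2 - 4 * b₀ =
        (h₁ - h₂) ^ 2 + ((α₂ - α₁) ^ 2) * (2 * (h₁ + h₂) + (α₂ - α₁) ^ 2) := by
      rw [ha, hb]; ring
    rw [e]
    by_cases e1 : α₂ - α₁ = 0
    · have e2 : h₁ - h₂ ≠ 0 := fun e2 =>
        hne (Prod.ext (sub_eq_zero.1 e1).symm (sub_eq_zero.1 e2))
      positivity
    · positivity
  have nd : b * (a ^ 2 - 4 * b) ≠ 0 := by
    have e : ((b * (a ^ 2 - 4 * b) : ℤ) : ℚ) = la ^ 8 * (h₁ * h₂) * (a₀ ^ 2 - 4 * b₀) := by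
      push_cast; rw [ea, eb, ← hb]; ring
    intro h0
    rw [h0] at e
    have : 0 < la ^ 8 * (h₁ * h₂) * (a₀ ^ 2 - 4 * b₀) := by positivity
    rw [← e] at this
    simp at this
  have hu : ∀ z ∈ T, ∃ u : ℚ, 0 < u ∧ 2 * (z - α₁) * u = u ^ 2 - h₁ ∧ Hb M (7 * n + 5) u :=
    fun z hz => two_u hM (hT z hz).1 H1 H2 p₁ (hT z hz).2.1
  have hv : ∀ z ∈ T, ∃ v : ℚ, 0 < v ∧ 2 * (z - α₂) * v = v ^ 2 - h₂ ∧ Hb M (7 * n + 5) v :=
    fun z hz => two_u hM (hT z hz).1 H3 H4 p₂ (hT z hz).2.2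
  choose! u u0 ue uh using hu
  choose! v v0 ve vh using hv
  have inj : Set.InjOn (fun z => la ^ 2 * (u z * v z)) T := by
    intro z hz z' hz' e
    exact two_inj p₁ p₂ (u0 z hz) (v0 z hz) (u0 z' hz') (ue z hz) (ve z hz) (ue z' hz')
      (ve z' hz') (mul_left_cancel₀ (pow_pos l0 2).ne' e)
  have M2 : 2 ≤ M ^ c := hM.trans (Nat.le_self_pow (by omega) M)
  have key := hC (M ^ c) a b (T.image fun z => la ^ 2 * (u z * v z)) M2 (by exact_mod_cast ia)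
    (by exact_mod_cast ib) nd (by
      intro X hX
      obtain ⟨z, hz, rfl⟩ := mem_image.1 hX
      refine ⟨?_, la ^ 3 * ((u z * (u z * v z + h₂) + v z * (u z * v z + h₁)) / 2), ?_⟩
      · exact (((Hl.pow 2).mul ((uh z hz).mul (vh z hz))).mono hM (m := c) (by omega)).base
          (by rw [pow_one])
      · have r : u z * (u z * v z + h₂) - v z * (u z * v z + h₁) = 2 * (α₂ - α₁) * (u z * v z) := by
          linear_combination (u z) * ve z hz - (v z) * ue z hz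
        rw [ea, eb, ha, hb]
        linear_combination (-(la ^ 6) / 4 * (u z * (u z * v z + h₂) - v z * (u z * v z + h₁) +
          2 * (α₂ - α₁) * (u z * v z))) * r)
  rw [card_image_of_injOn inj] at key
  have pw : ((M ^ c : ℕ) : ℝ) ^ (η / c) = (M : ℝ) ^ η := by
    rw [Nat.cast_pow, ← Real.rpow_natCast, ← Real.rpow_mul (Nat.cast_nonneg M)]
    congr 1
    field_simp
  rw [pw] at key
  exact key.trans (mul_le_mul_of_nonneg_right (le_max_left _ _) (by positivity))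

end Pool.Agent.Lib.MP_e5111b_co.Ke
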